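import Mathlib

open MeasureTheory Set Manifold Bundle
open scoped ContDiff ENNReal

noncomputable section

namespace Pool.Agent.H74.Surf

section

variable {E H : Type} [NormedAddCommGroup E] [NormedSpace ℝ E] [TopologicalSpace H]
  (I : ModelWithCorners ℝ E H)

/-- A smooth Riemannian manifold, possibly with boundary: `M` is a smooth manifold modelled on `I`
with a smooth Riemannian metric, and its distance is the infimum of the lengths of paths. -/
class RiemannianSpace (M : Type) [MetricSpace M] [ChartedSpace H M] where
  [smooth : IsManifold I ∞ M]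
  [metric : RiemannianBundle (fun x : M => TangentSpace I x)]
  [smoothMetric : IsContMDiffRiemannianBundle I ∞ E (fun x : M => TangentSpace I x)]
  [dist_eq : IsRiemannianManifold I M]

/-- A smooth manifold with boundary is orientable if it can be covered by smooth charts
(elements of the maximal atlas) all of whose coordinate changes have positive Jacobian. -/
def Orientable (M : Type) [TopologicalSpace M] [ChartedSpace H M] : Prop :=
  ∃ A : Set (OpenPartialHomeomorph M H),
    A ⊆ IsManifold.maximalAtlas I ∞ M ∧
    (∀ x : M, ∃ e ∈ A, x ∈ e.source) ∧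
    ∀ e ∈ A, ∀ e' ∈ A, ∀ x ∈ e.source ∩ e'.source,
      0 < (fderivWithin ℝ (e'.extend I ∘ (e.extend I).symm) (range I) (e.extend I x)).det

/-- The image of the vector `v`, at the point `z` of the model domain, under the derivative of the
map `f` into the manifold. -/
def push {M : Type} [TopologicalSpace M] [ChartedSpace H M] (f : E → M) (z v : E) :
    TangentSpace I (f z) :=
  mfderivWithin 𝓘(ℝ, E) I f (range I) z v

/-- The matrix `gᵢⱼ = ⟨∂ᵢ, ∂ⱼ⟩` of the Riemannian metric in the chart `e`, where `∂ᵢ` is the image
of the vector `b i` under the derivative of the inverse of the chart. -/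
def gram {M : Type} [MetricSpace M] [ChartedSpace H M] [R : RiemannianSpace I M] {n : ℕ}
    (b : Fin n → E) (e : OpenPartialHomeomorph M H) (z : E) : Matrix (Fin n) (Fin n) ℝ :=
  letI := R.metric
  Matrix.of fun i j => inner ℝ (push I (e.extend I).symm z (b i)) (push I (e.extend I).symm z (b j))

/-- The Riemannian volume: the supremum, over all finite families of smooth charts `eᵢ` and
pairwise disjoint Borel sets `Sᵢ` contained in the domains of the `eᵢ`, of
`∑ᵢ ∫_{eᵢ(Sᵢ)} √(det g)`. Here `b` is the standard basis of the model vector space. -/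
def volumeOf (M : Type) [MetricSpace M] [ChartedSpace H M] [RiemannianSpace I M] [MeasureSpace E]
    {n : ℕ} (b : Fin n → E) : ℝ≥0∞ :=
  ⨆ (m : ℕ) (e : Fin m → OpenPartialHomeomorph M H) (S : Fin m → Set M)
    (_ : (∀ i, e i ∈ IsManifold.maximalAtlas I ∞ M) ∧
      (∀ i, MeasurableSet[borel M] (S i)) ∧ (∀ i, S i ⊆ (e i).source) ∧
      Pairwise fun i j => Disjoint (S i) (S j)),
    ∑ i, ∫⁻ z in (e i).extend I '' (S i), ENNReal.ofReal (Real.sqrt (gram I b (e i) z).det)

/-- The circle of length `2π`. -/
abbrev S1 : Type := AddCircle (2 * Real.pi)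

/-- `φ` identifies the circle of length `2π`, isometrically, with the boundary of `M`. -/
structure IsometricFilling {M : Type} [MetricSpace M] [ChartedSpace H M] (φ : S1 → M) : Prop where
  dist_eq : ∀ s t : S1, dist (φ s) (φ t) = dist s t
  range_eq : range φ = I.boundary M

end

/-- The area of a Riemannian surface with boundary. -/
def area (M : Type) [MetricSpace M] [ChartedSpace (EuclideanHalfSpace 2) M]
    [RiemannianSpace (𝓡∂ 2) M] : ℝ≥0∞ :=
  volumeOf (𝓡∂ 2) M fun i : Fin 2 => EuclideanSpace.single i (1 : ℝ)

end Pool.Agent.H74.Surf
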