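import Pool.Agent.H74.FAC.HP5

open MeasureTheory Set Filter Measure Manifold Bundle
open scoped ContDiff Topology ENNReal NNReal

set_option linter.unusedSectionVars false

noncomputable section

namespace Pool.Agent.H74.FAC

variable {M : Type} [MetricSpace M] [ChartedSpace HP M] [IsManifold (𝓡∂ 2) ∞ M]
  [RiemannianBundle (fun x : M => TangentSpace (𝓡∂ 2) x)]
  [IsContMDiffRiemannianBundle (𝓡∂ 2) ∞ E2 (fun x : M => TangentSpace (𝓡∂ 2) x)]

/-- derivative of the inverse of the chart -/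
def dv (e : OpenPartialHomeomorph M HP) (z v : E2) :
    TangentSpace (𝓡∂ 2) ((e.extend (𝓡∂ 2)).symm z) :=
  mfderivWithin 𝓘(ℝ, E2) (𝓡∂ 2) (e.extend (𝓡∂ 2)).symm (range (𝓡∂ 2)) z v

lemma range_eq : range (𝓡∂ 2) = {z : E2 | 0 ≤ z 0} := range_modelWithCornersEuclideanHalfSpace 2

variable {e : OpenPartialHomeomorph M HP}

lemma uniqueDiffOn_target (e : OpenPartialHomeomorph M HP) :
    UniqueDiffOn ℝ (e.extend (𝓡∂ 2)).target := by
  rw [OpenPartialHomeomorph.extend_target]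
  exact (𝓡∂ 2).uniqueDiffOn_preimage e.open_target

lemma target_mem_nhdsWithin {z : E2} (hz : z ∈ (e.extend (𝓡∂ 2)).target) :
    (e.extend (𝓡∂ 2)).target ∈ 𝓝[range (𝓡∂ 2)] z := by
  have h := (e.extend (𝓡∂ 2)).map_target hz
  rw [OpenPartialHomeomorph.extend_source] at h
  have := e.extend_target_mem_nhdsWithin (I := 𝓡∂ 2) h
  rwa [(e.extend (𝓡∂ 2)).right_inv hz] at this

lemma cmd_symm (he : e ∈ IsManifold.maximalAtlas (𝓡∂ 2) ∞ M) :
    ContMDiffOn 𝓘(ℝ, E2) (𝓡∂ 2) ∞ (e.extend (𝓡∂ 2)).symm (e.extend (𝓡∂ 2)).target := by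
  rw [OpenPartialHomeomorph.extend_target']
  exact contMDiffOn_extend_symm he

lemma dv_eq (he : e ∈ IsManifold.maximalAtlas (𝓡∂ 2) ∞ M) {z : E2}
    (hz : z ∈ (e.extend (𝓡∂ 2)).target) (v : E2) :
    dv e z v = mfderivWithin 𝓘(ℝ, E2) (𝓡∂ 2) (e.extend (𝓡∂ 2)).symm (e.extend (𝓡∂ 2)).target z v := by
  have : mfderivWithin 𝓘(ℝ, E2) (𝓡∂ 2) (e.extend (𝓡∂ 2)).symm (range (𝓡∂ 2)) z
      = mfderivWithin 𝓘(ℝ, E2) (𝓡∂ 2) (e.extend (𝓡∂ 2)).symm (e.extend (𝓡∂ 2)).target z := by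
    have h1 : MDifferentiableWithinAt 𝓘(ℝ, E2) (𝓡∂ 2) (e.extend (𝓡∂ 2)).symm
          (e.extend (𝓡∂ 2)).target z := ((cmd_symm he) z hz).mdifferentiableWithinAt (by simp)
    apply h1.mfderivWithin_mono_of_mem_nhdsWithin _ (target_mem_nhdsWithin hz)
    rw [uniqueMDiffWithinAt_iff_uniqueDiffWithinAt]
    exact (𝓡∂ 2).uniqueDiffOn z (e.extend_target_subset_range hz)
  unfold dv
  rw [this]

lemma contRiem : IsContinuousRiemannianBundle E2 (fun x : M => TangentSpace (𝓡∂ 2) x) := by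
  obtain ⟨g, g_smooth, hg⟩ := IsContMDiffRiemannianBundle.exists_contMDiff (IB := 𝓡∂ 2) (n := ∞)
    (F := E2) (E := fun x : M => TangentSpace (𝓡∂ 2) x)
  exact ⟨g, g_smooth.continuous, hg⟩

lemma continuousOn_dv (he : e ∈ IsManifold.maximalAtlas (𝓡∂ 2) ∞ M) (v : E2) :
    ContinuousOn (fun z => (⟨(e.extend (𝓡∂ 2)).symm z, dv e z v⟩ : TangentBundle (𝓡∂ 2) M))
      (e.extend (𝓡∂ 2)).target := by
  have h1 := (cmd_symm he).continuousOn_tangentMapWithin (by simp)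
    (uniqueMDiffOn_iff_uniqueDiffOn.2 (uniqueDiffOn_target e))
  have h2 : Continuous (fun z : E2 => (⟨z, v⟩ : TangentBundle 𝓘(ℝ, E2) E2)) := by
    have h := (tangentBundleModelSpaceHomeomorph 𝓘(ℝ, E2)).symm.continuous
    have h' : Continuous (fun z : E2 => ((z, v) : ModelProd E2 E2)) := by
      exact continuous_id.prodMk continuous_const
    exact h.comp h'
  have h3 := h1.comp h2.continuousOn (s := (e.extend (𝓡∂ 2)).target) (fun z hz => hz)
  refine h3.congr ?_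
  intro z hz
  simp only [Function.comp, tangentMapWithin]
  rw [dv_eq he hz]

lemma continuousOn_inner_dv (he : e ∈ IsManifold.maximalAtlas (𝓡∂ 2) ∞ M) (v w : E2) :
    ContinuousOn (fun z => inner ℝ (dv e z v) (dv e z w)) (e.extend (𝓡∂ 2)).target := by
  haveI := contRiem (M := M)
  exact ContinuousOn.inner_bundle (F := E2) (continuousOn_dv he v) (continuousOn_dv he w)

end Pool.Agent.H74.FAC
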