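import Pool.Agent.H74.FAC.Riem1

open MeasureTheory Set Filter Measure Manifold Bundle
open scoped ContDiff Topology ENNReal NNReal

set_option linter.unusedSectionVars false

noncomputable section

namespace Pool.Agent.H74.FAC

variable {M : Type} [MetricSpace M] [ChartedSpace HP M] [IsManifold (𝓡∂ 2) ∞ M]
  [RiemannianBundle (fun x : M => TangentSpace (𝓡∂ 2) x)]
  [IsContMDiffRiemannianBundle (𝓡∂ 2) ∞ E2 (fun x : M => TangentSpace (𝓡∂ 2) x)]
  [IsRiemannianManifold (𝓡∂ 2) M]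
  {e : OpenPartialHomeomorph M HP}

lemma edist_le_segment (he : e ∈ IsManifold.maximalAtlas (𝓡∂ 2) ∞ M) {a b : E2}
    (hs : segment ℝ a b ⊆ (e.extend (𝓡∂ 2)).target) :
    edist ((e.extend (𝓡∂ 2)).symm a) ((e.extend (𝓡∂ 2)).symm b)
      ≤ ∫⁻ t in Icc (0 : ℝ) 1, ‖dv e (AffineMap.lineMap a b t) (b - a)‖ₑ := by
  let η := ContinuousAffineMap.lineMap (R := ℝ) a b
  set γ := (e.extend (𝓡∂ 2)).symm ∘ η with hγ
  have hη : Icc 0 1 ⊆ ⇑η ⁻¹' ((e.extend (𝓡∂ 2)).target) := by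
    simp only [← image_subset_iff, ContinuousAffineMap.coe_lineMap_eq,
     ← segment_eq_image_lineMap, η]
    exact hs
  have η_smooth : ContMDiffOn 𝓘(ℝ, ℝ) 𝓘(ℝ, E2) 1 η (Icc 0 1) := by
    apply ContMDiff.contMDiffOn
    rw [contMDiff_iff_contDiff]
    exact ContinuousAffineMap.contDiff _
  have h1 : riemannianEDist (𝓡∂ 2) ((e.extend (𝓡∂ 2)).symm a) ((e.extend (𝓡∂ 2)).symm b)
      ≤ pathELength (𝓡∂ 2) γ 0 1 := by
    apply riemannianEDist_le_pathELength _ _ _ zero_le_one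
    · exact ((cmd_symm he).of_le (by simp)).comp η_smooth hη
    · simp [γ, η, ContinuousAffineMap.coe_lineMap_eq]
    · simp [γ, η, ContinuousAffineMap.coe_lineMap_eq]
  rw [IsRiemannianManifold.out (I := 𝓡∂ 2)]
  apply h1.trans
  rw [pathELength_eq_lintegral_mfderivWithin_Icc]
  apply setLIntegral_mono' measurableSet_Icc (fun t ht ↦ ?_)
  have h2 : mfderivWithin 𝓘(ℝ, ℝ) (𝓡∂ 2) γ (Icc 0 1) t =
      (mfderivWithin 𝓘(ℝ, E2) (𝓡∂ 2) (e.extend (𝓡∂ 2)).symm (range (𝓡∂ 2)) (η t)) ∘L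
        (mfderivWithin 𝓘(ℝ, ℝ) 𝓘(ℝ, E2) η (Icc 0 1) t) := by
    apply mfderivWithin_comp
    · have h1 : MDifferentiableWithinAt 𝓘(ℝ, E2) (𝓡∂ 2) (e.extend (𝓡∂ 2)).symm
          (e.extend (𝓡∂ 2)).target (η t) := ((cmd_symm he) _ (hη ht)).mdifferentiableWithinAt (by simp)
      exact h1.mono_of_mem_nhdsWithin (target_mem_nhdsWithin (hη ht))
    · exact η_smooth.mdifferentiableOn one_ne_zero t ht
    · exact hη.trans (preimage_mono e.extend_target_subset_range)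
    · rw [uniqueMDiffWithinAt_iff_uniqueDiffWithinAt]
      exact uniqueDiffOn_Icc zero_lt_one t ht
  have h3 : (mfderivWithin 𝓘(ℝ, ℝ) 𝓘(ℝ, E2) η (Icc 0 1) t (1 : ℝ) : E2) = b - a := by
    simp only [mfderivWithin_eq_fderivWithin]
    have : fderivWithin ℝ η (Icc 0 1) t = fderiv ℝ η t :=
      fderivWithin_eq_fderiv (uniqueDiffOn_Icc zero_lt_one _ ht)
        (ContinuousAffineMap.differentiableAt _)
    have h5 : b - a = fderiv ℝ η t 1 := by simp [η]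
    rw [h5, ← this]
    rfl
  have h4 : mfderivWithin 𝓘(ℝ, ℝ) (𝓡∂ 2) γ (Icc 0 1) t (1 : ℝ) = dv e (η t) (b - a) := by
    rw [h2]
    show (mfderivWithin 𝓘(ℝ, E2) (𝓡∂ 2) (e.extend (𝓡∂ 2)).symm (range (𝓡∂ 2)) (η t))
      (mfderivWithin 𝓘(ℝ, ℝ) 𝓘(ℝ, E2) η (Icc 0 1) t (1 : ℝ)) = _
    rw [h3]
    rfl
  have h6 : ‖mfderivWithin 𝓘(ℝ, ℝ) (𝓡∂ 2) γ (Icc 0 1) t (1 : ℝ)‖ₑ = ‖dv e (η t) (b - a)‖ₑ := by
    rw [h4]
  exact h6.le

lemma dist_le_of_bound (he : e ∈ IsManifold.maximalAtlas (𝓡∂ 2) ∞ M) {a b : E2}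
    (hs : segment ℝ a b ⊆ (e.extend (𝓡∂ 2)).target) {B : ℝ} (hB0 : 0 ≤ B)
    (hB : ∀ z ∈ segment ℝ a b, ‖dv e z (b - a)‖ ≤ B) :
    dist ((e.extend (𝓡∂ 2)).symm a) ((e.extend (𝓡∂ 2)).symm b) ≤ B := by
  have h := edist_le_segment he hs
  have h2 : ∫⁻ t in Icc (0 : ℝ) 1, ‖dv e (AffineMap.lineMap a b t) (b - a)‖ₑ
      ≤ ∫⁻ t in Icc (0 : ℝ) 1, ENNReal.ofReal B := by
    apply setLIntegral_mono' measurableSet_Icc (fun t ht ↦ ?_)
    rw [← ofReal_norm]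
    apply ENNReal.ofReal_le_ofReal
    apply hB
    rw [segment_eq_image_lineMap]
    exact ⟨t, ht, rfl⟩
  have h3 := h.trans h2
  rw [setLIntegral_const, Real.volume_Icc, sub_zero, ENNReal.ofReal_one, mul_one, edist_dist] at h3
  exact (ENNReal.ofReal_le_ofReal_iff hB0).1 h3

lemma dv_add (z v w : E2) : dv e z (v + w) = dv e z v + dv e z w := by
  unfold dv
  exact map_add _ _ _

lemma dv_smul (z v : E2) (c : ℝ) : dv e z (c • v) = c • dv e z v := by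
  unfold dv
  exact map_smul _ _ _

lemma continuousOn_norm_dv (he : e ∈ IsManifold.maximalAtlas (𝓡∂ 2) ∞ M) (v : E2) :
    ContinuousOn (fun z => ‖dv e z v‖) (e.extend (𝓡∂ 2)).target := by
  have h := (continuousOn_inner_dv he v v)
  have h2 : (fun z => ‖dv e z v‖) = fun z => Real.sqrt (inner ℝ (dv e z v) (dv e z v)) := by
    ext z
    rw [norm_eq_sqrt_real_inner]
  rw [h2]
  exact h.sqrt

lemma norm_dv_le (z v : E2) : ‖dv e z v‖ ≤ ‖v‖ * (‖dv e z (bv 0)‖ + ‖dv e z (bv 1)‖) := by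
  have e1 : v = v 0 • bv 0 + v 1 • bv 1 := by
    conv_lhs => rw [← pt_self v]
    rw [pt_eq]
  have h0 : |v 0| ≤ ‖v‖ := by
    have := abs_coord_sub_le v 0 0
    simpa using this
  have h1 : |v 1| ≤ ‖v‖ := by
    have := abs_coord_sub_le v 0 1
    simpa using this
  conv_lhs => rw [e1]
  rw [dv_add, dv_smul, dv_smul]
  calc ‖v 0 • dv e z (bv 0) + v 1 • dv e z (bv 1)‖
      ≤ ‖v 0 • dv e z (bv 0)‖ + ‖v 1 • dv e z (bv 1)‖ := norm_add_le _ _
    _ = |v 0| * ‖dv e z (bv 0)‖ + |v 1| * ‖dv e z (bv 1)‖ := by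
        rw [norm_smul, norm_smul, Real.norm_eq_abs, Real.norm_eq_abs]
    _ ≤ ‖v‖ * ‖dv e z (bv 0)‖ + ‖v‖ * ‖dv e z (bv 1)‖ := by gcongr
    _ = _ := by ring

/-- Good half balls: near any point of the target, the inverse chart is Lipschitz on a half ball. -/
lemma exists_good_ball (he : e ∈ IsManifold.maximalAtlas (𝓡∂ 2) ∞ M) {z0 : E2}
    (hz0 : z0 ∈ (e.extend (𝓡∂ 2)).target) :
    ∃ r > 0, ∃ C : ℝ≥0, (Metric.ball z0 r ∩ {z : E2 | 0 ≤ z 0} ⊆ (e.extend (𝓡∂ 2)).target) ∧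
      LipschitzOnWith C (e.extend (𝓡∂ 2)).symm (Metric.ball z0 r ∩ {z : E2 | 0 ≤ z 0}) := by
  set Φ : E2 → ℝ := fun z => ‖dv e z (bv 0)‖ + ‖dv e z (bv 1)‖ with hΦ
  have hc : ContinuousOn Φ (e.extend (𝓡∂ 2)).target :=
    (continuousOn_norm_dv he _).add (continuousOn_norm_dv he _)
  have h1 : ∀ᶠ z in 𝓝[(e.extend (𝓡∂ 2)).target] z0, Φ z < Φ z0 + 1 :=
    (hc z0 hz0).eventually_lt_const (by linarith)
  have h2 : ∀ᶠ z in 𝓝[range (𝓡∂ 2)] z0, z ∈ (e.extend (𝓡∂ 2)).target ∧ Φ z < Φ z0 + 1 := by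
    have ht := target_mem_nhdsWithin hz0
    have h3 : ∀ᶠ z in 𝓝[range (𝓡∂ 2)] z0, Φ z < Φ z0 + 1 := by
      have : 𝓝[range (𝓡∂ 2)] z0 ≤ 𝓝[(e.extend (𝓡∂ 2)).target] z0 :=
        nhdsWithin_le_of_mem ht
      exact h1.filter_mono this
    filter_upwards [ht, h3] with z h4 h5 using ⟨h4, h5⟩
  rw [range_eq] at h2
  obtain ⟨r, hr, hsub⟩ := Metric.mem_nhdsWithin_iff.1 h2
  have hconv : Convex ℝ (Metric.ball z0 r ∩ {z : E2 | 0 ≤ z 0}) := by
    apply (convex_ball _ _).inter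
    have := (𝓡∂ 2).convex_range
    rwa [range_eq] at this
  have hΦ0 : 0 ≤ Φ z0 + 1 := by positivity
  refine ⟨r, hr, ⟨Φ z0 + 1, hΦ0⟩, fun z hz => (hsub hz).1, ?_⟩
  apply LipschitzOnWith.of_dist_le_mul
  intro a ha b hb
  have hseg : segment ℝ a b ⊆ Metric.ball z0 r ∩ {z : E2 | 0 ≤ z 0} := hconv.segment_subset ha hb
  apply dist_le_of_bound he (hseg.trans fun z hz => (hsub hz).1)
  · exact mul_nonneg hΦ0 dist_nonneg
  · intro z hz
    refine (norm_dv_le z (b - a)).trans ?_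
    have h5 : Φ z ≤ Φ z0 + 1 := (hsub (hseg hz)).2.le
    rw [dist_comm, dist_eq_norm, mul_comm]
    show Φ z * ‖b - a‖ ≤ (Φ z0 + 1) * ‖b - a‖
    gcongr

/-- the derivative bound for a 1-Lipschitz function at an interior point -/
lemma fderiv_le_of_lip (he : e ∈ IsManifold.maximalAtlas (𝓡∂ 2) ∞ M) {f : M → ℝ}
    (hf : LipschitzWith 1 f) {z : E2} (hz : z ∈ (e.extend (𝓡∂ 2)).target) (hz0 : 0 < z 0) (v : E2) :
    |fderiv ℝ (fun w => f ((e.extend (𝓡∂ 2)).symm w)) z v| ≤ ‖dv e z v‖ := by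
  by_cases hd : DifferentiableAt ℝ (fun w => f ((e.extend (𝓡∂ 2)).symm w)) z
  swap
  · rw [fderiv_zero_of_not_differentiableAt hd]
    simp
    exact norm_nonneg _
  apply le_of_forall_pos_le_add
  intro ε hε
  -- neighbourhood
  have hn : ∀ᶠ w in 𝓝 z, w ∈ (e.extend (𝓡∂ 2)).target ∧ ‖dv e w v‖ < ‖dv e z v‖ + ε := by
    have h1 : range (𝓡∂ 2) ∈ 𝓝 z := by
      rw [range_eq]
      have : {w : E2 | 0 < w 0} ∈ 𝓝 z := (isOpen_lt continuous_const (continuous_coord 0)).mem_nhds hz0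
      filter_upwards [this] with w hw using le_of_lt hw
    have h2 : (e.extend (𝓡∂ 2)).target ∈ 𝓝 z := by
      have := target_mem_nhdsWithin hz
      rwa [nhdsWithin_eq_nhds.2 h1] at this
    have h3 : ∀ᶠ w in 𝓝[(e.extend (𝓡∂ 2)).target] z, ‖dv e w v‖ < ‖dv e z v‖ + ε :=
      (continuousOn_norm_dv he v z hz).eventually_lt_const (by linarith)
    rw [nhdsWithin_eq_nhds.2 h2] at h3
    filter_upwards [h2, h3] with w h4 h5 using ⟨h4, h5⟩
  obtain ⟨r, hr, hball⟩ := Metric.eventually_nhds_iff_ball.1 hn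
  have hlin : HasLineDerivAt ℝ (fun w => f ((e.extend (𝓡∂ 2)).symm w))
      (fderiv ℝ (fun w => f ((e.extend (𝓡∂ 2)).symm w)) z v) z v := hd.hasFDerivAt.hasLineDerivAt v
  have hslope := hlin.tendsto_slope_zero_right
  have hslope' := (continuous_abs.tendsto _).comp hslope
  apply le_of_tendsto hslope'
  have hev : ∀ᶠ t : ℝ in 𝓝[>] 0, t * ‖v‖ < r := by
    have : Tendsto (fun t : ℝ => t * ‖v‖) (𝓝[>] 0) (𝓝 0) := by
      have : Tendsto (fun t : ℝ => t * ‖v‖) (𝓝 0) (𝓝 (0 * ‖v‖)) := (continuous_mul_const _).tendsto 0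
      rw [zero_mul] at this
      exact this.mono_left nhdsWithin_le_nhds
    exact this.eventually_lt_const hr
  filter_upwards [hev, self_mem_nhdsWithin] with t ht (htp : 0 < t)
  have hmem : z + t • v ∈ Metric.ball z r := by
    rw [Metric.mem_ball, dist_eq_norm]
    simpa [norm_smul, abs_of_pos htp] using ht
  have hseg : segment ℝ z (z + t • v) ⊆ Metric.ball z r :=
    (convex_ball z r).segment_subset (Metric.mem_ball_self hr) hmem
  have hd1 : dist ((e.extend (𝓡∂ 2)).symm z) ((e.extend (𝓡∂ 2)).symm (z + t • v))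
      ≤ t * (‖dv e z v‖ + ε) := by
    apply dist_le_of_bound he
    · intro w hw
      exact (hball w (hseg hw)).1
    · positivity
    · intro w hw
      have : z + t • v - z = t • v := by abel
      rw [this, dv_smul, norm_smul, Real.norm_eq_abs, abs_of_pos htp]
      have := (hball w (hseg hw)).2.le
      gcongr
  have hd2 := hf.dist_le_mul ((e.extend (𝓡∂ 2)).symm z) ((e.extend (𝓡∂ 2)).symm (z + t • v))
  simp only [Function.comp, smul_eq_mul]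
  rw [abs_mul, abs_of_pos (inv_pos.2 htp)]
  rw [inv_mul_le_iff₀ htp]
  rw [NNReal.coe_one, one_mul, Real.dist_eq, abs_sub_comm] at hd2
  exact hd2.trans hd1

end Pool.Agent.H74.FAC
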