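import Pool.Agent.H74.FAC.HP2

open MeasureTheory Set Filter Measure
open scoped ContDiff Topology ENNReal NNReal

noncomputable section

namespace Pool.Agent.H74.FAC

lemma lip_of_abs {X : Type*} [PseudoMetricSpace X] {f : X → ℝ} {K : ℝ} (hK : 0 ≤ K)
    (h : ∀ x y, |f x - f y| ≤ K * dist x y) : LipschitzWith ⟨K, hK⟩ f :=
  LipschitzWith.of_dist_le_mul (fun x y => by rw [Real.dist_eq]; exact h x y)

lemma lip_abs {X : Type*} [PseudoMetricSpace X] {f : X → ℝ} {K : ℝ≥0} (h : LipschitzWith K f)
    (x y : X) : |f x - f y| ≤ K * dist x y := by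
  have := h.dist_le_mul x y
  rwa [Real.dist_eq] at this

/-- product of bounded Lipschitz functions -/
lemma lip_mul {X : Type*} [PseudoMetricSpace X] {f g : X → ℝ} {K L : ℝ≥0} {A B : ℝ}
    (hf : LipschitzWith K f) (hg : LipschitzWith L g) (hA : ∀ x, |f x| ≤ A) (hB : ∀ x, |g x| ≤ B) :
    ∃ C : ℝ≥0, LipschitzWith C (fun x => f x * g x) := by
  by_cases hX : Nonempty X
  · obtain ⟨x0⟩ := hX
    have hA0 : 0 ≤ A := (abs_nonneg _).trans (hA x0)
    have hB0 : 0 ≤ B := (abs_nonneg _).trans (hB x0)
    refine ⟨⟨A * L + B * K, by positivity⟩, lip_of_abs _ ?_⟩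
    intro x y
    have e : f x * g x - f y * g y = f x * (g x - g y) + g y * (f x - f y) := by ring
    rw [e]
    calc |f x * (g x - g y) + g y * (f x - f y)| ≤ |f x| * |g x - g y| + |g y| * |f x - f y| := by
          rw [← abs_mul, ← abs_mul]; exact abs_add_le _ _
      _ ≤ A * (L * dist x y) + B * (K * dist x y) := by
          gcongr
          · exact hA x
          · exact lip_abs hg x y
          · exact hB y
          · exact lip_abs hf x y
      _ = (A * L + B * K) * dist x y := by ring
  · refine ⟨0, fun x => ?_⟩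
    exact absurd ⟨x⟩ hX

lemma bdd_of_compact {g : E2 → ℝ} (hg : Continuous g) (h'g : HasCompactSupport g) :
    ∃ B : ℝ, ∀ x, |g x| ≤ B := by
  obtain ⟨K, hK⟩ := hg.bounded_above_of_compact_support h'g
  exact ⟨K, hK⟩

lemma slice_lip {g : E2 → ℝ} {D : ℝ≥0} (hg : LipschitzWith D g) (a : ℝ) :
    LipschitzWith D (fun s => g (pt a s)) := by
  apply LipschitzWith.of_dist_le_mul
  intro s s'
  have := hg.dist_le_mul (pt a s) (pt a s')
  rwa [dist_pt_snd] at this

lemma norm_pt_ge (a s : ℝ) : |s| ≤ ‖pt a s‖ := by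
  rw [EuclideanSpace.norm_eq]
  apply Real.abs_le_sqrt
  simp [Fin.sum_univ_two]
  positivity

lemma norm_pt_ge' (a s : ℝ) : |a| ≤ ‖pt a s‖ := by
  rw [EuclideanSpace.norm_eq]
  apply Real.abs_le_sqrt
  simp [Fin.sum_univ_two]
  positivity

/-- radius containing the support -/
lemma exists_radius {g : E2 → ℝ} (h'g : HasCompactSupport g) :
    ∃ R : ℝ, 0 < R ∧ ∀ x, R < ‖x‖ → g x = 0 := by
  obtain ⟨R, hR⟩ := h'g.isBounded.exists_norm_le
  refine ⟨max R 1, by positivity, fun x hx => ?_⟩
  by_contra h
  have := hR x (subset_tsupport _ h)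
  have := le_max_left R 1
  linarith

lemma slice_zero {g : E2 → ℝ} {R : ℝ} (hR : ∀ x, R < ‖x‖ → g x = 0) (a s : ℝ) (hs : R < |s|) :
    g (pt a s) = 0 := hR _ (hs.trans_le (norm_pt_ge a s))

lemma slice_compact {g : E2 → ℝ} {R : ℝ} (hR : ∀ x, R < ‖x‖ → g x = 0) (a : ℝ) :
    HasCompactSupport (fun s => g (pt a s)) := by
  apply HasCompactSupport.of_support_subset_isCompact (isCompact_Icc (a := -R) (b := R))
  intro s hs
  by_contra h
  apply hs
  apply slice_zero hR
  rw [mem_Icc, ← abs_le] at h
  exact not_le.mp h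

lemma slice_deriv_bound {g : E2 → ℝ} {D : ℝ≥0} (hg : LipschitzWith D g) (a s : ℝ) :
    |deriv (fun s => g (pt a s)) s| ≤ D := by
  have := norm_deriv_le_of_lipschitz (x₀ := s) (slice_lip hg a)
  simpa using this

def G (f g : E2 → ℝ) (a : ℝ) : ℝ := ∫ s, f (pt a s) * deriv (fun s => g (pt a s)) s

lemma integrable_mul_deriv {u v : ℝ → ℝ} {D : ℝ≥0} (hu : Continuous u) (h'u : HasCompactSupport u)
    (hv : LipschitzWith D v) : Integrable (fun s => u s * deriv v s) := by
  refine (hu.integrable_of_hasCompactSupport h'u).mul_bdd (c := (D : ℝ)) ?_ ?_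
  · exact (measurable_deriv v).aestronglyMeasurable
  · filter_upwards with s
    exact norm_deriv_le_of_lipschitz hv

lemma abs_integral_le {F : ℝ → ℝ} {R K : ℝ} (hR : 0 < R) (h0 : ∀ s, R < |s| → F s = 0)
    (hK : ∀ s, |F s| ≤ K) : |∫ s, F s| ≤ K * (2 * R) := by
  have h1 : ∫ s in Icc (-R) R, F s = ∫ s, F s := by
    apply setIntegral_eq_integral_of_forall_compl_eq_zero
    intro s hs
    apply h0
    rw [mem_Icc, ← abs_le] at hs
    exact not_le.mp hs
  rw [← h1]
  have := norm_setIntegral_le_of_norm_le_const (μ := volume) (s := Icc (-R) R) (f := F) (C := K)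
    (by simp) (fun s _ => by simpa using hK s)
  rw [Real.norm_eq_abs] at this
  refine this.trans (le_of_eq ?_)
  rw [Measure.real, Real.volume_Icc, ENNReal.toReal_ofReal (by linarith)]
  ring

lemma integrable_deriv_mul {u v : ℝ → ℝ} {C : ℝ≥0} (hu : LipschitzWith C u) (h'u : HasCompactSupport u)
    (hv : Continuous v) : Integrable (fun s => deriv u s * v s) := by
  have hd : Integrable (fun s => deriv u s) := by
    have := integrable_lineDeriv (μ := (volume : Measure ℝ)) hu h'u 1
    have e : ∀ (w : ℝ → ℝ) (x : ℝ), lineDeriv ℝ w x 1 = deriv w x := by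
      intro w x
      simp only [lineDeriv, smul_eq_mul, mul_one]
      have := deriv_comp_const_add (f := w) x 0
      simpa using this
    simpa only [e] using this
  obtain ⟨R, hR⟩ := h'u.isBounded.exists_norm_le
  obtain ⟨B, hB⟩ := (isCompact_closedBall (0 : ℝ) R).exists_bound_of_continuousOn hv.continuousOn
  have e : (fun s => deriv u s * v s)
      = fun s => deriv u s * ((Metric.closedBall (0 : ℝ) R).indicator v s) := by
    ext s
    by_cases hs : s ∈ Metric.closedBall (0 : ℝ) R
    · rw [indicator_of_mem hs]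
    · have : s ∉ tsupport u := by
        intro h
        apply hs
        simpa using hR s h
      have hz : deriv u s = 0 := by
        have h : u =ᶠ[𝓝 s] fun _ => 0 := notMem_tsupport_iff_eventuallyEq.mp this
        rw [h.deriv_eq]
        simp
      rw [hz]
      simp
  rw [e]
  refine hd.mul_bdd (c := max B 0) ?_ ?_
  · exact hv.aestronglyMeasurable.indicator Metric.isClosed_closedBall.measurableSet
  · filter_upwards with s
    by_cases hs : s ∈ Metric.closedBall (0 : ℝ) R
    · rw [indicator_of_mem hs]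
      exact (hB s hs).trans (le_max_left _ _)
    · rw [indicator_of_notMem hs, norm_zero]
      exact le_max_right _ _

lemma G_sub {f g : E2 → ℝ} {C D : ℝ≥0} (hf : LipschitzWith C f) (h'f : HasCompactSupport f)
    (hg : LipschitzWith D g) : ∃ K : ℝ, 0 ≤ K ∧ ∀ a, |G f g a - G f g 0| ≤ K * |a| := by
  obtain ⟨R, hR0, hR⟩ := exists_radius h'f
  refine ⟨C * D * (2 * R) + C * D * (2 * R), by positivity, fun a => ?_⟩
  set u := fun s => f (pt a s) with hu_def
  set u0 := fun s => f (pt 0 s) with hu0_def
  set v := fun s => g (pt a s) with hv_def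
  set v0 := fun s => g (pt 0 s) with hv0_def
  have hu : LipschitzWith C u := slice_lip hf a
  have hu0 : LipschitzWith C u0 := slice_lip hf 0
  have hv : LipschitzWith D v := slice_lip hg a
  have hv0 : LipschitzWith D v0 := slice_lip hg 0
  have cu : HasCompactSupport u := slice_compact hR a
  have cu0 : HasCompactSupport u0 := slice_compact hR 0
  have i1 := integrable_mul_deriv hu.continuous cu hv
  have i2 := integrable_mul_deriv hu0.continuous cu0 hv0
  have i3 := integrable_mul_deriv hu0.continuous cu0 hv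
  have e : G f g a - G f g 0 = (∫ s, (u s - u0 s) * deriv v s)
      + ((∫ s, u0 s * deriv v s) - ∫ s, u0 s * deriv v0 s) := by
    have : (∫ s, (u s - u0 s) * deriv v s) = (∫ s, u s * deriv v s) - ∫ s, u0 s * deriv v s := by
      rw [← integral_sub i1 i3]
      congr 1
      ext s
      ring
    rw [this]
    simp only [G]
    ring
  have e2 : (∫ s, u0 s * deriv v s) - ∫ s, u0 s * deriv v0 s
      = - ∫ s, deriv u0 s * (v s - v0 s) := by
    have h1 := ibp_one hv hu0 cu0
    have h2 := ibp_one hv0 hu0 cu0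
    have j1 : Integrable (fun s => deriv u0 s * v s) := integrable_deriv_mul hu0 cu0 hv.continuous
    have j2 : Integrable (fun s => deriv u0 s * v0 s) := integrable_deriv_mul hu0 cu0 hv0.continuous
    simp_rw [mul_comm (deriv v _)] at h1
    simp_rw [mul_comm (deriv v0 _)] at h2
    rw [h1, h2]
    simp_rw [mul_sub]
    rw [integral_sub j1 j2]
    ring
  rw [e, e2]
  have b1 : |∫ s, (u s - u0 s) * deriv v s| ≤ (C * |a| * D) * (2 * R) := by
    apply abs_integral_le hR0
    · intro s hs
      simp only [u, u0]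
      rw [slice_zero hR a s hs, slice_zero hR 0 s hs]
      simp
    · intro s
      rw [abs_mul]
      apply mul_le_mul _ (slice_deriv_bound hg a s) (abs_nonneg _) (by positivity)
      have := lip_abs hf (pt a s) (pt 0 s)
      rw [dist_pt_fst, sub_zero] at this
      exact this
  have b2 : |∫ s, deriv u0 s * (v s - v0 s)| ≤ (C * (D * |a|)) * (2 * R) := by
    apply abs_integral_le hR0
    · intro s hs
      have : deriv u0 s = 0 := by
        have h : u0 =ᶠ[𝓝 s] fun _ => 0 := by
          have : {s : ℝ | R < |s|} ∈ 𝓝 s := (isOpen_lt continuous_const continuous_abs).mem_nhds hs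
          filter_upwards [this] with r hr
          exact slice_zero hR 0 r hr
        rw [h.deriv_eq]
        simp
      rw [this]
      simp
    · intro s
      rw [abs_mul]
      apply mul_le_mul (slice_deriv_bound hf 0 s) _ (abs_nonneg _) (by positivity)
      have := lip_abs hg (pt a s) (pt 0 s)
      rw [dist_pt_fst, sub_zero] at this
      exact this
  calc |(∫ s, (u s - u0 s) * deriv v s) + -∫ s, deriv u0 s * (v s - v0 s)|
      ≤ |∫ s, (u s - u0 s) * deriv v s| + |-∫ s, deriv u0 s * (v s - v0 s)| := abs_add_le _ _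
    _ ≤ (C * |a| * D) * (2 * R) + (C * (D * |a|)) * (2 * R) := by
        rw [abs_neg]
        exact add_le_add b1 b2
    _ = _ := by ring

end Pool.Agent.H74.FAC
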