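import Pool.Agent.H74.FAC.Geo

open MeasureTheory Set Filter Measure Manifold Bundle
open scoped ContDiff Topology ENNReal NNReal

set_option linter.unusedSectionVars false
set_option linter.style.haveILetI false

noncomputable section

namespace Pool.Agent.H74.FAC

variable {M : Type} [MetricSpace M] [ChartedSpace HP M] [IsManifold (𝓡∂ 2) ∞ M] [CompactSpace M]
  [RiemannianBundle (fun x : M => TangentSpace (𝓡∂ 2) x)]
  [IsContMDiffRiemannianBundle (𝓡∂ 2) ∞ E2 (fun x : M => TangentSpace (𝓡∂ 2) x)]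
  [IsRiemannianManifold (𝓡∂ 2) M]

lemma gram_det (e : OpenPartialHomeomorph M HP) (z : E2) :
    (gram e z).det = inner ℝ (dv e z (bv 0)) (dv e z (bv 0)) * inner ℝ (dv e z (bv 1)) (dv e z (bv 1))
      - inner ℝ (dv e z (bv 0)) (dv e z (bv 1)) * inner ℝ (dv e z (bv 0)) (dv e z (bv 1)) := by
  rw [Matrix.det_fin_two]
  have h : gram e z 1 0 = gram e z 0 1 := by
    simp only [gram, Matrix.of_apply]
    exact real_inner_comm _ _
  rw [h]
  rfl

/-- the pointwise comass inequality in a chart -/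
lemma pointwise {e : OpenPartialHomeomorph M HP} (he : e ∈ IsManifold.maximalAtlas (𝓡∂ 2) ∞ M)
    {ι : Type*} {f : ι → M → ℝ} (hf : ∀ i, LipschitzWith 1 (f i)) {z : E2}
    (hz : z ∈ (e.extend (𝓡∂ 2)).target) (hz0 : 0 < z 0) :
    ∃ X Y : ι → ℝ, (∀ i, X i ^ 2 + Y i ^ 2 ≤ 1) ∧
      ∀ i j, Jc e (f j) (f i) z = Real.sqrt (gram e z).det * (X j * Y i - Y j * X i) := by
  have key := comass_algebra (ι := ι) (E := inner ℝ (dv e z (bv 0)) (dv e z (bv 0)))
    (F := inner ℝ (dv e z (bv 0)) (dv e z (bv 1))) (G := inner ℝ (dv e z (bv 1)) (dv e z (bv 1)))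
    (p := fun i => fderiv ℝ (fun y => f i ((e.extend (𝓡∂ 2)).symm y)) z (bv 0))
    (q := fun i => fderiv ℝ (fun y => f i ((e.extend (𝓡∂ 2)).symm y)) z (bv 1))
  have hq : ∀ α β : ℝ, α ^ 2 * inner ℝ (dv e z (bv 0)) (dv e z (bv 0))
      + 2 * (α * β) * inner ℝ (dv e z (bv 0)) (dv e z (bv 1))
      + β ^ 2 * inner ℝ (dv e z (bv 1)) (dv e z (bv 1)) = ‖dv e z (α • bv 0 + β • bv 1)‖ ^ 2 := by
    intro α β
    rw [← real_inner_self_eq_norm_sq, dv_add, dv_smul, dv_smul]
    simp only [inner_add_left, inner_add_right, real_inner_smul_left, real_inner_smul_right]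
    rw [real_inner_comm (dv e z (bv 0)) (dv e z (bv 1))]
    ring
  obtain ⟨X, Y, h1, h2⟩ := key (fun α β => by rw [hq]; positivity) (fun i α β => by
    rw [hq, ← sq_abs]
    have h3 := fderiv_le_of_lip he (hf i) hz hz0 (α • bv 0 + β • bv 1)
    rw [map_add, map_smul, map_smul, smul_eq_mul, smul_eq_mul] at h3
    exact pow_le_pow_left₀ (abs_nonneg _) h3 2)
  refine ⟨X, Y, h1, fun i j => ?_⟩
  rw [gram_det]
  exact h2 i j

/-- composition with a `C¹` function is Lipschitz -/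
lemma lip_comp {N : ℕ} {f : Fin N → M → ℝ} (hf : ∀ i, LipschitzWith 1 (f i))
    {b : (Fin N → ℝ) → ℝ} (hb : ContDiff ℝ 1 b) :
    ∃ C : ℝ≥0, LipschitzWith C (fun x => b (fun k => f k x)) := by
  have hF : LipschitzWith 1 (fun x => (fun k => f k x : Fin N → ℝ)) := by
    apply LipschitzWith.of_dist_le_mul
    intro x y
    rw [NNReal.coe_one, one_mul, dist_pi_le_iff dist_nonneg]
    intro i
    simpa using (hf i).dist_le_mul x y
  obtain ⟨R, hR⟩ : ∃ R, ∀ x, (fun k => f k x : Fin N → ℝ) ∈ Metric.closedBall (0 : Fin N → ℝ) R := by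
    obtain ⟨R, hR⟩ := isCompact_univ.exists_bound_of_continuousOn hF.continuous.continuousOn
    exact ⟨R, fun x => by simpa using hR x (mem_univ x)⟩
  obtain ⟨C, hC⟩ := (isCompact_closedBall (0 : Fin N → ℝ) R).exists_bound_of_continuousOn
    (hb.continuous_fderiv (by simp)).continuousOn
  have hL : LipschitzOnWith (max C 0).toNNReal b (Metric.closedBall (0 : Fin N → ℝ) R) := by
    apply (convex_closedBall (0 : Fin N → ℝ) R).lipschitzOnWith_of_nnnorm_fderiv_le (𝕜 := ℝ)
    · intro x _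
      exact (hb.differentiable (by simp)).differentiableAt
    · intro x hx
      rw [← NNReal.coe_le_coe, coe_nnnorm, Real.coe_toNNReal _ (le_max_right _ _)]
      exact (hC x hx).trans (le_max_left _ _)
  refine ⟨(max C 0).toNNReal * 1, ?_⟩
  have := hL.comp (hF.lipschitzOnWith (s := univ)) (fun x _ => hR x)
  rw [lipschitzOnWith_univ] at this
  exact this

/-- chain rule for the Jacobian -/
lemma Jc_comp {e : OpenPartialHomeomorph M HP} {N : ℕ} {f : Fin N → M → ℝ}
    {b : (Fin N → ℝ) → ℝ} (hb : ContDiff ℝ 1 b) (w : M → ℝ) {z : E2}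
    (hd : ∀ i, DifferentiableAt ℝ (fun y => f i ((e.extend (𝓡∂ 2)).symm y)) z) :
    Jc e (fun x => b (fun k => f k x)) w z
      = ∑ j, fderiv ℝ b (fun k => f k ((e.extend (𝓡∂ 2)).symm z)) (Pi.single j 1) * Jc e (f j) w z := by
  set Φ : E2 → (Fin N → ℝ) := fun y k => f k ((e.extend (𝓡∂ 2)).symm y) with hΦ
  have hΦd : HasFDerivAt Φ (ContinuousLinearMap.pi fun k =>
      fderiv ℝ (fun y => f k ((e.extend (𝓡∂ 2)).symm y)) z) z := by
    rw [hasFDerivAt_pi]
    intro k
    exact (hd k).hasFDerivAt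
  have hbd : HasFDerivAt b (fderiv ℝ b (Φ z)) (Φ z) :=
    (hb.differentiable (by simp)).differentiableAt.hasFDerivAt
  have hcomp := hbd.comp z hΦd
  have hv : ∀ v : E2, fderiv ℝ (fun y => b (fun k => f k ((e.extend (𝓡∂ 2)).symm y))) z v
      = ∑ j, fderiv ℝ b (Φ z) (Pi.single j 1) *
        fderiv ℝ (fun y => f j ((e.extend (𝓡∂ 2)).symm y)) z v := by
    intro v
    have h1 : fderiv ℝ (fun y => b (fun k => f k ((e.extend (𝓡∂ 2)).symm y))) z
        = (fderiv ℝ b (Φ z)).comp (ContinuousLinearMap.pi fun k =>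
      fderiv ℝ (fun y => f k ((e.extend (𝓡∂ 2)).symm y)) z) := hcomp.fderiv
    rw [h1, ContinuousLinearMap.comp_apply]
    set V : Fin N → ℝ := (ContinuousLinearMap.pi fun k =>
      fderiv ℝ (fun y => f k ((e.extend (𝓡∂ 2)).symm y)) z) v with hV
    have hVs : V = ∑ j, V j • (Pi.single j (1 : ℝ) : Fin N → ℝ) := by
      ext i
      simp [Finset.sum_apply, Pi.single_apply]
    rw [hVs, _root_.map_sum]
    apply Finset.sum_congr rfl
    intro j _
    rw [map_smul, smul_eq_mul, mul_comm]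
    rfl
  unfold Jc
  rw [hv, hv]
  simp only [Finset.sum_mul, mul_sub, Finset.sum_sub_distrib]
  congr 1
  · apply Finset.sum_congr rfl
    intro j _
    ring
  · apply Finset.sum_congr rfl
    intro j _
    ring

/-- **The calibration inequality.** -/
theorem area_ge (ho : Orientable M) {φ : S1 → M} (hφ : IsometricFilling φ) {N : ℕ}
    {f : Fin N → M → ℝ} (hf : ∀ i, LipschitzWith 1 (f i))
    {b : Fin N → (Fin N → ℝ) → ℝ} (hb : ∀ i, ContDiff ℝ 1 (b i))
    (hcomass : ∀ x : M, ∀ X Y : Fin N → ℝ, (∀ i, X i ^ 2 + Y i ^ 2 ≤ 1) →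
      |∑ i, ∑ j, fderiv ℝ (b i) (fun k => f k x) (Pi.single j 1) * (X j * Y i - Y j * X i)| ≤ 1) :
    ENNReal.ofReal |∑ i, bint φ (fun x => b i (fun k => f k x)) (f i)| ≤ area M := by
  obtain ⟨A⟩ := exists_cov ho
  obtain ⟨m, hm, hst⟩ := A.stokes hφ
  choose C hC using fun i => lip_comp hf (hb i)
  have h1 : |∑ i, bint φ (fun x => b i (fun k => f k x)) (f i)|
      = |∑ i, A.B (fun x => b i (fun k => f k x)) (f i)| := by
    have : ∑ i, A.B (fun x => b i (fun k => f k x)) (f i)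
        = m * ∑ i, bint φ (fun x => b i (fun k => f k x)) (f i) := by
      rw [Finset.mul_sum]
      apply Finset.sum_congr rfl
      intro i _
      exact hst _ _ (C i) 1 (hC i) (hf i)
    rw [this, abs_mul]
    have : |m| = 1 := by
      rcases hm with h | h <;> rw [h] <;> simp
    rw [this, one_mul]
  rw [h1]
  -- the integrand
  set g : Fin A.n → E2 → ℝ := fun k z =>
    ∑ i, Jc (A.P k).e (fun x => b i (fun k => f k x)) (f i) z with hg
  have hI : ∀ k, ∀ i, IntegrableOn (Jc (A.P k).e (fun x => b i (fun k => f k x)) (f i))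
      ((A.P k).e.extend (𝓡∂ 2) '' (A.S k)) := fun k i =>
    Patch.integrableOn_Jc (hC i) (hf i) (A.S_meas k) (A.S_sub k)
  have h2 : ∑ i, A.B (fun x => b i (fun k => f k x)) (f i)
      = ∑ k, ∫ z in (A.P k).e.extend (𝓡∂ 2) '' (A.S k), g k z := by
    unfold Cov.B
    rw [Finset.sum_comm]
    apply Finset.sum_congr rfl
    intro k _
    rw [← integral_finsetSum]
    intro i _
    exact hI k i
  have hms : ∀ k, MeasurableSet ((A.P k).e.extend (𝓡∂ 2) '' (A.S k)) := fun k =>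
    meas_image (A.S_meas k) ((A.S_sub k).trans (A.P k).V_sub)
  have h3 : ∀ k, ENNReal.ofReal |∫ z in (A.P k).e.extend (𝓡∂ 2) '' (A.S k), g k z|
      ≤ ∫⁻ z in (A.P k).e.extend (𝓡∂ 2) '' (A.S k),
        ENNReal.ofReal (Real.sqrt (gram (A.P k).e z).det) := by
    intro k
    have hle : ENNReal.ofReal |∫ z in (A.P k).e.extend (𝓡∂ 2) '' (A.S k), g k z|
        ≤ ∫⁻ z in (A.P k).e.extend (𝓡∂ 2) '' (A.S k), ENNReal.ofReal |g k z| := by
      have := enorm_integral_le_lintegral_enorm (μ := volume.restrict ((A.P k).e.extend (𝓡∂ 2) '' (A.S k))) (g k)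
      simpa only [← ofReal_norm, Real.norm_eq_abs] using this
    refine hle.trans ?_
    apply setLIntegral_mono_ae' (hms k)
    have hae : ∀ᵐ z, ∀ i, z ∈ (A.P k).O →
        DifferentiableAt ℝ (fun y => f i (((A.P k).e.extend (𝓡∂ 2)).symm y)) z :=
      ae_all_iff.2 fun i => ((A.P k).cut (hf i)).diff
    filter_upwards [hae, Patch.image_ae (P := A.P k) (A.S_sub k)] with z h4 h5 h6
    have hO := h5 h6
    have hd := fun i => h4 i hO
    apply ENNReal.ofReal_le_ofReal
    have htar : z ∈ ((A.P k).e.extend (𝓡∂ 2)).target := (A.P k).sub ((A.P k).O_sub_D hO)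
    obtain ⟨X, Y, hXY, hJ⟩ := pointwise (A.P k).he hf htar hO.2
    have hgz : g k z = Real.sqrt (gram (A.P k).e z).det *
        ∑ i, ∑ j, fderiv ℝ (b i) (fun l => f l (((A.P k).e.extend (𝓡∂ 2)).symm z)) (Pi.single j 1) *
          (X j * Y i - Y j * X i) := by
      simp only [hg]
      rw [Finset.mul_sum]
      apply Finset.sum_congr rfl
      intro i _
      rw [Jc_comp (hb i) (f i) hd, Finset.mul_sum]
      apply Finset.sum_congr rfl
      intro j _
      rw [hJ i j]
      ring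
    rw [hgz, abs_mul, abs_of_nonneg (Real.sqrt_nonneg _)]
    exact mul_le_of_le_one_right (Real.sqrt_nonneg _) (hcomass _ X Y hXY)
  rw [h2]
  calc ENNReal.ofReal |∑ k, ∫ z in (A.P k).e.extend (𝓡∂ 2) '' (A.S k), g k z|
      ≤ ENNReal.ofReal (∑ k, |∫ z in (A.P k).e.extend (𝓡∂ 2) '' (A.S k), g k z|) :=
        ENNReal.ofReal_le_ofReal (Finset.abs_sum_le_sum_abs _ _)
    _ = ∑ k, ENNReal.ofReal |∫ z in (A.P k).e.extend (𝓡∂ 2) '' (A.S k), g k z| :=
        ENNReal.ofReal_sum_of_nonneg (fun _ _ => abs_nonneg _)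
    _ ≤ ∑ k, ∫⁻ z in (A.P k).e.extend (𝓡∂ 2) '' (A.S k),
        ENNReal.ofReal (Real.sqrt (gram (A.P k).e z).det) := Finset.sum_le_sum fun k _ => h3 k
    _ ≤ area M := by
        unfold area
        refine le_iSup_of_le A.n (le_iSup_of_le (fun k => (A.P k).e) (le_iSup_of_le A.S
          (le_iSup_of_le ⟨fun k => (A.P k).he, A.S_meas, fun k => (A.S_sub k).trans (A.P k).V_sub,
            A.S_disj⟩ le_rfl)))

end Pool.Agent.H74.FAC
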