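import Pool.Agent.H74.FAC.Chg

open MeasureTheory Set Filter Measure Manifold Bundle
open scoped ContDiff Topology ENNReal NNReal

set_option linter.unusedSectionVars false
set_option linter.style.haveILetI false

noncomputable section

namespace Pool.Agent.H74.FAC

variable {M : Type} [MetricSpace M] [ChartedSpace HP M] [IsManifold (𝓡∂ 2) ∞ M] [CompactSpace M]
  {e e' : OpenPartialHomeomorph M HP}

lemma meas_image {S : Set M} (hS : MeasurableSet[borel M] S) (hsub : S ⊆ e.source) :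
    MeasurableSet (e.extend (𝓡∂ 2) '' S) := by
  letI : MeasurableSpace M := borel M
  haveI : BorelSpace M := ⟨rfl⟩
  haveI : SecondCountableTopology M := EMetric.secondCountable_of_sigmaCompact M
  haveI : PolishSpace M := inferInstance
  apply MeasurableSet.image_of_continuousOn_injOn hS
  · exact e.continuousOn_extend.mono (by rwa [OpenPartialHomeomorph.extend_source])
  · have := (e.extend (𝓡∂ 2)).injOn
    rw [OpenPartialHomeomorph.extend_source] at this
    exact this.mono hsub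

/-- interior part -/
def innerPart (e : OpenPartialHomeomorph M HP) (S : Set M) : Set M :=
  {x ∈ S | 0 < (e.extend (𝓡∂ 2) x) 0}

lemma innerPart_sub (S : Set M) : innerPart e S ⊆ S := fun _ hx => hx.1

lemma meas_innerPart {S : Set M} (hS : MeasurableSet[borel M] S) (hsub : S ⊆ e.source) :
    MeasurableSet[borel M] (innerPart e S) := by
  letI : MeasurableSpace M := borel M
  haveI : BorelSpace M := ⟨rfl⟩
  have h1 : IsOpen ((e.extend (𝓡∂ 2)).source ∩ (e.extend (𝓡∂ 2)) ⁻¹' {z : E2 | 0 < z 0}) :=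
    e.isOpen_extend_preimage' (isOpen_lt continuous_const (continuous_coord 0))
  have h2 : innerPart e S = S ∩ ((e.extend (𝓡∂ 2)).source ∩ (e.extend (𝓡∂ 2)) ⁻¹' {z : E2 | 0 < z 0}) := by
    ext x
    constructor
    · intro hx
      refine ⟨hx.1, ?_, hx.2⟩
      rw [OpenPartialHomeomorph.extend_source]
      exact hsub hx.1
    · intro hx
      exact ⟨hx.1, hx.2.2⟩
  rw [h2]
  exact hS.inter h1.measurableSet

lemma innerPart_eq (he : e ∈ IsManifold.maximalAtlas (𝓡∂ 2) ∞ M)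
    (he' : e' ∈ IsManifold.maximalAtlas (𝓡∂ 2) ∞ M) {S : Set M} (h1 : S ⊆ e.source)
    (h2 : S ⊆ e'.source) : innerPart e S = innerPart e' S := by
  ext x
  constructor
  · intro hx
    exact ⟨hx.1, pos_of_pos he he' (h1 hx.1) (h2 hx.1) hx.2⟩
  · intro hx
    exact ⟨hx.1, pos_of_pos he' he (h2 hx.1) (h1 hx.1) hx.2⟩

lemma ext_nonneg (e : OpenPartialHomeomorph M HP) (x : M) : 0 ≤ (e.extend (𝓡∂ 2) x) 0 := by
  have : e.extend (𝓡∂ 2) x ∈ range (𝓡∂ 2) := mem_range_self _
  rw [range_eq] at this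
  exact this

lemma innerPart_ae (S : Set M) :
    (e.extend (𝓡∂ 2) '' S : Set E2) =ᵐ[volume] (e.extend (𝓡∂ 2) '' (innerPart e S) : Set E2) := by
  filter_upwards [null_line 0] with z hz
  apply propext
  constructor
  · rintro ⟨x, hx, rfl⟩
    exact ⟨x, ⟨hx, lt_of_le_of_ne (ext_nonneg e x) (Ne.symm hz)⟩, rfl⟩
  · rintro ⟨x, hx, rfl⟩
    exact ⟨x, hx.1, rfl⟩

/-- positivity of the coordinate change -/
def PosCC (e e' : OpenPartialHomeomorph M HP) : Prop :=
  ∀ x ∈ e.source ∩ e'.source,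
      0 < (fderivWithin ℝ (e'.extend (𝓡∂ 2) ∘ (e.extend (𝓡∂ 2)).symm) (range (𝓡∂ 2))
        (e.extend (𝓡∂ 2) x)).det

lemma range_nhds {z : E2} (h : 0 < z 0) : range (𝓡∂ 2) ∈ 𝓝 z := by
  rw [range_eq]
  have : {w : E2 | 0 < w 0} ∈ 𝓝 z := (isOpen_lt continuous_const (continuous_coord 0)).mem_nhds h
  filter_upwards [this] with w hw using le_of_lt hw

lemma cc_det_pos (hp : PosCC e e') {x : M} (hex : x ∈ e.source) (hex' : x ∈ e'.source)
    (h : 0 < (e.extend (𝓡∂ 2) x) 0) : 0 < (fderiv ℝ (cc e e') (e.extend (𝓡∂ 2) x)).det := by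
  have h1 := hp x ⟨hex, hex'⟩
  rw [fderivWithin_of_mem_nhds (range_nhds h)] at h1
  exact h1

lemma int_transfer_inner (he : e ∈ IsManifold.maximalAtlas (𝓡∂ 2) ∞ M)
    (he' : e' ∈ IsManifold.maximalAtlas (𝓡∂ 2) ∞ M) (hp : PosCC e e') {S : Set M}
    (hS : MeasurableSet[borel M] S) (h1 : S ⊆ e.source) (h2 : S ⊆ e'.source) (u w : M → ℝ) :
    ∫ z in e'.extend (𝓡∂ 2) '' (innerPart e S), Jc e' u w z
      = ∫ z in e.extend (𝓡∂ 2) '' (innerPart e S), Jc e u w z := by
  have hm : MeasurableSet (e.extend (𝓡∂ 2) '' (innerPart e S)) :=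
    meas_image (meas_innerPart hS h1) ((innerPart_sub S).trans h1)
  have him : e'.extend (𝓡∂ 2) '' (innerPart e S)
      = cc e e' '' (e.extend (𝓡∂ 2) '' (innerPart e S)) := by
    rw [image_image]
    apply image_congr
    intro x hx
    rw [cc_apply (h1 hx.1)]
  rw [him]
  rw [integral_image_eq_integral_abs_det_fderiv_smul volume hm
    (f' := fun z => fderiv ℝ (cc e e') z)]
  · apply setIntegral_congr_fun hm
    rintro z ⟨x, hx, rfl⟩
    simp only [smul_eq_mul]
    rw [abs_of_pos (cc_det_pos hp (h1 hx.1) (h2 hx.1) hx.2), cc_apply (h1 hx.1),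
      Jc_transfer he he' u w (h1 hx.1) (h2 hx.1) hx.2]
  · rintro z ⟨x, hx, rfl⟩
    exact (cc_hasFDerivAt he he' (h1 hx.1) (h2 hx.1) hx.2).hasFDerivAt.hasFDerivWithinAt
  · rintro z ⟨x, hx, rfl⟩ z' ⟨x', hx', rfl⟩ h
    rw [cc_apply (h1 hx.1), cc_apply (h1 hx'.1)] at h
    have hinj := (e'.extend (𝓡∂ 2)).injOn
    rw [OpenPartialHomeomorph.extend_source] at hinj
    rw [hinj (h2 hx.1) (h2 hx'.1) h]

/-- **change of charts for the integral of the Jacobian** -/
theorem int_transfer (he : e ∈ IsManifold.maximalAtlas (𝓡∂ 2) ∞ M)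
    (he' : e' ∈ IsManifold.maximalAtlas (𝓡∂ 2) ∞ M) (hp : PosCC e e') {S : Set M}
    (hS : MeasurableSet[borel M] S) (h1 : S ⊆ e.source) (h2 : S ⊆ e'.source) (u w : M → ℝ) :
    ∫ z in e'.extend (𝓡∂ 2) '' S, Jc e' u w z = ∫ z in e.extend (𝓡∂ 2) '' S, Jc e u w z := by
  rw [setIntegral_congr_set (innerPart_ae (e := e') S), setIntegral_congr_set (innerPart_ae (e := e) S),
    ← innerPart_eq he he' h1 h2]
  exact int_transfer_inner he he' hp hS h1 h2 u w

end Pool.Agent.H74.FAC
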