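import Pool.Agent.H74.FAC.Riem2

open MeasureTheory Set Filter Measure Manifold Bundle
open scoped ContDiff Topology ENNReal NNReal

set_option linter.unusedSectionVars false

noncomputable section

namespace Pool.Agent.H74.FAC

variable {M : Type} [MetricSpace M] [ChartedSpace HP M] [IsManifold (𝓡∂ 2) ∞ M]
  {e e' : OpenPartialHomeomorph M HP}

lemma interior_range : interior (range (𝓡∂ 2)) = {z : E2 | 0 < z 0} :=
  interior_range_modelWithCornersEuclideanHalfSpace 2

lemma mem_interior_target_iff (e : OpenPartialHomeomorph M HP) {x : M} (hx : x ∈ e.source) :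
    e.extend (𝓡∂ 2) x ∈ interior (e.extend (𝓡∂ 2)).target ↔ 0 < (e.extend (𝓡∂ 2) x) 0 := by
  constructor
  · intro h
    have := e.interior_extend_target_subset_interior_range h
    rw [interior_range] at this
    exact this
  · intro h
    apply e.mem_interior_extend_target (I := 𝓡∂ 2) (y := e x) (by simpa using e.map_source hx)
    rw [interior_range]
    exact h

lemma ext_left_inv {x : M} (hx : x ∈ e.source) :
    (e.extend (𝓡∂ 2)).symm (e.extend (𝓡∂ 2) x) = x := e.extend_left_inv hx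

lemma ext_mem_target {x : M} (hx : x ∈ e.source) :
    e.extend (𝓡∂ 2) x ∈ (e.extend (𝓡∂ 2)).target :=
  (e.extend (𝓡∂ 2)).map_source (by rwa [OpenPartialHomeomorph.extend_source])

lemma symm_mem_source {z : E2} (hz : z ∈ (e.extend (𝓡∂ 2)).target) :
    (e.extend (𝓡∂ 2)).symm z ∈ e.source := by
  have := (e.extend (𝓡∂ 2)).map_target hz
  rwa [OpenPartialHomeomorph.extend_source] at this

lemma mem_cc_source {x : M} (hex : x ∈ e.source) (hex' : x ∈ e'.source) :
    e.extend (𝓡∂ 2) x ∈ ((𝓡∂ 2).extendCoordChange e e').source := by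
  show e.extend (𝓡∂ 2) x ∈ ((e.extend (𝓡∂ 2)).symm.trans (e'.extend (𝓡∂ 2))).source
  rw [PartialEquiv.trans_source]
  refine ⟨ext_mem_target hex, ?_⟩
  rw [mem_preimage, ext_left_inv hex, OpenPartialHomeomorph.extend_source]
  exact hex'

lemma pos_of_pos (he : e ∈ IsManifold.maximalAtlas (𝓡∂ 2) ∞ M)
    (he' : e' ∈ IsManifold.maximalAtlas (𝓡∂ 2) ∞ M) {x : M} (hex : x ∈ e.source)
    (hex' : x ∈ e'.source) (h : 0 < (e.extend (𝓡∂ 2) x) 0) : 0 < (e'.extend (𝓡∂ 2) x) 0 := by
  rw [← mem_interior_target_iff e hex] at h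
  rw [← mem_interior_target_iff e' hex']
  let φ := (𝓡∂ 2).extendCoordChange e e'
  have hφ : ContDiffOn ℝ ∞ φ φ.source := ModelWithCorners.contDiffOn_extendCoordChange he he'
  suffices h : Function.Surjective (fderivWithin ℝ φ φ.source (e.extend (𝓡∂ 2) x)) →
      e'.extend (𝓡∂ 2) x ∈ interior (range (𝓡∂ 2)) by
    refine e'.mem_interior_extend_target (by simp [hex']) <| h ?_
    exact (ModelWithCorners.isInvertible_fderivWithin_extendCoordChange (n := ∞) (by simp) he
      he' (mem_cc_source hex hex')).surjective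
  intro hφx'
  have hφx : φ.source ∈ 𝓝 (e.extend (𝓡∂ 2) x) := by
    simp_rw [φ, ModelWithCorners.extendCoordChange, PartialEquiv.trans_source, PartialEquiv.symm_source,
      Filter.inter_mem_iff, mem_interior_iff_mem_nhds.1 h, true_and, e'.extend_source]
    exact e.extend_preimage_mem_nhds hex <| e'.open_source.mem_nhds hex'
  rw [fderivWithin_of_mem_nhds hφx] at hφx'
  have h9 : e'.extend (𝓡∂ 2) x = φ (e.extend (𝓡∂ 2) x) := by
    show _ = (e'.extend (𝓡∂ 2)) ((e.extend (𝓡∂ 2)).symm (e.extend (𝓡∂ 2) x))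
    rw [ext_left_inv hex]
  rw [h9]
  have hφ2 := (hφ.differentiableOn (by simp)).differentiableAt hφx
  exact hφ2.mem_interior_convex_of_surjective_fderiv hφx (𝓡∂ 2).convex_range (𝓡∂ 2).isClosed_range
    (𝓡∂ 2).nonempty_interior (φ.mapsTo.mono_right <| by simp [φ, inter_assoc]) hφx'

lemma boundary_iff (he : e ∈ IsManifold.maximalAtlas (𝓡∂ 2) ∞ M) {x : M} (hex : x ∈ e.source) :
    x ∈ (𝓡∂ 2).boundary M ↔ (e.extend (𝓡∂ 2) x) 0 = 0 := by
  have h1 : x ∈ (𝓡∂ 2).boundary M ↔ ¬ 0 < (extChartAt (𝓡∂ 2) x x) 0 := by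
    have : x ∈ (𝓡∂ 2).boundary M ↔ ¬ (𝓡∂ 2).IsInteriorPoint x := by
      rw [← ModelWithCorners.isBoundaryPoint_iff_not_isInteriorPoint]
      rfl
    rw [this]
    unfold ModelWithCorners.IsInteriorPoint
    rw [interior_range]
    rfl
  have h2 : 0 ≤ (e.extend (𝓡∂ 2) x) 0 := by
    have : e.extend (𝓡∂ 2) x ∈ range (𝓡∂ 2) := mem_range_self _
    rw [range_eq] at this
    exact this
  have hc : chartAt HP x ∈ IsManifold.maximalAtlas (𝓡∂ 2) ∞ M := IsManifold.chart_mem_maximalAtlas x
  rw [h1]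
  constructor
  · intro h
    by_contra hne
    apply h
    exact pos_of_pos he hc hex (mem_chart_source HP x) (lt_of_le_of_ne h2 (Ne.symm hne))
  · intro h hp
    have := pos_of_pos hc he (mem_chart_source HP x) hex hp
    linarith

end Pool.Agent.H74.FAC
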