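import Pool.Agent.H74.FAC.Bdry

open MeasureTheory Set Filter Measure Manifold Bundle
open scoped ContDiff Topology ENNReal NNReal

set_option linter.unusedSectionVars false
set_option linter.style.haveILetI false

noncomputable section

namespace Pool.Agent.H74.FAC

namespace Patch

variable {M : Type} [MetricSpace M] [ChartedSpace HP M] [IsManifold (𝓡∂ 2) ∞ M] [CompactSpace M]
  (P : Patch M)

def J : Set ℝ := {s | pt 0 s ∈ Metric.ball P.c (2 * P.r)}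

def Jr : Set ℝ := {s | pt 0 s ∈ Metric.ball P.c P.r}

lemma continuous_pt : Continuous (fun s : ℝ => pt 0 s) := by
  have : LipschitzWith 1 (fun s : ℝ => pt 0 s) := by
    apply LipschitzWith.of_dist_le_mul
    intro s s'
    rw [dist_pt_snd, Real.dist_eq]
    simp
  exact this.continuous

lemma J_open : IsOpen P.J := Metric.isOpen_ball.preimage continuous_pt
lemma Jr_open : IsOpen P.Jr := Metric.isOpen_ball.preimage continuous_pt

lemma Jr_sub : P.Jr ⊆ P.J := by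
  intro s hs
  have h : dist (pt 0 s) P.c < P.r := hs
  show dist (pt 0 s) P.c < 2 * P.r
  linarith [P.hr]

lemma mem_D_J {s : ℝ} (hs : s ∈ P.J) : pt 0 s ∈ P.D := by
  refine ⟨hs, ?_⟩
  show (0 : ℝ) ≤ (pt 0 s) 0
  simp

lemma J_eq : P.J = ∅ ∨ ∃ a b, a < b ∧ P.J = Ioo a b := by
  by_cases hne : P.J.Nonempty
  · right
    obtain ⟨s0, hs0⟩ := hne
    have key : ∀ s, s ∈ P.J ↔ (s - P.c 1) ^ 2 < (2 * P.r) ^ 2 - (P.c 0) ^ 2 := by
      intro s
      show dist (pt 0 s) P.c < 2 * P.r ↔ _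
      have hr : 0 < 2 * P.r := by linarith [P.hr]
      rw [EuclideanSpace.dist_eq, Real.sqrt_lt' hr, Fin.sum_univ_two, Real.dist_eq, Real.dist_eq,
        sq_abs, sq_abs, pt_zero, pt_one]
      constructor <;> intro h <;> nlinarith
    have hpos : 0 < (2 * P.r) ^ 2 - (P.c 0) ^ 2 := lt_of_le_of_lt (sq_nonneg _) ((key s0).1 hs0)
    set ρ := Real.sqrt ((2 * P.r) ^ 2 - (P.c 0) ^ 2) with hρ
    have hρ0 : 0 < ρ := Real.sqrt_pos.2 hpos
    refine ⟨P.c 1 - ρ, P.c 1 + ρ, by linarith, ?_⟩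
    ext s
    rw [key]
    have h2 : (2 * P.r) ^ 2 - (P.c 0) ^ 2 = ρ ^ 2 := (Real.sq_sqrt hpos.le).symm
    rw [h2, sq_lt_sq, abs_of_pos hρ0, abs_lt, mem_Ioo]
    constructor <;> intro h <;> constructor <;> linarith [h.1, h.2]
  · left
    exact not_nonempty_iff_eq_empty.1 hne

variable {φ : S1 → M} (hφ : IsometricFilling φ)

include hφ in
lemma symm_pt_range {s : ℝ} (hs : s ∈ P.J) : (P.e.extend (𝓡∂ 2)).symm (pt 0 s) ∈ range φ := by
  rw [hφ.range_eq]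
  have ht : pt 0 s ∈ (P.e.extend (𝓡∂ 2)).target := P.sub (P.mem_D_J hs)
  rw [boundary_iff P.he (symm_mem_source ht), (P.e.extend (𝓡∂ 2)).right_inv ht]
  rfl

include hφ in
lemma exists_tau (hne : P.J.Nonempty) : ∃ (K' : ℝ≥0) (τ : ℝ → ℝ) (t0 : ℝ), LipschitzWith K' τ ∧
    InjOn τ P.J ∧ (∀ s ∈ P.J, φ (τ s : S1) = (P.e.extend (𝓡∂ 2)).symm (pt 0 s)) ∧
    ∀ s ∈ P.J, |τ s - t0| ≤ 1 := by
  obtain ⟨s0, hs0⟩ := hne
  obtain ⟨x0, hx0⟩ := P.symm_pt_range hφ hs0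
  obtain ⟨t0, rfl⟩ := QuotientAddGroup.mk_surjective x0
  have hdist : ∀ s ∈ P.J, ∀ s' ∈ P.J, dist ((P.e.extend (𝓡∂ 2)).symm (pt 0 s))
      ((P.e.extend (𝓡∂ 2)).symm (pt 0 s')) ≤ P.K * |s - s'| := by
    intro s hs s' hs'
    have := P.lip.dist_le_mul _ (P.mem_D_J hs) _ (P.mem_D_J hs')
    rwa [dist_pt_snd] at this
  have hdist1 : ∀ s ∈ P.J, dist ((P.e.extend (𝓡∂ 2)).symm (pt 0 s))
      ((P.e.extend (𝓡∂ 2)).symm (pt 0 s0)) ≤ 1 := by
    intro s hs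
    have h1 := P.lip.dist_le_mul _ (P.mem_D_J hs) _ (P.mem_D_J hs0)
    have h2 : dist (pt 0 s) (pt 0 s0) ≤ 4 * P.r := by
      have a1 : dist (pt 0 s) P.c < 2 * P.r := hs
      have a2 : dist (pt 0 s0) P.c < 2 * P.r := hs0
      have := dist_triangle_right (pt 0 s) (pt 0 s0) P.c
      linarith
    calc _ ≤ (P.K : ℝ) * dist (pt 0 s) (pt 0 s0) := h1
      _ ≤ P.K * (4 * P.r) := by gcongr
      _ ≤ 1 := P.small
  have hex : ∀ s ∈ P.J, ∃ t : ℝ, φ (t : S1) = (P.e.extend (𝓡∂ 2)).symm (pt 0 s) ∧ |t - t0| ≤ 1 := by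
    intro s hs
    obtain ⟨x, hx⟩ := P.symm_pt_range hφ hs
    obtain ⟨t, ht, htd⟩ := exists_lift x t0
    refine ⟨t, by rw [ht, hx], ?_⟩
    rw [htd]
    have : dist x (t0 : S1) = dist (φ x) (φ (t0 : S1)) := (hφ.dist_eq _ _).symm
    rw [this, hx]
    have h3 := hdist1 s hs
    rw [← hx0] at h3
    exact h3
  classical
  choose! τ0 hτ0 hτ1 using hex
  have hτd : ∀ s ∈ P.J, ∀ s' ∈ P.J, dist (τ0 s : S1) (τ0 s' : S1) = |τ0 s - τ0 s'| := by
    intro s hs s' hs'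
    apply dist_circle
    have h1 := hτ1 s hs
    have h2 := hτ1 s' hs'
    rw [abs_le] at h1 h2 ⊢
    have := Real.pi_gt_three
    constructor <;> linarith [h1.1, h1.2, h2.1, h2.2]
  have hlip : LipschitzOnWith P.K τ0 P.J := by
    apply LipschitzOnWith.of_dist_le_mul
    intro s hs s' hs'
    rw [Real.dist_eq, ← hτd s hs s' hs', ← hφ.dist_eq, hτ0 s hs, hτ0 s' hs', Real.dist_eq]
    exact hdist s hs s' hs'
  obtain ⟨τ, hτ, heq⟩ := hlip.extend_real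
  refine ⟨P.K, τ, t0, hτ, ?_, ?_, ?_⟩
  · intro s hs s' hs' h
    rw [← heq hs, ← heq hs'] at h
    have h1 : (P.e.extend (𝓡∂ 2)).symm (pt 0 s) = (P.e.extend (𝓡∂ 2)).symm (pt 0 s') := by
      rw [← hτ0 s hs, ← hτ0 s' hs', h]
    have h2 := (P.e.extend (𝓡∂ 2)).symm.injOn (P.sub (P.mem_D_J hs)) (P.sub (P.mem_D_J hs')) h1
    have h3 : (pt 0 s) 1 = (pt 0 s') 1 := by rw [h2]
    simpa using h3
  · intro s hs
    rw [← heq hs]
    exact hτ0 s hs
  · intro s hs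
    rw [← heq hs]
    exact hτ1 s hs

lemma exists_sign {τ : ℝ → ℝ} {K' : ℝ≥0} (hτ : LipschitzWith K' τ) (hinj : InjOn τ P.J) :
    ∃ σ : ℝ, (σ = 1 ∨ σ = -1) ∧ ∀ s ∈ P.J, |deriv τ s| = σ * deriv τ s := by
  rcases P.J_eq with h | ⟨a, b, hab, h⟩
  · exact ⟨1, Or.inl rfl, fun s hs => absurd hs (by rw [h]; exact notMem_empty s)⟩
  · rw [h] at hinj
    rcases hτ.continuous.continuousOn.strictMonoOn_of_injOn_Ioo hab hinj with hm | hm
    · refine ⟨1, Or.inl rfl, fun s hs => ?_⟩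
      rw [h] at hs
      have h1 : derivWithin τ (Ioo a b) s = deriv τ s := derivWithin_of_isOpen isOpen_Ioo hs
      have h2 : 0 ≤ derivWithin τ (Ioo a b) s := hm.monotoneOn.derivWithin_nonneg
      rw [h1] at h2
      rw [abs_of_nonneg h2, one_mul]
    · refine ⟨-1, Or.inr rfl, fun s hs => ?_⟩
      rw [h] at hs
      have h1 : derivWithin τ (Ioo a b) s = deriv τ s := derivWithin_of_isOpen isOpen_Ioo hs
      have h2 : derivWithin τ (Ioo a b) s ≤ 0 := hm.antitoneOn.derivWithin_nonpos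
      rw [h1] at h2
      rw [abs_of_nonpos h2]
      ring

end Patch

end Pool.Agent.H74.FAC
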