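import Pool.Agent.H74.FAC.Riem3

open MeasureTheory Set Filter Measure Manifold Bundle
open scoped ContDiff Topology ENNReal NNReal

set_option linter.unusedSectionVars false

noncomputable section

namespace Pool.Agent.H74.FAC

variable {M : Type} [MetricSpace M] [ChartedSpace HP M] [IsManifold (𝓡∂ 2) ∞ M]
  {e e' : OpenPartialHomeomorph M HP}

/-- Jacobian of `(u, w)` in the chart `e` -/
def Jc (e : OpenPartialHomeomorph M HP) (u w : M → ℝ) (z : E2) : ℝ :=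
  fderiv ℝ (fun y => u ((e.extend (𝓡∂ 2)).symm y)) z (bv 0) *
    fderiv ℝ (fun y => w ((e.extend (𝓡∂ 2)).symm y)) z (bv 1) -
  fderiv ℝ (fun y => u ((e.extend (𝓡∂ 2)).symm y)) z (bv 1) *
    fderiv ℝ (fun y => w ((e.extend (𝓡∂ 2)).symm y)) z (bv 0)

def cc (e e' : OpenPartialHomeomorph M HP) (z : E2) : E2 :=
  e'.extend (𝓡∂ 2) ((e.extend (𝓡∂ 2)).symm z)

lemma vec_eq (v : E2) : v = v 0 • bv 0 + v 1 • bv 1 := by
  conv_lhs => rw [← pt_self v]
  rw [pt_eq]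

lemma det_E2 (L : E2 →L[ℝ] E2) :
    L.det = (L (bv 0)) 0 * (L (bv 1)) 1 - (L (bv 1)) 0 * (L (bv 0)) 1 := by
  rw [ContinuousLinearMap.det, ← LinearMap.det_toMatrix (EuclideanSpace.basisFun (Fin 2) ℝ).toBasis,
    Matrix.det_fin_two]
  simp [LinearMap.toMatrix_apply, bv]

lemma wedge_comp (L : E2 →L[ℝ] E2) (P Q : E2 →L[ℝ] ℝ) :
    P (L (bv 0)) * Q (L (bv 1)) - P (L (bv 1)) * Q (L (bv 0))
      = L.det * (P (bv 0) * Q (bv 1) - P (bv 1) * Q (bv 0)) := by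
  rw [det_E2]
  have h0 := vec_eq (L (bv 0))
  have h1 := vec_eq (L (bv 1))
  have p0 : P (L (bv 0)) = (L (bv 0)) 0 * P (bv 0) + (L (bv 0)) 1 * P (bv 1) := by
    conv_lhs => rw [h0]
    simp
  have p1 : P (L (bv 1)) = (L (bv 1)) 0 * P (bv 0) + (L (bv 1)) 1 * P (bv 1) := by
    conv_lhs => rw [h1]
    simp
  have q0 : Q (L (bv 0)) = (L (bv 0)) 0 * Q (bv 0) + (L (bv 0)) 1 * Q (bv 1) := by
    conv_lhs => rw [h0]
    simp
  have q1 : Q (L (bv 1)) = (L (bv 1)) 0 * Q (bv 0) + (L (bv 1)) 1 * Q (bv 1) := by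
    conv_lhs => rw [h1]
    simp
  rw [p0, p1, q0, q1]
  ring

/-- the domain of the coordinate change is a neighbourhood of interior points -/
lemma cc_source_nhds {x : M} (hex : x ∈ e.source) (hex' : x ∈ e'.source)
    (h : 0 < (e.extend (𝓡∂ 2) x) 0) :
    ((𝓡∂ 2).extendCoordChange e e').source ∈ 𝓝 (e.extend (𝓡∂ 2) x) := by
  rw [← mem_interior_target_iff e hex] at h
  simp_rw [ModelWithCorners.extendCoordChange, PartialEquiv.trans_source, PartialEquiv.symm_source,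
      Filter.inter_mem_iff, mem_interior_iff_mem_nhds.1 h, true_and, e'.extend_source]
  exact e.extend_preimage_mem_nhds hex <| e'.open_source.mem_nhds hex'

lemma cc_hasFDerivAt (he : e ∈ IsManifold.maximalAtlas (𝓡∂ 2) ∞ M)
    (he' : e' ∈ IsManifold.maximalAtlas (𝓡∂ 2) ∞ M) {x : M} (hex : x ∈ e.source)
    (hex' : x ∈ e'.source) (h : 0 < (e.extend (𝓡∂ 2) x) 0) :
    DifferentiableAt ℝ (cc e e') (e.extend (𝓡∂ 2) x) := by
  have hφ : ContDiffOn ℝ ∞ ((𝓡∂ 2).extendCoordChange e e') ((𝓡∂ 2).extendCoordChange e e').source :=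
    ModelWithCorners.contDiffOn_extendCoordChange he he'
  exact (hφ.differentiableOn (by simp)).differentiableAt (cc_source_nhds hex hex' h)

lemma cc_apply {x : M} (hex : x ∈ e.source) :
    cc e e' (e.extend (𝓡∂ 2) x) = e'.extend (𝓡∂ 2) x := by
  unfold cc
  rw [ext_left_inv hex]

/-- local identity `u ∘ e⁻¹ = (u ∘ e'⁻¹) ∘ cc` -/
lemma comp_eq (u : M → ℝ) {x : M} (hex : x ∈ e.source) (hex' : x ∈ e'.source)
    (h : 0 < (e.extend (𝓡∂ 2) x) 0) :
    (fun y => u ((e.extend (𝓡∂ 2)).symm y)) =ᶠ[𝓝 (e.extend (𝓡∂ 2) x)]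
      (fun y => u ((e'.extend (𝓡∂ 2)).symm y)) ∘ cc e e' := by
  filter_upwards [cc_source_nhds hex hex' h] with y hy
  have hy' : (e.extend (𝓡∂ 2)).symm y ∈ e'.source := by
    have := hy.2
    rwa [mem_preimage, OpenPartialHomeomorph.extend_source] at this
  simp only [Function.comp, cc]
  rw [ext_left_inv hy']

lemma diff_transfer (he : e ∈ IsManifold.maximalAtlas (𝓡∂ 2) ∞ M)
    (he' : e' ∈ IsManifold.maximalAtlas (𝓡∂ 2) ∞ M) (u : M → ℝ) {x : M} (hex : x ∈ e.source)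
    (hex' : x ∈ e'.source) (h : 0 < (e.extend (𝓡∂ 2) x) 0)
    (hd : DifferentiableAt ℝ (fun y => u ((e'.extend (𝓡∂ 2)).symm y)) (e'.extend (𝓡∂ 2) x)) :
    DifferentiableAt ℝ (fun y => u ((e.extend (𝓡∂ 2)).symm y)) (e.extend (𝓡∂ 2) x) := by
  rw [(comp_eq u hex hex' h).differentiableAt_iff]
  apply DifferentiableAt.comp _ _ (cc_hasFDerivAt he he' hex hex' h)
  rwa [cc_apply hex]

lemma fderiv_transfer (he : e ∈ IsManifold.maximalAtlas (𝓡∂ 2) ∞ M)
    (he' : e' ∈ IsManifold.maximalAtlas (𝓡∂ 2) ∞ M) (u : M → ℝ) {x : M} (hex : x ∈ e.source)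
    (hex' : x ∈ e'.source) (h : 0 < (e.extend (𝓡∂ 2) x) 0) :
    fderiv ℝ (fun y => u ((e.extend (𝓡∂ 2)).symm y)) (e.extend (𝓡∂ 2) x)
      = (fderiv ℝ (fun y => u ((e'.extend (𝓡∂ 2)).symm y)) (e'.extend (𝓡∂ 2) x)).comp
        (fderiv ℝ (cc e e') (e.extend (𝓡∂ 2) x)) := by
  by_cases hd : DifferentiableAt ℝ (fun y => u ((e'.extend (𝓡∂ 2)).symm y)) (e'.extend (𝓡∂ 2) x)
  · rw [(comp_eq u hex hex' h).fderiv_eq]
    rw [fderiv_comp]
    · rw [cc_apply hex]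
    · rwa [cc_apply hex]
    · exact cc_hasFDerivAt he he' hex hex' h
  · rw [fderiv_zero_of_not_differentiableAt hd]
    rw [fderiv_zero_of_not_differentiableAt]
    · simp
    · intro hd2
      exact hd (diff_transfer he' he u hex' hex (pos_of_pos he he' hex hex' h) hd2)

lemma Jc_transfer (he : e ∈ IsManifold.maximalAtlas (𝓡∂ 2) ∞ M)
    (he' : e' ∈ IsManifold.maximalAtlas (𝓡∂ 2) ∞ M) (u w : M → ℝ) {x : M} (hex : x ∈ e.source)
    (hex' : x ∈ e'.source) (h : 0 < (e.extend (𝓡∂ 2) x) 0) :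
    Jc e u w (e.extend (𝓡∂ 2) x)
      = (fderiv ℝ (cc e e') (e.extend (𝓡∂ 2) x)).det * Jc e' u w (e'.extend (𝓡∂ 2) x) := by
  unfold Jc
  rw [fderiv_transfer he he' u hex hex' h, fderiv_transfer he he' w hex hex' h]
  simp only [ContinuousLinearMap.comp_apply]
  exact wedge_comp _ _ _

end Pool.Agent.H74.FAC
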