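import Pool.Agent.H74.FAC.CertData

/-! Kernel checker for the calibration certificate. -/

namespace Pool.Agent.H74.FAC.Cert

/-- the `i`-th digit of `x` in base `2^w` -/
def dg (w x i : Nat) : Nat := Nat.mod (Nat.shiftRight x (Nat.mul w i)) (Nat.pow 2 w)

/-- signed digit with offset `2^(w-1)` -/
def sg (w x i : Nat) : Int := Int.subNatNat (dg w x i) (Nat.pow 2 (Nat.sub w 1))

/-- the table, extended to all codes `< 2048` as an odd function -/
def tab (c : Nat) : Int :=
  match Nat.ble 1024 c with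
  | true => Int.neg (sg 22 tabD (Nat.sub 2047 c))
  | false => sg 22 tabD c

/-- rotation of codes -/
def rotN (c : Nat) : Nat := Nat.add (Nat.div c 2) (Nat.mul 1024 (Nat.sub 1 (Nat.mod c 2)))

/-- iterated rotation -/
def rotI (k c : Nat) : Nat := Nat.rec c (fun _ r => rotN r) k

/-- clear bit `j` -/
def clr (c j : Nat) : Nat := Nat.sub c (Nat.mul (Nat.mod (Nat.div c (Nat.pow 2 j)) 2) (Nat.pow 2 j))

/-- `D_j B_k` at the vertex `c` -/
def DN (c j k : Nat) : Int :=
  Int.sub (tab (rotI k (Nat.add (clr c j) (Nat.pow 2 j)))) (tab (rotI k (clr c j)))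

/-- `Ω_{jk}` at the vertex `c` -/
def OmN (c j k : Nat) : Int := Int.sub (DN c j k) (DN c k j)

/-- `p - 1` mod 11 -/
def pm (p : Nat) : Nat := Nat.mod (Nat.add p 10) 11

/-- `-ε_{p-1}` -/
def ep (p : Nat) : Int := match p with | 0 => 1 | _ + 1 => -1

/-- all `i < n` -/
def allN (n : Nat) (f : Nat → Bool) : Bool := Nat.rec true (fun k r => Bool.and (f k) r) n

/-- sum over `i < n` -/
def sumN (n : Nat) (f : Nat → Int) : Int := Nat.rec (Int.ofNat 0) (fun k r => Int.add (f k) r) n

/-- `Ω` data entries -/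
def Od (r : Row) (j k : Nat) : Int := sg 20 r.O (Nat.add (Nat.mul 11 j) k)
/-- `W` data entries -/
def Wd (r : Row) (j k : Nat) : Int := sg 20 r.W (Nat.add (Nat.mul 11 j) k)
/-- `L` data entries -/
def Ld (r : Row) (i j : Nat) : Int :=
  match Nat.ble j i with
  | true => sg 27 r.L (Nat.add (Nat.div (Nat.mul i (Nat.add i 1)) 2) j)
  | false => Int.ofNat 0

/-- integer equality test -/
def eqI (a b : Int) : Bool :=
  match a, b with
  | Int.ofNat m, Int.ofNat n => Nat.beq m n
  | Int.negSucc m, Int.negSucc n => Nat.beq m n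
  | _, _ => false

/-- test `|a| ≤ n` -/
def absLe (a : Int) (n : Nat) : Bool := Nat.ble (Int.natAbs a) n

/-- test `n ≤ a` -/
def geN (a : Int) (n : Nat) : Bool :=
  match a with
  | Int.ofNat m => Nat.ble n m
  | Int.negSucc _ => false

def SS : Nat := 40000000000
def MM : Nat := 1000410
def EE : Nat := 10000000000

def chk1 (r : Row) : Bool :=
  allN 11 fun j => allN 11 fun k => eqI (Od r j k) (OmN r.c j k)

def chk2 (r : Row) : Bool :=
  allN 11 fun p => allN 11 fun q => eqI (Wd r p q)
    (Int.add (Int.add (Od r p q) (Int.mul (ep p) (Od r (pm p) q)))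
      (Int.mul (ep q) (Int.add (Od r p (pm q)) (Int.mul (ep p) (Od r (pm p) (pm q))))))

def chk3 (r : Row) : Bool :=
  Bool.and (Nat.beq (Nat.rec 0 (fun k s => Nat.add (dg 20 r.lam k) s) 11) MM)
    (allN 11 fun i => Nat.ble SS (Nat.mul 4 (Nat.mul (dg 20 r.m i) (dg 20 r.lam i))))

/-- entry of the residual matrix `-Wᵀ diag(m) W - L Lᵀ` -/
def Rd (r : Row) (i j : Nat) : Int :=
  Int.neg (Int.add
    (sumN 11 fun p => Int.mul (Int.ofNat (dg 20 r.m p)) (Int.mul (Wd r p i) (Wd r p j)))
    (sumN 11 fun k => Int.mul (Ld r i k) (Ld r j k)))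

def chk4 (r : Row) : Bool :=
  allN 11 fun i =>
    Bool.and (geN (Int.add (Int.ofNat (Nat.mul SS (dg 20 r.lam i))) (Rd r i i)) (Nat.mul 10 EE))
      (allN i fun j => absLe (Rd r i j) EE)

def chkRow (r : Row) : Bool :=
  Bool.and (Bool.and (chk1 r) (chk2 r)) (Bool.and (chk3 r) (chk4 r))

/-- all rows pass -/
def chkAll : List Row → Bool
  | [] => true
  | r :: l => Bool.and (chkRow r) (chkAll l)

/-- union of the codes of the rows -/
def maskOf : List Row → Nat
  | [] => 0
  | r :: l => Nat.lor (Nat.shiftLeft 1 r.c) (maskOf l)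

/-- some rotation of `c` (at most `n` times) is in the mask -/
def cov : Nat → Nat → Bool
  | 0, _ => false
  | n + 1, c => Bool.or (Nat.beq (Nat.mod (Nat.shiftRight mask c) 2) 1) (cov n (rotN c))

theorem chkAll_true : chkAll rows = true := by decide +kernel

theorem mask_eq : Nat.beq (maskOf rows) mask = true := by decide +kernel

theorem cov_true : allN 2048 (fun c => cov 22 c) = true := by decide +kernel

end Pool.Agent.H74.FAC.Cert
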