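import Mathlib
import Pool.Agent.H74.FAC.Check

/-! Soundness of the kernel checker. -/

namespace Pool.Agent.H74.FAC.Cert

theorem allN_iff (n : ℕ) (f : ℕ → Bool) (h : allN n f = true) : ∀ i < n, f i = true := by
  induction n with
  | zero => intro i hi; omega
  | succ n ih =>
    have h' : (f n && allN n f) = true := h
    rw [Bool.and_eq_true] at h'
    intro i hi
    rcases Nat.lt_succ_iff_lt_or_eq.mp hi with h1 | h1
    · exact ih h'.2 i h1
    · rw [h1]; exact h'.1

theorem sumN_eq (n : ℕ) (f : ℕ → ℤ) : sumN n f = ∑ i ∈ Finset.range n, f i := by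
  induction n with
  | zero => rfl
  | succ n ih =>
    have h' : sumN (n + 1) f = f n + sumN n f := rfl
    rw [h', ih, Finset.sum_range_succ, add_comm]

theorem eqI_iff (a b : ℤ) (h : eqI a b = true) : a = b := by
  rcases a with m | m <;> rcases b with n | n
  · have : Nat.beq m n = true := h
    rw [Nat.eq_of_beq_eq_true this]
  · exact absurd h (by simp [eqI])
  · exact absurd h (by simp [eqI])
  · have : Nat.beq m n = true := h
    rw [Nat.eq_of_beq_eq_true this]

theorem absLe_iff (a : ℤ) (n : ℕ) (h : absLe a n = true) : |a| ≤ n := by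
  have : a.natAbs ≤ n := Nat.le_of_ble_eq_true h
  rw [Int.abs_eq_natAbs]; exact_mod_cast this

theorem geN_iff (a : ℤ) (n : ℕ) (h : geN a n = true) : (n : ℤ) ≤ a := by
  rcases a with m | m
  · have : n ≤ m := Nat.le_of_ble_eq_true h
    change (n : ℤ) ≤ (m : ℤ)
    exact_mod_cast this
  · exact absurd h (by simp [geN])

/-- the abstract positivity argument -/
theorem cert_sound {n : ℕ} (W L : Fin n → Fin n → ℝ) (Λ m : Fin n → ℝ) (S E M : ℝ)
    (hS : 0 < S) (hE : 0 ≤ E)
    (hΛ0 : ∀ i, 0 ≤ Λ i) (hm0 : ∀ i, 0 ≤ m i)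
    (hΛ : ∑ i, Λ i ≤ M) (hm : ∀ i, S ≤ 4 * (m i * Λ i))
    (hoff : ∀ i j, i ≠ j → |(∑ p, m p * (W p i * W p j)) + ∑ k, L i k * L j k| ≤ E)
    (hdiag : ∀ i, ((n : ℝ) - 1) * E ≤ S * Λ i - ((∑ p, m p * (W p i * W p i)) + ∑ k, L i k * L i k))
    (X Y : Fin n → ℝ) (hXY : ∀ i, X i ^ 2 + Y i ^ 2 ≤ 1) :
    ∑ p, ∑ q, W p q * X p * Y q ≤ M := by
  classical
  set Z : Fin n → ℝ := fun p => ∑ q, W p q * Y q with hZ
  have h1 : ∑ p, ∑ q, W p q * X p * Y q = ∑ p, X p * Z p := by
    refine Finset.sum_congr rfl fun p _ => ?_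
    rw [hZ, Finset.mul_sum]
    refine Finset.sum_congr rfl fun q _ => ?_
    ring
  -- pointwise AM-GM
  have h2 : ∀ p, S * (X p * Z p) ≤ S * Λ p * X p ^ 2 + m p * Z p ^ 2 := by
    intro p
    have hml : 0 < m p * Λ p := by have := hm p; linarith
    have hmp : 0 < m p := by
      rcases (hm0 p).lt_or_eq with h | h
      · exact h
      · rw [← h] at hml; simp at hml
    have hLp : 0 < Λ p := by
      rcases (hΛ0 p).lt_or_eq with h | h
      · exact h
      · rw [← h] at hml; simp at hml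
    -- 4 Λ (rhs - lhs) = S (2 Λ X - Z)^2 + (4 m Λ - S) Z^2
    have key : 4 * Λ p * (S * Λ p * X p ^ 2 + m p * Z p ^ 2 - S * (X p * Z p))
        = S * (2 * Λ p * X p - Z p) ^ 2 + (4 * (m p * Λ p) - S) * Z p ^ 2 := by ring
    have hnn : 0 ≤ 4 * Λ p * (S * Λ p * X p ^ 2 + m p * Z p ^ 2 - S * (X p * Z p)) := by
      rw [key]
      have := hm p
      have h3 : 0 ≤ (4 * (m p * Λ p) - S) * Z p ^ 2 := mul_nonneg (by linarith) (sq_nonneg _)
      have h4 : 0 ≤ S * (2 * Λ p * X p - Z p) ^ 2 := mul_nonneg hS.le (sq_nonneg _)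
      linarith
    have := nonneg_of_mul_nonneg_right hnn (by linarith)
    linarith
  -- quadratic form identity
  set R : Fin n → Fin n → ℝ := fun i j => (if i = j then S * Λ i else 0)
    - ((∑ p, m p * (W p i * W p j)) + ∑ k, L i k * L j k) with hR
  have h3 : ∑ p, m p * Z p ^ 2 = S * ∑ i, Λ i * Y i ^ 2 - ∑ k, (∑ i, L i k * Y i) ^ 2
      - ∑ i, ∑ j, R i j * (Y i * Y j) := by
    have e1 : ∑ p, m p * Z p ^ 2 = ∑ i, ∑ j, (∑ p, m p * (W p i * W p j)) * (Y i * Y j) := by
      have : ∀ p, m p * Z p ^ 2 = ∑ i, ∑ j, m p * (W p i * W p j) * (Y i * Y j) := by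
        intro p
        rw [hZ, sq, Finset.sum_mul_sum, Finset.mul_sum]
        refine Finset.sum_congr rfl fun i _ => ?_
        rw [Finset.mul_sum]
        refine Finset.sum_congr rfl fun j _ => ?_
        ring
      rw [Finset.sum_congr rfl fun p _ => this p, Finset.sum_comm]
      refine Finset.sum_congr rfl fun i _ => ?_
      rw [Finset.sum_comm]
      refine Finset.sum_congr rfl fun j _ => ?_
      rw [Finset.sum_mul]
    have e2 : ∑ k, (∑ i, L i k * Y i) ^ 2 = ∑ i, ∑ j, (∑ k, L i k * L j k) * (Y i * Y j) := by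
      have : ∀ k, (∑ i, L i k * Y i) ^ 2 = ∑ i, ∑ j, (L i k * L j k) * (Y i * Y j) := by
        intro k
        rw [sq, Finset.sum_mul_sum]
        refine Finset.sum_congr rfl fun i _ => ?_
        refine Finset.sum_congr rfl fun j _ => ?_
        ring
      rw [Finset.sum_congr rfl fun p _ => this p, Finset.sum_comm]
      refine Finset.sum_congr rfl fun i _ => ?_
      rw [Finset.sum_comm]
      refine Finset.sum_congr rfl fun j _ => ?_
      rw [Finset.sum_mul]
    have e3 : S * ∑ i, Λ i * Y i ^ 2 = ∑ i, ∑ j, (if i = j then S * Λ i else 0) * (Y i * Y j) := by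
      rw [Finset.mul_sum]
      refine Finset.sum_congr rfl fun i _ => ?_
      rw [Finset.sum_eq_single i]
      · rw [if_pos rfl]; ring
      · intro j _ hj; rw [if_neg (Ne.symm hj), zero_mul]
      · intro h; exact absurd (Finset.mem_univ _) h
    rw [e1, e2, e3, ← Finset.sum_sub_distrib, ← Finset.sum_sub_distrib]
    refine Finset.sum_congr rfl fun i _ => ?_
    rw [← Finset.sum_sub_distrib, ← Finset.sum_sub_distrib]
    refine Finset.sum_congr rfl fun j _ => ?_
    rw [hR]; ring
  -- diagonal dominance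
  have h4 : 0 ≤ ∑ i, ∑ j, R i j * (Y i * Y j) := by
    have e1 : ∀ i j, (if i = j then ((n : ℝ) - 1) * E * Y i ^ 2 else -(E * ((Y i ^ 2 + Y j ^ 2) / 2)))
        ≤ R i j * (Y i * Y j) := by
      intro i j
      by_cases hij : i = j
      · subst hij
        rw [if_pos rfl]
        have := hdiag i
        have hR' : R i i = S * Λ i - ((∑ p, m p * (W p i * W p i)) + ∑ k, L i k * L i k) := by
          rw [hR]; simp
        rw [hR', show Y i * Y i = Y i ^ 2 by ring]
        exact mul_le_mul_of_nonneg_right this (sq_nonneg _)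
      · rw [if_neg hij]
        have hR' : |R i j| ≤ E := by
          have := hoff i j hij
          rw [hR]
          simp only [if_neg hij, zero_sub, abs_neg]
          exact this
        have h5 : |R i j * (Y i * Y j)| ≤ E * ((Y i ^ 2 + Y j ^ 2) / 2) := by
          rw [abs_mul]
          refine mul_le_mul hR' ?_ (abs_nonneg _) hE
          rw [abs_mul]
          nlinarith [sq_nonneg (|Y i| - |Y j|), sq_abs (Y i), sq_abs (Y j)]
        exact (abs_le.mp h5).1
    refine le_trans ?_ (Finset.sum_le_sum fun i _ => Finset.sum_le_sum fun j _ => e1 i j)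
    have e2 : ∀ i j : Fin n, (if i = j then ((n : ℝ) - 1) * E * Y i ^ 2 else -(E * ((Y i ^ 2 + Y j ^ 2) / 2)))
        = (if i = j then (n : ℝ) * E * Y i ^ 2 else 0) - E / 2 * Y i ^ 2 - E / 2 * Y j ^ 2 := by
      intro i j
      by_cases hij : i = j
      · subst hij; rw [if_pos rfl, if_pos rfl]; ring
      · rw [if_neg hij, if_neg hij]; ring
    simp_rw [e2, Finset.sum_sub_distrib]
    have e3 : ∀ i : Fin n, ∑ j, (if i = j then (n : ℝ) * E * Y i ^ 2 else 0) = (n : ℝ) * E * Y i ^ 2 := by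
      intro i; simp
    simp_rw [e3]
    simp only [Finset.sum_const, Finset.card_univ, Fintype.card_fin, nsmul_eq_mul, ← Finset.mul_sum]
    nlinarith
  -- conclusion
  have h5 : S * ∑ p, X p * Z p ≤ S * ∑ i, Λ i * (X i ^ 2 + Y i ^ 2) := by
    calc S * ∑ p, X p * Z p = ∑ p, S * (X p * Z p) := Finset.mul_sum _ _ _
      _ ≤ ∑ p, (S * Λ p * X p ^ 2 + m p * Z p ^ 2) := Finset.sum_le_sum fun p _ => h2 p
      _ = S * ∑ p, Λ p * X p ^ 2 + ∑ p, m p * Z p ^ 2 := by
          rw [Finset.sum_add_distrib, Finset.mul_sum]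
          congr 1
          refine Finset.sum_congr rfl fun i _ => by ring
      _ ≤ S * ∑ p, Λ p * X p ^ 2 + S * ∑ p, Λ p * Y p ^ 2 := by
          rw [h3]
          have : 0 ≤ ∑ k, (∑ i, L i k * Y i) ^ 2 := Finset.sum_nonneg fun k _ => sq_nonneg _
          linarith
      _ = S * ∑ i, Λ i * (X i ^ 2 + Y i ^ 2) := by
          rw [← mul_add, ← Finset.sum_add_distrib]
          congr 1
          refine Finset.sum_congr rfl fun i _ => by ring
  have h6 : ∑ i, Λ i * (X i ^ 2 + Y i ^ 2) ≤ M := by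
    refine le_trans (Finset.sum_le_sum fun i _ => ?_) hΛ
    have := mul_le_mul_of_nonneg_left (hXY i) (hΛ0 i)
    linarith
  rw [h1]
  have := le_of_mul_le_mul_left h5 hS
  linarith

end Pool.Agent.H74.FAC.Cert
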