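import Mathlib
import Pool.Agent.H74.FAC.Sound

/-! Soundness of the kernel checker, part 2. -/

namespace Pool.Agent.H74.FAC.Cert

theorem and_split {a b : Bool} (h : Bool.and a b = true) : a = true ∧ b = true := by
  have h' : (a && b) = true := h
  exact (Bool.and_eq_true _ _).mp h'

/-- sign `ε_j`: `-1` for the last index -/
def eps (j : Fin 11) : ℝ := if j = 10 then -1 else 1

/-- twisted difference -/
def del (X : Fin 11 → ℝ) (j : Fin 11) : ℝ := X j - eps j * X (j + 1)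

/-- summation by parts on the twisted circle -/
theorem sum_del (a X : Fin 11 → ℝ) :
    ∑ j, a j * del X j = ∑ p, (a p - eps (p - 1) * a (p - 1)) * X p := by
  have h1 : ∑ j, a j * del X j = ∑ j, a j * X j - ∑ j, a j * eps j * X (j + 1) := by
    rw [← Finset.sum_sub_distrib]
    refine Finset.sum_congr rfl fun j _ => ?_
    rw [del]; ring
  have h2 : ∑ p, (a p - eps (p - 1) * a (p - 1)) * X p
      = ∑ p, a p * X p - ∑ p, a (p - 1) * eps (p - 1) * X p := by
    rw [← Finset.sum_sub_distrib]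
    refine Finset.sum_congr rfl fun j _ => ?_
    ring
  rw [h1, h2]
  congr 1
  rw [← Equiv.sum_comp (Equiv.addRight (1 : Fin 11))
    (fun p => a (p - 1) * eps (p - 1) * X p)]
  refine Finset.sum_congr rfl fun j _ => ?_
  simp

theorem pm_val (p : Fin 11) : ((p - 1 : Fin 11) : ℕ) = pm p := by
  revert p; decide

theorem ep_val (p : Fin 11) : ((ep p : ℤ) : ℝ) = - eps (p - 1) := by
  have h : ∀ p : Fin 11, ep p = (if (p - 1 : Fin 11) = 10 then (1 : ℤ) else -1) := by decide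
  rw [h p, eps]
  split_ifs <;> norm_num

theorem row_sound (r : Row) (hr : chkRow r = true) (X Y : Fin 11 → ℝ)
    (hXY : ∀ i, X i ^ 2 + Y i ^ 2 ≤ 1) :
    ∑ j : Fin 11, ∑ k : Fin 11, ((OmN r.c j k : ℤ) : ℝ) * del X j * del Y k ≤ (MM : ℝ) := by
  obtain ⟨h12, h34⟩ := and_split hr
  obtain ⟨h1, h2⟩ := and_split h12
  obtain ⟨h3, h4⟩ := and_split h34
  obtain ⟨h3a, h3b⟩ := and_split h3
  have hO : ∀ j k : ℕ, j < 11 → k < 11 → Od r j k = OmN r.c j k := fun j k hj hk =>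
    eqI_iff _ _ (allN_iff _ _ (allN_iff _ _ h1 j hj) k hk)
  have hW : ∀ p q : ℕ, p < 11 → q < 11 → Wd r p q =
      (Od r p q + ep p * Od r (pm p) q) + ep q * (Od r p (pm q) + ep p * Od r (pm p) (pm q)) :=
    fun p q hp hq => eqI_iff _ _ (allN_iff _ _ (allN_iff _ _ h2 p hp) q hq)
  have hpm : ∀ p : Fin 11, pm p < 11 := fun p => by rw [← pm_val]; exact Fin.is_lt _
  -- the bilinear form in terms of W
  set O : Fin 11 → Fin 11 → ℝ := fun j k => ((OmN r.c j k : ℤ) : ℝ) with hOdef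
  have hWO : ∀ p q : Fin 11, ((Wd r p q : ℤ) : ℝ) =
      (O p q - eps (p - 1) * O (p - 1) q) - eps (q - 1) * (O p (q - 1) - eps (p - 1) * O (p - 1) (q - 1)) := by
    intro p q
    rw [hW p q p.2 q.2, hO p q p.2 q.2, hO (pm p) q (hpm p) q.2, hO p (pm q) p.2 (hpm q),
      hO (pm p) (pm q) (hpm p) (hpm q)]
    push_cast
    rw [ep_val p, ep_val q, ← pm_val p, ← pm_val q]
    simp only [hOdef]
    ring
  have hbil : ∑ j : Fin 11, ∑ k : Fin 11, O j k * del X j * del Y k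
      = ∑ p : Fin 11, ∑ q : Fin 11, ((Wd r p q : ℤ) : ℝ) * X p * Y q := by
    have e1 : ∀ j : Fin 11, ∑ k : Fin 11, O j k * del X j * del Y k
        = (∑ q, (O j q - eps (q - 1) * O j (q - 1)) * Y q) * del X j := by
      intro j
      rw [← sum_del (fun k => O j k) Y, Finset.sum_mul]
      refine Finset.sum_congr rfl fun k _ => by ring
    rw [Finset.sum_congr rfl fun j _ => e1 j, sum_del]
    refine Finset.sum_congr rfl fun p _ => ?_
    rw [sub_mul, mul_assoc, Finset.sum_mul, Finset.sum_mul, Finset.mul_sum, ← Finset.sum_sub_distrib]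
    refine Finset.sum_congr rfl fun q _ => ?_
    rw [hWO p q]
    ring
  rw [hbil]
  have hΛsum : (∑ i : Fin 11, ((dg 20 r.lam i : ℕ) : ℝ)) = (MM : ℝ) := by
    have e : Nat.rec (motive := fun _ => ℕ) 0 (fun k s => Nat.add (dg 20 r.lam k) s) 11 = MM :=
      Nat.eq_of_beq_eq_true h3a
    have e2 : ∀ n : ℕ, Nat.rec (motive := fun _ => ℕ) 0 (fun k s => Nat.add (dg 20 r.lam k) s) n
        = ∑ i ∈ Finset.range n, dg 20 r.lam i := by
      intro n
      induction n with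
      | zero => rfl
      | succ n ih =>
        rw [Finset.sum_range_succ, ← ih]
        exact Nat.add_comm _ _
    rw [e2 11] at e
    rw [← Finset.sum_range (fun i => ((dg 20 r.lam i : ℕ) : ℝ)), ← e]
    push_cast
    rfl
  have hsum : ∀ f : ℕ → ℤ, ((sumN 11 f : ℤ) : ℝ) = ∑ i : Fin 11, ((f i : ℤ) : ℝ) := by
    intro f
    rw [sumN_eq, Finset.sum_range]
    push_cast
    rfl
  have hRd : ∀ i j : ℕ, ((Rd r i j : ℤ) : ℝ) = -((∑ p : Fin 11, ((dg 20 r.m p : ℕ) : ℝ) *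
      (((Wd r p i : ℤ) : ℝ) * ((Wd r p j : ℤ) : ℝ)))
      + ∑ k : Fin 11, ((Ld r i k : ℤ) : ℝ) * ((Ld r j k : ℤ) : ℝ)) := by
    intro i j
    have : Rd r i j = -((sumN 11 fun p => (dg 20 r.m p : ℤ) * (Wd r p i * Wd r p j))
      + (sumN 11 fun k => Ld r i k * Ld r j k)) := rfl
    rw [this]
    push_cast
    rw [hsum, hsum]
    push_cast
    rfl
  have hRsymm : ∀ i j : ℕ, Rd r i j = Rd r j i := by
    intro i j
    have h5 : ((Rd r i j : ℤ) : ℝ) = ((Rd r j i : ℤ) : ℝ) := by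
      rw [hRd, hRd]
      congr 2
      · exact Finset.sum_congr rfl fun p _ => by ring
      · exact Finset.sum_congr rfl fun p _ => by ring
    exact_mod_cast h5
  have hofflt : ∀ i j : ℕ, i < 11 → j < i → |Rd r i j| ≤ (EE : ℤ) := by
    intro i j hi hj
    have h5 := allN_iff _ _ h4 i hi
    exact absLe_iff _ _ (allN_iff _ _ (and_split h5).2 j hj)
  have hoffall : ∀ i j : ℕ, i < 11 → j < 11 → i ≠ j → |Rd r i j| ≤ (EE : ℤ) := by
    intro i j hi hj hij
    rcases lt_or_gt_of_ne hij with h5 | h5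
    · rw [hRsymm]; exact hofflt j i hj h5
    · exact hofflt i j hi h5
  have hdiag : ∀ i : ℕ, i < 11 → (((10 * EE : ℕ)) : ℤ) ≤ ((SS * dg 20 r.lam i : ℕ) : ℤ) + Rd r i i := by
    intro i hi
    have h5 := allN_iff _ _ h4 i hi
    exact geN_iff _ _ (and_split h5).1
  refine cert_sound (fun p q => ((Wd r p q : ℤ) : ℝ)) (fun i j => ((Ld r i j : ℤ) : ℝ))
    (fun i => ((dg 20 r.lam i : ℕ) : ℝ)) (fun i => ((dg 20 r.m i : ℕ) : ℝ)) (SS : ℝ) (EE : ℝ) (MM : ℝ)
    ?_ ?_ ?_ ?_ ?_ ?_ ?_ ?_ X Y hXY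
  · have : (0 : ℕ) < SS := by decide
    exact_mod_cast this
  · positivity
  · intro i; positivity
  · intro i; positivity
  · rw [hΛsum]
  · intro i
    have h5 : SS ≤ 4 * (dg 20 r.m i * dg 20 r.lam i) := Nat.le_of_ble_eq_true (allN_iff _ _ h3b i i.2)
    have h6 : (SS : ℝ) ≤ ((4 * (dg 20 r.m i * dg 20 r.lam i) : ℕ) : ℝ) := by exact_mod_cast h5
    push_cast at h6
    exact h6
  · intro i j hij
    have h5 := hoffall i j i.2 j.2 (fun h => hij (Fin.ext h))
    have h6 : |((Rd r i j : ℤ) : ℝ)| ≤ (EE : ℝ) := by exact_mod_cast h5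
    rw [hRd, abs_neg] at h6
    exact h6
  · intro i
    have h5 := hdiag i i.2
    have h6 : (((10 * EE : ℕ)) : ℝ) ≤ ((SS * dg 20 r.lam i : ℕ) : ℝ) + ((Rd r i i : ℤ) : ℝ) := by
      exact_mod_cast h5
    rw [hRd] at h6
    push_cast at h6 ⊢
    linarith

end Pool.Agent.H74.FAC.Cert
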