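import Mathlib
import Pool.Agent.H74.FAC.Sound2

/-! The comass inequality at all vertices of the cube. -/

namespace Pool.Agent.H74.FAC.Cert

/-- vertices of the cube -/
abbrev V := Fin 11 → Bool

/-- rotation of vertices -/
def rot (v : V) : V := fun j => xor (decide (j = 10)) (v (j + 1))

/-- code of a vertex -/
def code (v : V) : ℕ := ∑ i : Fin 11, (v i).toNat * 2 ^ (i : ℕ)

theorem code_lt (v : V) : code v < 2048 := by
  rw [code]
  simp only [Fin.sum_univ_succ, Fin.sum_univ_zero]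
  have h : ∀ i, (v i).toNat ≤ 1 := fun i => Bool.toNat_le _
  simp only [Fin.val_zero, Fin.val_succ, Fin.isValue]
  have h0 := h 0
  have h1 := h (Fin.succ 0)
  have h2 := h (Fin.succ (Fin.succ 0))
  have h3 := h (Fin.succ (Fin.succ (Fin.succ 0)))
  have h4 := h (Fin.succ (Fin.succ (Fin.succ (Fin.succ 0))))
  have h5 := h (Fin.succ (Fin.succ (Fin.succ (Fin.succ (Fin.succ 0)))))
  have h6 := h (Fin.succ (Fin.succ (Fin.succ (Fin.succ (Fin.succ (Fin.succ 0))))))
  have h7 := h (Fin.succ (Fin.succ (Fin.succ (Fin.succ (Fin.succ (Fin.succ (Fin.succ 0)))))))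
  have h8 := h (Fin.succ (Fin.succ (Fin.succ (Fin.succ (Fin.succ (Fin.succ (Fin.succ (Fin.succ 0))))))))
  have h9 := h (Fin.succ (Fin.succ (Fin.succ (Fin.succ (Fin.succ (Fin.succ (Fin.succ (Fin.succ (Fin.succ 0)))))))))
  have h10 := h (Fin.succ (Fin.succ (Fin.succ (Fin.succ (Fin.succ (Fin.succ (Fin.succ (Fin.succ (Fin.succ (Fin.succ 0))))))))))
  omega

theorem code_eq (v : V) : code v = (v 0).toNat + 2 * (v 1).toNat + 4 * (v 2).toNat + 8 * (v 3).toNat
    + 16 * (v 4).toNat + 32 * (v 5).toNat + 64 * (v 6).toNat + 128 * (v 7).toNat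
    + 256 * (v 8).toNat + 512 * (v 9).toNat + 1024 * (v 10).toNat := by
  rw [code]
  simp only [Fin.sum_univ_succ, Fin.sum_univ_zero]
  simp only [Fin.val_zero, Fin.val_succ, Fin.isValue]
  have e1 : (Fin.succ 0 : Fin 11) = 1 := rfl
  have e2 : (Fin.succ (Fin.succ 0) : Fin 11) = 2 := rfl
  have e3 : (Fin.succ (Fin.succ (Fin.succ 0)) : Fin 11) = 3 := rfl
  have e4 : (Fin.succ (Fin.succ (Fin.succ (Fin.succ 0))) : Fin 11) = 4 := rfl
  have e5 : (Fin.succ (Fin.succ (Fin.succ (Fin.succ (Fin.succ 0)))) : Fin 11) = 5 := rfl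
  have e6 : (Fin.succ (Fin.succ (Fin.succ (Fin.succ (Fin.succ (Fin.succ 0))))) : Fin 11) = 6 := rfl
  have e7 : (Fin.succ (Fin.succ (Fin.succ (Fin.succ (Fin.succ (Fin.succ (Fin.succ 0)))))) : Fin 11) = 7 := rfl
  have e8 : (Fin.succ (Fin.succ (Fin.succ (Fin.succ (Fin.succ (Fin.succ (Fin.succ (Fin.succ 0))))))) : Fin 11) = 8 := rfl
  have e9 : (Fin.succ (Fin.succ (Fin.succ (Fin.succ (Fin.succ (Fin.succ (Fin.succ (Fin.succ (Fin.succ 0)))))))) : Fin 11) = 9 := rfl
  have e10 : (Fin.succ (Fin.succ (Fin.succ (Fin.succ (Fin.succ (Fin.succ (Fin.succ (Fin.succ (Fin.succ (Fin.succ 0))))))))) : Fin 11) = 10 := rfl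
  rw [e10, e9, e8, e7, e6, e5, e4, e3, e2, e1]
  ring

theorem rot_val (v : V) : rot v 0 = v 1 ∧ rot v 1 = v 2 ∧ rot v 2 = v 3 ∧ rot v 3 = v 4 ∧
    rot v 4 = v 5 ∧ rot v 5 = v 6 ∧ rot v 6 = v 7 ∧ rot v 7 = v 8 ∧ rot v 8 = v 9 ∧
    rot v 9 = v 10 ∧ rot v 10 = !(v 0) := by
  refine ⟨?_, ?_, ?_, ?_, ?_, ?_, ?_, ?_, ?_, ?_, ?_⟩ <;> simp [rot]

theorem toNat_not (b : Bool) : (!b).toNat = 1 - b.toNat := by cases b <;> rfl

theorem code_rot (v : V) : code (rot v) = rotN (code v) := by
  obtain ⟨h0, h1, h2, h3, h4, h5, h6, h7, h8, h9, h10⟩ := rot_val v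
  have e : rotN (code v) = (code v) / 2 + 1024 * (1 - (code v) % 2) := rfl
  rw [e, code_eq (rot v), code_eq v, h0, h1, h2, h3, h4, h5, h6, h7, h8, h9, h10, toNat_not]
  have g : ∀ i, (v i).toNat ≤ 1 := fun i => Bool.toNat_le _
  have := g 0; have := g 1; have := g 2; have := g 3; have := g 4; have := g 5
  have := g 6; have := g 7; have := g 8; have := g 9; have := g 10
  omega

theorem code_not (v : V) : code (fun i => !(v i)) = 2047 - code v := by
  rw [code_eq (fun i => !(v i)), code_eq v]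
  simp only [toNat_not]
  have g : ∀ i, (v i).toNat ≤ 1 := fun i => Bool.toNat_le _
  have := g 0; have := g 1; have := g 2; have := g 3; have := g 4; have := g 5
  have := g 6; have := g 7; have := g 8; have := g 9; have := g 10
  omega

theorem code_iter (k : ℕ) (v : V) : code (rot^[k] v) = rotI k (code v) := by
  induction k with
  | zero => rfl
  | succ k ih =>
    rw [Function.iterate_succ_apply', code_rot, ih]
    rfl

theorem clr_code (v : V) (j : Fin 11) : clr (code v) j = code (Function.update v j false) := by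
  have e : clr (code v) j = code v - (code v / 2 ^ (j : ℕ) % 2) * 2 ^ (j : ℕ) := rfl
  rw [e, code_eq (Function.update v j false), code_eq v]
  have g : ∀ i, (v i).toNat ≤ 1 := fun i => Bool.toNat_le _
  have := g 0; have := g 1; have := g 2; have := g 3; have := g 4; have := g 5
  have := g 6; have := g 7; have := g 8; have := g 9; have := g 10
  fin_cases j <;> simp [Function.update] <;> omega

theorem set_code (v : V) (j : Fin 11) :
    clr (code v) j + 2 ^ (j : ℕ) = code (Function.update v j true) := by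
  have e : clr (code v) j = code v - (code v / 2 ^ (j : ℕ) % 2) * 2 ^ (j : ℕ) := rfl
  rw [e, code_eq (Function.update v j true), code_eq v]
  have g : ∀ i, (v i).toNat ≤ 1 := fun i => Bool.toNat_le _
  have := g 0; have := g 1; have := g 2; have := g 3; have := g 4; have := g 5
  have := g 6; have := g 7; have := g 8; have := g 9; have := g 10
  fin_cases j <;> simp [Function.update] <;> omega

end Pool.Agent.H74.FAC.Cert
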