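import Mathlib
import Pool.Agent.H74.FAC.Vert

/-! The comass inequality at all vertices of the cube, part 2. -/

namespace Pool.Agent.H74.FAC.Cert

/-- the vertex table -/
def BV (v : V) : ℝ := ((tab (code v) : ℤ) : ℝ)

/-- `B_k = B ∘ rot^k` -/
def BK (k : ℕ) (v : V) : ℝ := BV (rot^[k] v)

/-- discrete derivative -/
def DB (j : Fin 11) (k : ℕ) (v : V) : ℝ :=
  BK k (Function.update v j true) - BK k (Function.update v j false)

/-- `Ω` -/
def Om (v : V) (j k : Fin 11) : ℝ := DB j k v - DB k j v

theorem Om_eq (v : V) (j k : Fin 11) : Om v j k = ((OmN (code v) j k : ℤ) : ℝ) := by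
  have e : ∀ (j : Fin 11) (k : ℕ), DB j k v = ((DN (code v) j k : ℤ) : ℝ) := by
    intro j k
    have e1 : DN (code v) j k = tab (rotI k (clr (code v) j + 2 ^ (j : ℕ))) - tab (rotI k (clr (code v) j)) := rfl
    rw [e1, set_code, clr_code, ← code_iter, ← code_iter, DB, BK, BK, BV, BV]
    push_cast
    rfl
  rw [Om, e, e]
  have e2 : OmN (code v) j k = DN (code v) j k - DN (code v) k j := rfl
  rw [e2]
  push_cast
  rfl

theorem tab_odd (c : ℕ) (hc : c < 2048) : tab (2047 - c) = - tab c := by
  by_cases h : 1024 ≤ c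
  · have e1 : tab c = -(sg 22 tabD (2047 - c)) := by
      rw [tab]
      have : Nat.ble 1024 c = true := Nat.ble_eq.mpr h
      rw [this]
      rfl
    have e2 : tab (2047 - c) = sg 22 tabD (2047 - c) := by
      rw [tab]
      have : Nat.ble 1024 (2047 - c) = false := by
        rw [Bool.eq_false_iff]
        intro h2
        have := Nat.ble_eq.mp h2
        omega
      rw [this]
    rw [e1, e2, neg_neg]
  · have e1 : tab (2047 - c) = -(sg 22 tabD (2047 - (2047 - c))) := by
      rw [tab]
      have : Nat.ble 1024 (2047 - c) = true := Nat.ble_eq.mpr (by omega)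
      rw [this]
      rfl
    have e2 : tab c = sg 22 tabD c := by
      rw [tab]
      have : Nat.ble 1024 c = false := by
        rw [Bool.eq_false_iff]
        intro h2
        have := Nat.ble_eq.mp h2
        omega
      rw [this]
    rw [e1, e2]
    congr 2
    omega

theorem BV_not (v : V) : BV (fun i => !(v i)) = - BV v := by
  rw [BV, BV, code_not, tab_odd _ (code_lt v)]
  push_cast
  rfl

theorem rot_not (v : V) : rot (fun i => !(v i)) = fun i => !(rot v i) := by
  funext j
  simp [rot]

theorem rot_iter11 (v : V) : rot^[11] v = fun i => !(v i) := by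
  obtain ⟨h0, h1, h2, h3, h4, h5, h6, h7, h8, h9, h10⟩ := rot_val v
  have key : ∀ (n : ℕ) (hn : n ≤ 11) (j : Fin 11), rot^[n] v j =
      (if h : (j : ℕ) + n < 11 then v ⟨(j : ℕ) + n, h⟩ else !(v ⟨((j : ℕ) + n - 11) % 11, Nat.mod_lt _ (by norm_num)⟩)) := by
    intro n
    induction n with
    | zero =>
      intro _ j
      rw [Function.iterate_zero, id, dif_pos (by simp)]
      congr 1
    | succ n ih =>
      intro hn j
      rw [Function.iterate_succ_apply', rot, ih (by omega)]
      have hj : ((j + 1 : Fin 11) : ℕ) = if (j : ℕ) = 10 then 0 else (j : ℕ) + 1 := by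
        revert j; decide
      have hj10 : (j = 10) ↔ (j : ℕ) = 10 := by
        revert j; decide
      have hjl := j.2
      by_cases h : (j : ℕ) = 10
      · have hj' : ((j + 1 : Fin 11) : ℕ) = 0 := by rw [hj, if_pos h]
        have hd : decide (j = 10) = true := decide_eq_true (hj10.mpr h)
        rw [hd, Bool.true_xor]
        have h11 : ¬ ((j : ℕ) + (n + 1) < 11) := by omega
        rw [dif_neg h11]
        have h12 : ((j + 1 : Fin 11) : ℕ) + n < 11 := by omega
        rw [dif_pos h12]
        congr 2
        ext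
        simp only
        omega
      · have hj' : ((j + 1 : Fin 11) : ℕ) = (j : ℕ) + 1 := by rw [hj, if_neg h]
        have hd : decide (j = 10) = false := decide_eq_false (fun hh => h (hj10.mp hh))
        rw [hd, Bool.false_xor]
        by_cases h11 : (j : ℕ) + (n + 1) < 11
        · rw [dif_pos h11]
          have h12 : ((j + 1 : Fin 11) : ℕ) + n < 11 := by omega
          rw [dif_pos h12]
          congr 1
          ext
          simp only
          omega
        · rw [dif_neg h11]
          have h12 : ¬ (((j + 1 : Fin 11) : ℕ) + n < 11) := by omega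
          rw [dif_neg h12]
          congr 2
          ext
          simp only
          omega
  funext j
  rw [key 11 le_rfl j, dif_neg (by omega)]
  congr 2
  ext
  simp only
  have := j.2
  omega

theorem BK_11 (v : V) : BK 11 v = - BK 0 v := by
  rw [BK, rot_iter11, BV_not]
  rfl

theorem BK_rot (k : ℕ) (v : V) : BK k (rot v) = BK (k + 1) v := by
  rw [BK, BK, Function.iterate_succ_apply]

theorem update_rot (v : V) (j : Fin 11) (b : Bool) :
    Function.update (rot v) j b = rot (Function.update v (j + 1) (xor (decide (j = 10)) b)) := by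
  funext i
  by_cases h : i = j
  · subst h
    simp [rot]
  · rw [Function.update_of_ne h, rot, rot]
    rw [Function.update_of_ne]
    intro h2
    exact h (add_right_cancel h2)

theorem eps_sq (j : Fin 11) : eps j * eps j = 1 := by
  rw [eps]; split_ifs <;> norm_num

theorem DB_rot (v : V) (j : Fin 11) (k : ℕ) : DB j k (rot v) = eps j * DB (j + 1) (k + 1) v := by
  rw [DB, update_rot, update_rot, BK_rot, BK_rot, DB, eps]
  by_cases h : j = 10
  · rw [if_pos h, decide_eq_true h]
    simp
  · rw [if_neg h, decide_eq_false h]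
    simp

theorem DB_k (v : V) (j k : Fin 11) : DB j ((k : ℕ) + 1) v = eps k * DB j ((k + 1 : Fin 11) : ℕ) v := by
  have hk : ((k + 1 : Fin 11) : ℕ) = if (k : ℕ) = 10 then 0 else (k : ℕ) + 1 := by
    revert k; decide
  have hk10 : (k = 10) ↔ (k : ℕ) = 10 := by
    revert k; decide
  by_cases h : k = 10
  · have h' := hk10.mp h
    rw [hk, if_pos h', h', eps, if_pos h]
    have : ∀ w : V, BK (10 + 1) w = - BK 0 w := BK_11
    rw [DB, DB, this, this]
    ring
  · have h' : ¬ ((k : ℕ) = 10) := fun hh => h (hk10.mpr hh)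
    rw [hk, if_neg h', eps, if_neg h, one_mul]

theorem Om_rot (v : V) (j k : Fin 11) : Om (rot v) j k = eps j * eps k * Om v (j + 1) (k + 1) := by
  rw [Om, Om, DB_rot, DB_rot, DB_k, DB_k]
  ring

/-- the comass inequality at the vertex `v` -/
def PP (v : V) : Prop := ∀ X Y : Fin 11 → ℝ, (∀ i, X i ^ 2 + Y i ^ 2 ≤ 1) →
  ∑ j : Fin 11, ∑ k : Fin 11, Om v j k * del X j * del Y k ≤ (MM : ℝ)

theorem PP_rot (v : V) (h : PP (rot v)) : PP v := by
  intro X Y hXY
  have h1 := h (fun j => eps j * X (j + 1)) (fun j => eps j * Y (j + 1)) (by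
    intro i
    have := hXY (i + 1)
    have e := eps_sq i
    have : (eps i * X (i + 1)) ^ 2 + (eps i * Y (i + 1)) ^ 2 = X (i + 1) ^ 2 + Y (i + 1) ^ 2 := by
      calc _ = (eps i * eps i) * (X (i + 1) ^ 2 + Y (i + 1) ^ 2) := by ring
        _ = _ := by rw [e, one_mul]
    rw [this]
    exact hXY (i + 1))
  have hdel : ∀ (Z : Fin 11 → ℝ) (j : Fin 11), eps j * del (fun j => eps j * Z (j + 1)) j = del Z (j + 1) := by
    intro Z j
    rw [del, del]
    calc eps j * (eps j * Z (j + 1) - eps j * (eps (j + 1) * Z (j + 1 + 1)))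
        = (eps j * eps j) * (Z (j + 1) - eps (j + 1) * Z (j + 1 + 1)) := by ring
      _ = _ := by rw [eps_sq, one_mul]
  refine le_trans (le_of_eq ?_) h1
  rw [← Equiv.sum_comp (Equiv.addRight (1 : Fin 11))
    (fun j => ∑ k : Fin 11, Om v j k * del X j * del Y k)]
  refine Finset.sum_congr rfl fun j _ => ?_
  rw [← Equiv.sum_comp (Equiv.addRight (1 : Fin 11))]
  refine Finset.sum_congr rfl fun k _ => ?_
  simp only [Equiv.coe_addRight]
  rw [Om_rot, ← hdel X j, ← hdel Y k]
  ring

theorem testBit_shiftLeft_one (c i : ℕ) : (Nat.shiftLeft 1 c).testBit i = decide (c = i) := by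
  have : Nat.shiftLeft 1 c = 2 ^ c := by
    have h : Nat.shiftLeft 1 c = 1 <<< c := rfl
    rw [h, Nat.one_shiftLeft]
  rw [this, Nat.testBit_two_pow]

theorem maskOf_testBit (l : List Row) (c : ℕ) (h : (maskOf l).testBit c = true) :
    ∃ r ∈ l, r.c = c := by
  induction l with
  | nil => rw [maskOf] at h; simp at h
  | cons r l ih =>
    have e : maskOf (r :: l) = Nat.shiftLeft 1 r.c ||| maskOf l := rfl
    rw [e, Nat.testBit_or, testBit_shiftLeft_one, Bool.or_eq_true] at h
    rcases h with h | h
    · exact ⟨r, List.mem_cons_self, of_decide_eq_true h⟩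
    · obtain ⟨r', hr', hc⟩ := ih h
      exact ⟨r', List.mem_cons_of_mem _ hr', hc⟩

theorem chkAll_mem (l : List Row) (h : chkAll l = true) : ∀ r ∈ l, chkRow r = true := by
  induction l with
  | nil => intro r hr; simp at hr
  | cons r l ih =>
    have h' := and_split h
    intro r' hr'
    rcases List.mem_cons.mp hr' with h1 | h1
    · rw [h1]; exact h'.1
    · exact ih h'.2 r' h1

theorem PP_of_mask (v : V) (h : mask.testBit (code v) = true) : PP v := by
  rw [← Nat.eq_of_beq_eq_true mask_eq] at h
  obtain ⟨r, hr, hc⟩ := maskOf_testBit rows _ h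
  intro X Y hXY
  have h1 := row_sound r (chkAll_mem rows chkAll_true r hr) X Y hXY
  refine le_trans (le_of_eq ?_) h1
  refine Finset.sum_congr rfl fun j _ => Finset.sum_congr rfl fun k _ => ?_
  rw [Om_eq, hc]

theorem PP_of_cov (n : ℕ) : ∀ v : V, cov n (code v) = true → PP v := by
  induction n with
  | zero => intro v h; exact absurd h (by simp [cov])
  | succ n ih =>
    intro v h
    rw [cov] at h
    have h' : (Nat.beq (Nat.mod (Nat.shiftRight mask (code v)) 2) 1 || cov n (rotN (code v))) = true := h
    rw [Bool.or_eq_true] at h'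
    rcases h' with h1 | h1
    · apply PP_of_mask
      have h2 : Nat.mod (Nat.shiftRight mask (code v)) 2 = 1 := Nat.eq_of_beq_eq_true h1
      rw [Nat.testBit_eq_decide_div_mod_eq]
      apply decide_eq_true
      rw [← Nat.shiftRight_eq_div_pow]
      exact h2
    · apply PP_rot
      apply ih
      rw [code_rot]
      exact h1

/-- the comass inequality holds at every vertex -/
theorem PP_all (v : V) : PP v :=
  PP_of_cov 22 v (allN_iff _ _ cov_true _ (code_lt v))

end Pool.Agent.H74.FAC.Cert
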