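import Mathlib
import Pool.Agent.H74.FAC.Vert2

/-! Multi-affine extension of the vertex table. -/

namespace Pool.Agent.H74.FAC.Cert

/-- sign of a bit -/
def sgn (b : Bool) : ℝ := if b then 1 else -1

/-- multilinear weights -/
noncomputable def wt (s : Fin 11 → ℝ) (v : V) : ℝ := ∏ i, (1 + sgn (v i) * s i) / 2

/-- multi-affine extension of `B_k` -/
noncomputable def bt (k : ℕ) (s : Fin 11 → ℝ) : ℝ := ∑ v : V, wt s v * BK k v

theorem wt_nonneg {s : Fin 11 → ℝ} (hs : ∀ i, |s i| ≤ 1) (v : V) : 0 ≤ wt s v := by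
  refine Finset.prod_nonneg fun i _ => ?_
  have := abs_le.mp (hs i)
  rw [sgn]
  split_ifs <;> linarith [this.1, this.2]

theorem wt_sum (s : Fin 11 → ℝ) : ∑ v : V, wt s v = 1 := by
  have h := Finset.prod_univ_sum (fun _ : Fin 11 => (Finset.univ : Finset Bool))
    (fun i b => (1 + sgn b * s i) / 2)
  rw [Fintype.piFinset_univ] at h
  have h2 : ∑ v : V, wt s v = ∑ v : V, ∏ i, (1 + sgn (v i) * s i) / 2 := rfl
  rw [h2, ← h]
  refine Finset.prod_eq_one fun i _ => ?_
  simp [sgn]
  ring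

/-- flip bit `i` -/
def flip (i : Fin 11) (v : V) : V := Function.update v i (!(v i))

theorem flip_flip (i : Fin 11) (v : V) : flip i (flip i v) = v := by
  simp [flip]

theorem flip_invol (i : Fin 11) : Function.Involutive (flip i) := flip_flip i

/-- product over the other coordinates -/
noncomputable def pw (s : Fin 11 → ℝ) (i : Fin 11) (v : V) : ℝ :=
  ∏ j ∈ Finset.univ.erase i, (1 + sgn (v j) * s j) / 2

theorem wt_eq (s : Fin 11 → ℝ) (i : Fin 11) (v : V) :
    wt s v = (1 + sgn (v i) * s i) / 2 * pw s i v := by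
  exact (Finset.mul_prod_erase _ (fun j => (1 + sgn (v j) * s j) / 2) (Finset.mem_univ i)).symm

theorem pw_flip (s : Fin 11 → ℝ) (i : Fin 11) (v : V) : pw s i (flip i v) = pw s i v := by
  rw [pw, pw]
  refine Finset.prod_congr rfl fun j hj => ?_
  rw [flip, Function.update_of_ne (Finset.ne_of_mem_erase hj)]

theorem sgn_flip (i : Fin 11) (v : V) : sgn (flip i v i) = - sgn (v i) := by
  rw [flip, Function.update_self, sgn, sgn]
  cases v i <;> simp

theorem wt_flip (s : Fin 11 → ℝ) (i : Fin 11) (v : V) :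
    wt s v + wt s (flip i v) = pw s i v := by
  rw [wt_eq s i v, wt_eq s i (flip i v), pw_flip, sgn_flip]
  ring

theorem DB_flip (i : Fin 11) (k : ℕ) (v : V) :
    DB i k v = sgn (v i) * (BK k v - BK k (flip i v)) := by
  rw [DB, flip, sgn]
  rcases hb : v i with _ | _
  · have h1 : Function.update v i false = v := by rw [← hb, Function.update_eq_self]
    rw [h1]
    simp
  · have h1 : Function.update v i true = v := by rw [← hb, Function.update_eq_self]
    rw [h1]
    simp

theorem pw_sum (s : Fin 11 → ℝ) (i : Fin 11) (k : ℕ) :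
    ∑ v : V, pw s i v * sgn (v i) * BK k v = ∑ v : V, wt s v * DB i k v := by
  have h1 : ∑ v : V, wt s v * DB i k v
      = ∑ v : V, wt s v * sgn (v i) * BK k v - ∑ v : V, wt s v * sgn (v i) * BK k (flip i v) := by
    rw [← Finset.sum_sub_distrib]
    refine Finset.sum_congr rfl fun v _ => ?_
    rw [DB_flip]; ring
  have h2 : ∑ v : V, wt s v * sgn (v i) * BK k (flip i v)
      = - ∑ v : V, wt s (flip i v) * sgn (v i) * BK k v := by
    rw [← Equiv.sum_comp (flip_invol i).toPerm (fun v => wt s v * sgn (v i) * BK k (flip i v)),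
      ← Finset.sum_neg_distrib]
    refine Finset.sum_congr rfl fun v _ => ?_
    simp only [Function.Involutive.coe_toPerm]
    rw [flip_flip, sgn_flip]
    ring
  rw [h1, h2, sub_neg_eq_add, ← Finset.sum_add_distrib]
  refine Finset.sum_congr rfl fun v _ => ?_
  rw [← wt_flip s i v]
  ring

/-- derivative of the multi-affine extension -/
noncomputable def Dbt (k : ℕ) (s ξ : Fin 11 → ℝ) : ℝ :=
  ∑ v : V, wt s v * (1 / 2 * ∑ j, ξ j * DB j k v)

theorem hasFDerivAt_bt (k : ℕ) (s : Fin 11 → ℝ) :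
    ∃ L : (Fin 11 → ℝ) →L[ℝ] ℝ, HasFDerivAt (bt k) L s ∧ ∀ ξ, L ξ = Dbt k s ξ := by
  have hwt : ∀ v : V, HasFDerivAt (fun s => wt s v)
      (∑ i : Fin 11, (∏ j ∈ Finset.univ.erase i, (1 + sgn (v j) * s j) / 2) •
        ((sgn (v i) / 2) • (ContinuousLinearMap.proj i : (Fin 11 → ℝ) →L[ℝ] ℝ))) s := by
    intro v
    refine HasFDerivAt.finsetProd (u := Finset.univ)
      (g := fun (i : Fin 11) (s : Fin 11 → ℝ) => (1 + sgn (v i) * s i) / 2) ?_
    intro i _
    have h1 : HasFDerivAt (fun s : Fin 11 → ℝ => s i)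
        (ContinuousLinearMap.proj i : (Fin 11 → ℝ) →L[ℝ] ℝ) s := hasFDerivAt_apply i s
    have h2 := (h1.const_mul (sgn (v i) / 2)).const_add (1 / 2)
    refine h2.congr_of_eventuallyEq (Filter.Eventually.of_forall fun s => ?_)
    simp only
    ring
  refine ⟨∑ v : V, BK k v • (∑ i : Fin 11, (∏ j ∈ Finset.univ.erase i, (1 + sgn (v j) * s j) / 2) •
        ((sgn (v i) / 2) • (ContinuousLinearMap.proj i : (Fin 11 → ℝ) →L[ℝ] ℝ))), ?_, ?_⟩
  · have : bt k = fun s => ∑ v : V, wt s v * BK k v := rfl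
    rw [this]
    refine HasFDerivAt.fun_sum fun v _ => ?_
    exact (hwt v).mul_const (BK k v)
  · intro ξ
    rw [sum_apply]
    have e1 : ∀ v : V, (BK k v • (∑ i : Fin 11, (∏ j ∈ Finset.univ.erase i, (1 + sgn (v j) * s j) / 2) •
        ((sgn (v i) / 2) • (ContinuousLinearMap.proj i : (Fin 11 → ℝ) →L[ℝ] ℝ)))) ξ
        = ∑ i : Fin 11, 1 / 2 * ξ i * (pw s i v * sgn (v i) * BK k v) := by
      intro v
      rw [smul_apply, sum_apply, smul_eq_mul, Finset.mul_sum]
      refine Finset.sum_congr rfl fun i _ => ?_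
      rw [smul_apply, smul_apply,
        ContinuousLinearMap.proj_apply, smul_eq_mul, smul_eq_mul, pw]
      ring
    rw [Finset.sum_congr rfl fun v _ => e1 v, Finset.sum_comm]
    have e2 : ∀ i : Fin 11, ∑ v : V, 1 / 2 * ξ i * (pw s i v * sgn (v i) * BK k v)
        = ∑ v : V, wt s v * (1 / 2 * (ξ i * DB i k v)) := by
      intro i
      rw [← Finset.mul_sum, pw_sum, Finset.mul_sum]
      refine Finset.sum_congr rfl fun v _ => by ring
    rw [Finset.sum_congr rfl fun i _ => e2 i, Finset.sum_comm, Dbt]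
    refine Finset.sum_congr rfl fun v _ => ?_
    rw [← Finset.mul_sum, ← Finset.mul_sum]

theorem contDiff_bt (k : ℕ) : ContDiff ℝ 1 (bt k) := by
  have : bt k = fun s => ∑ v : V, wt s v * BK k v := rfl
  rw [this]
  refine ContDiff.sum fun v _ => ?_
  refine ContDiff.mul ?_ contDiff_const
  refine contDiff_prod fun i _ => ?_
  exact ((contDiff_const.add (contDiff_const.mul (contDiff_apply ℝ ℝ i)))).div_const 2

theorem fderiv_bt (k : ℕ) (s ξ : Fin 11 → ℝ) : fderiv ℝ (bt k) s ξ = Dbt k s ξ := by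
  obtain ⟨L, hL, hξ⟩ := hasFDerivAt_bt k s
  rw [hL.fderiv, hξ]

/-- the comass bound on the cube -/
theorem comass_cube {s : Fin 11 → ℝ} (hs : ∀ i, |s i| ≤ 1) (X Y : Fin 11 → ℝ)
    (hXY : ∀ i, X i ^ 2 + Y i ^ 2 ≤ 1) :
    ∑ k : Fin 11, (Dbt k s (del X) * del Y k - Dbt k s (del Y) * del X k) ≤ (MM : ℝ) / 2 := by
  have h1 : ∑ k : Fin 11, (Dbt k s (del X) * del Y k - Dbt k s (del Y) * del X k)
      = ∑ v : V, wt s v * (1 / 2 * ∑ j : Fin 11, ∑ k : Fin 11, Om v j k * del X j * del Y k) := by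
    have e1 : ∀ k : Fin 11, Dbt k s (del X) * del Y k - Dbt k s (del Y) * del X k
        = ∑ v : V, wt s v * (1 / 2 * ((∑ j, del X j * DB j k v) * del Y k
          - (∑ j, del Y j * DB j k v) * del X k)) := by
      intro k
      rw [Dbt, Dbt, Finset.sum_mul, Finset.sum_mul, ← Finset.sum_sub_distrib]
      refine Finset.sum_congr rfl fun v _ => by ring
    rw [Finset.sum_congr rfl fun k _ => e1 k, Finset.sum_comm]
    refine Finset.sum_congr rfl fun v _ => ?_
    rw [← Finset.mul_sum, ← Finset.mul_sum]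
    congr 2
    have e2 : ∀ k : Fin 11, (∑ j, del X j * DB j k v) * del Y k - (∑ j, del Y j * DB j k v) * del X k
        = (∑ j : Fin 11, DB j k v * del X j * del Y k) - ∑ j : Fin 11, DB j k v * del Y j * del X k := by
      intro k
      rw [Finset.sum_mul, Finset.sum_mul]
      congr 1
      · exact Finset.sum_congr rfl fun j _ => by ring
      · exact Finset.sum_congr rfl fun j _ => by ring
    rw [Finset.sum_congr rfl fun k _ => e2 k, Finset.sum_sub_distrib]
    have e3 : ∑ k : Fin 11, ∑ j : Fin 11, DB j k v * del X j * del Y k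
        = ∑ j : Fin 11, ∑ k : Fin 11, DB j k v * del X j * del Y k := Finset.sum_comm
    rw [e3, ← Finset.sum_sub_distrib]
    refine Finset.sum_congr rfl fun j _ => ?_
    rw [← Finset.sum_sub_distrib]
    refine Finset.sum_congr rfl fun k _ => ?_
    rw [Om]
    ring
  rw [h1]
  calc ∑ v : V, wt s v * (1 / 2 * ∑ j : Fin 11, ∑ k : Fin 11, Om v j k * del X j * del Y k)
      ≤ ∑ v : V, wt s v * (1 / 2 * (MM : ℝ)) := by
        refine Finset.sum_le_sum fun v _ => ?_
        refine mul_le_mul_of_nonneg_left ?_ (wt_nonneg hs v)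
        have := PP_all v X Y hXY
        linarith
    _ = (MM : ℝ) / 2 := by rw [← Finset.sum_mul, wt_sum]; ring

theorem comass_cube_abs {s : Fin 11 → ℝ} (hs : ∀ i, |s i| ≤ 1) (X Y : Fin 11 → ℝ)
    (hXY : ∀ i, X i ^ 2 + Y i ^ 2 ≤ 1) :
    |∑ k : Fin 11, (Dbt k s (del X) * del Y k - Dbt k s (del Y) * del X k)| ≤ (MM : ℝ) / 2 := by
  rw [abs_le]
  constructor
  · have h := comass_cube hs Y X (fun i => by have := hXY i; linarith)
    have e : ∑ k : Fin 11, (Dbt k s (del Y) * del X k - Dbt k s (del X) * del Y k)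
        = - ∑ k : Fin 11, (Dbt k s (del X) * del Y k - Dbt k s (del Y) * del X k) := by
      rw [← Finset.sum_neg_distrib]
      exact Finset.sum_congr rfl fun k _ => by ring
    rw [e] at h
    linarith
  · exact comass_cube hs X Y hXY

end Pool.Agent.H74.FAC.Cert
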