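import Mathlib
import Pool.Agent.H74.FAC.MA

/-! The calibrating 1-form in the `y`-coordinates. -/

namespace Pool.Agent.H74.FAC.Cert

open ContinuousLinearMap

/-- the mesh `π/11` -/
noncomputable def hh : ℝ := Real.pi / 11

theorem hh_pos : 0 < hh := div_pos Real.pi_pos (by norm_num)

/-- `y ↦ s` -/
noncomputable def SL : (Fin 11 → ℝ) →L[ℝ] (Fin 11 → ℝ) :=
  ContinuousLinearMap.pi fun j =>
    hh⁻¹ • ((ContinuousLinearMap.proj j : (Fin 11 → ℝ) →L[ℝ] ℝ)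
      - eps j • (ContinuousLinearMap.proj (j + 1) : (Fin 11 → ℝ) →L[ℝ] ℝ))

theorem SL_apply (y : Fin 11 → ℝ) (j : Fin 11) : SL y j = hh⁻¹ * del y j := by
  simp [SL, del]

theorem SL_eq (y : Fin 11 → ℝ) : SL y = hh⁻¹ • del y := by
  funext j
  rw [SL_apply]; rfl

theorem Dbt_smul (k : ℕ) (s : Fin 11 → ℝ) (c : ℝ) (ξ : Fin 11 → ℝ) :
    Dbt k s (c • ξ) = c * Dbt k s ξ := by
  rw [Dbt, Dbt, Finset.mul_sum]
  refine Finset.sum_congr rfl fun v _ => ?_
  have : ∑ j, (c • ξ) j * DB j k v = c * ∑ j, ξ j * DB j k v := by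
    rw [Finset.mul_sum]
    refine Finset.sum_congr rfl fun j _ => ?_
    rw [Pi.smul_apply, smul_eq_mul]; ring
  rw [this]; ring

/-- coefficients of the calibrating form -/
noncomputable def bb (i : Fin 11) (y : Fin 11 → ℝ) : ℝ :=
  (2 * hh / MM) * (bt i (SL y) - eps (i - 1) * bt ((i - 1 : Fin 11) : ℕ) (SL y))

theorem contDiff_bb (i : Fin 11) : ContDiff ℝ 1 (bb i) := by
  have h1 : ∀ k : ℕ, ContDiff ℝ 1 (fun y => bt k (SL y)) := fun k =>
    (contDiff_bt k).comp SL.contDiff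
  exact contDiff_const.mul ((h1 _).sub (contDiff_const.mul (h1 _)))

theorem fderiv_bb (i : Fin 11) (y ξ : Fin 11 → ℝ) :
    fderiv ℝ (bb i) y ξ = (2 / MM) * (Dbt i (SL y) (del ξ)
      - eps (i - 1) * Dbt ((i - 1 : Fin 11) : ℕ) (SL y) (del ξ)) := by
  have h1 : ∀ k : ℕ, HasFDerivAt (fun y => bt k (SL y)) ((fderiv ℝ (bt k) (SL y)).comp SL) y := by
    intro k
    have h2 : HasFDerivAt (bt k) (fderiv ℝ (bt k) (SL y)) (SL y) :=
      ((contDiff_bt k).differentiable (by norm_num) _).hasFDerivAt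
    exact h2.comp y SL.hasFDerivAt
  have h3 : HasFDerivAt (bb i) ((2 * hh / MM) • ((fderiv ℝ (bt i) (SL y)).comp SL
      - eps (i - 1) • (fderiv ℝ (bt ((i - 1 : Fin 11) : ℕ)) (SL y)).comp SL)) y :=
    (((h1 _).sub ((h1 _).const_mul _))).const_mul _
  rw [h3.fderiv]
  simp only [smul_apply, sub_apply, ContinuousLinearMap.comp_apply, smul_eq_mul]
  rw [fderiv_bt, fderiv_bt, SL_eq ξ, Dbt_smul, Dbt_smul]
  have := hh_pos.ne'
  field_simp

theorem MM_pos : (0 : ℝ) < (MM : ℝ) := by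
  have : (0 : ℕ) < MM := by decide
  exact_mod_cast this

theorem comass_bb {y : Fin 11 → ℝ} (hy : ∀ i, |SL y i| ≤ 1) (X Y : Fin 11 → ℝ)
    (hXY : ∀ i, X i ^ 2 + Y i ^ 2 ≤ 1) :
    |∑ i : Fin 11, ∑ j : Fin 11, fderiv ℝ (bb i) y (Pi.single j 1) * (X j * Y i - Y j * X i)| ≤ 1 := by
  have hlin : ∀ (i : Fin 11) (Z : Fin 11 → ℝ), ∑ j : Fin 11, fderiv ℝ (bb i) y (Pi.single j 1) * Z j
      = fderiv ℝ (bb i) y Z := by
    intro i Z
    conv_rhs => rw [← Finset.univ_sum_single Z, map_sum]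
    refine Finset.sum_congr rfl fun j _ => ?_
    have : (Pi.single j (Z j) : Fin 11 → ℝ) = Z j • (Pi.single j (1 : ℝ) : Fin 11 → ℝ) := by
      rw [← Pi.single_smul, smul_eq_mul, mul_one]
    rw [this, map_smul, smul_eq_mul]
    ring
  have e1 : ∀ i : Fin 11, ∑ j : Fin 11, fderiv ℝ (bb i) y (Pi.single j 1) * (X j * Y i - Y j * X i)
      = fderiv ℝ (bb i) y X * Y i - fderiv ℝ (bb i) y Y * X i := by
    intro i
    rw [← hlin i X, ← hlin i Y, Finset.sum_mul, Finset.sum_mul, ← Finset.sum_sub_distrib]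
    exact Finset.sum_congr rfl fun j _ => by ring
  rw [Finset.sum_congr rfl fun i _ => e1 i, Finset.sum_sub_distrib]
  have e2 : ∀ X Y : Fin 11 → ℝ, ∑ i : Fin 11, fderiv ℝ (bb i) y X * Y i
      = 2 / MM * ∑ k : Fin 11, Dbt k (SL y) (del X) * del Y k := by
    intro X Y
    rw [sum_del (fun k => Dbt k (SL y) (del X)) Y, Finset.mul_sum]
    refine Finset.sum_congr rfl fun i _ => ?_
    rw [fderiv_bb]
    ring
  rw [e2, e2, ← mul_sub, ← Finset.sum_sub_distrib, abs_mul, abs_of_pos (div_pos two_pos MM_pos)]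
  have h := comass_cube_abs hy X Y hXY
  have hM := MM_pos
  calc 2 / (MM : ℝ) * |∑ k : Fin 11, (Dbt k (SL y) (del X) * del Y k - Dbt k (SL y) (del Y) * del X k)|
      ≤ 2 / (MM : ℝ) * ((MM : ℝ) / 2) := mul_le_mul_of_nonneg_left h (by positivity)
    _ = 1 := by field_simp

end Pool.Agent.H74.FAC.Cert
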