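import Mathlib
import Pool.Agent.H74.FAC.Form

/-! Rotation invariance of the multi-affine extension. -/

namespace Pool.Agent.H74.FAC.Cert

/-- rotation of the cube -/
def rotS (s : Fin 11 → ℝ) (j : Fin 11) : ℝ := eps j * s (j + 1)

theorem sgn_rot (v : V) (j : Fin 11) : sgn (rot v j) = eps j * sgn (v (j + 1)) := by
  rw [rot, sgn, sgn, eps]
  by_cases h : j = 10
  · rw [decide_eq_true h, if_pos h]
    cases v (j + 1) <;> simp
  · rw [decide_eq_false h, if_neg h]
    cases v (j + 1) <;> simp

theorem wt_rot (s : Fin 11 → ℝ) (v : V) : wt (rotS s) (rot v) = wt s v := by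
  rw [wt, wt]
  rw [← Equiv.prod_comp (Equiv.addRight (1 : Fin 11)) (fun i => (1 + sgn (v i) * s i) / 2)]
  refine Finset.prod_congr rfl fun j _ => ?_
  simp only [Equiv.coe_addRight]
  rw [sgn_rot, rotS]
  have : eps j * sgn (v (j + 1)) * (eps j * s (j + 1)) = (eps j * eps j) * (sgn (v (j + 1)) * s (j + 1)) := by
    ring
  rw [this, eps_sq, one_mul]

theorem rot_injective : Function.Injective rot := by
  have h : Function.Injective (rot^[11]) := by
    intro v w hvw
    rw [rot_iter11, rot_iter11] at hvw
    funext i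
    have := congrFun hvw i
    simpa using this
  have h2 : (rot^[11]) = (rot^[10]) ∘ rot := Function.iterate_succ rot 10
  rw [h2] at h
  exact Function.Injective.of_comp h

theorem bt_rot (k : ℕ) (s : Fin 11 → ℝ) : bt (k + 1) s = bt k (rotS s) := by
  have hb : Function.Bijective rot := Finite.injective_iff_bijective.mp rot_injective
  rw [bt, bt, ← hb.sum_comp (fun v => wt (rotS s) v * BK k v)]
  refine Finset.sum_congr rfl fun v _ => ?_
  rw [wt_rot, BK_rot]

theorem bt_11 (s : Fin 11 → ℝ) : bt 11 s = - bt 0 s := by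
  rw [bt, bt, ← Finset.sum_neg_distrib]
  refine Finset.sum_congr rfl fun v _ => ?_
  rw [BK_11]; ring

theorem bt_succ (k : Fin 11) (s : Fin 11 → ℝ) :
    bt ((k + 1 : Fin 11) : ℕ) s = eps k * bt ((k : ℕ) + 1) s := by
  have hk : ((k + 1 : Fin 11) : ℕ) = if (k : ℕ) = 10 then 0 else (k : ℕ) + 1 := by
    revert k; decide
  have hk10 : (k = 10) ↔ (k : ℕ) = 10 := by
    revert k; decide
  by_cases h : k = 10
  · have h' := hk10.mp h
    rw [hk, if_pos h', h', eps, if_pos h]
    have := bt_11 s
    rw [show (10 : ℕ) + 1 = 11 by norm_num, this]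
    ring
  · have h' : ¬ ((k : ℕ) = 10) := fun hh => h (hk10.mpr hh)
    rw [hk, if_neg h', eps, if_neg h, one_mul]

/-- value of the form on `(s, ds)` where `s = SL y`, `y' = z`. -/
noncomputable def FF (y z : Fin 11 → ℝ) : ℝ := ∑ k : Fin 11, bt k (SL y) * del z k

theorem sum_bb (y z : Fin 11 → ℝ) : ∑ i : Fin 11, bb i y * z i = 2 * hh / MM * FF y z := by
  rw [FF, sum_del (fun k => bt k (SL y)) z, Finset.mul_sum]
  refine Finset.sum_congr rfl fun i _ => ?_
  rw [bb]; ring

/-- invariance of the form under the rotation -/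
theorem FF_rot {y z y' z' : Fin 11 → ℝ} (hy : ∀ j, y' (j + 1) = eps j * y j)
    (hz : ∀ j, z' (j + 1) = eps j * z j) : FF y' z' = FF y z := by
  have hdel : ∀ {u u' : Fin 11 → ℝ}, (∀ j, u' (j + 1) = eps j * u j) →
      ∀ j, del u' (j + 1) = eps j * del u j := by
    intro u u' hu j
    rw [del, del, hu, hu]
    calc eps j * u j - eps (j + 1) * (eps (j + 1) * u (j + 1))
        = eps j * u j - (eps (j + 1) * eps (j + 1)) * u (j + 1) := by ring
      _ = eps j * u j - (eps j * eps j) * u (j + 1) := by rw [eps_sq, eps_sq]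
      _ = _ := by ring
  have hS : rotS (SL y') = SL y := by
    funext j
    rw [rotS, SL_apply, SL_apply, hdel hy]
    calc eps j * (hh⁻¹ * (eps j * del y j)) = (eps j * eps j) * (hh⁻¹ * del y j) := by ring
      _ = _ := by rw [eps_sq, one_mul]
  rw [FF, FF, ← Equiv.sum_comp (Equiv.addRight (1 : Fin 11))]
  refine Finset.sum_congr rfl fun k _ => ?_
  simp only [Equiv.coe_addRight]
  rw [hdel hz, bt_succ, bt_rot, hS]
  calc eps k * bt k (SL y) * (eps k * del z k) = (eps k * eps k) * (bt k (SL y) * del z k) := by ring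
    _ = _ := by rw [eps_sq, one_mul]

/-- values of the table at the two base vertices -/
theorem tab_zero : tab 0 = 791019 := by decide +kernel

theorem tab_one : tab 1 = 791019 := by decide +kernel

/-- value of the extension on the base edge -/
theorem bt_edge {s : Fin 11 → ℝ} (hs : ∀ j : Fin 11, j ≠ 0 → s j = -1) : bt 0 s = 791019 := by
  set v0 : V := fun _ => false with hv0
  set v1 : V := Function.update (fun _ => false) 0 true with hv1
  have hne : v0 ≠ v1 := by
    intro h
    have := congrFun h 0
    simp [hv0, hv1] at this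
  have h1 : bt 0 s = ∑ v ∈ ({v0, v1} : Finset V), wt s v * BK 0 v := by
    rw [bt]
    symm
    apply Finset.sum_subset (Finset.subset_univ _)
    intro v _ hv
    have : ∃ j : Fin 11, j ≠ 0 ∧ v j = true := by
      by_contra hcon
      push Not at hcon
      apply hv
      rw [Finset.mem_insert, Finset.mem_singleton]
      rcases h0 : v 0 with _ | _
      · left
        funext j
        by_cases hj : j = 0
        · rw [hj, h0]
        · have := hcon j hj
          rw [hv0]; simpa using this
      · right
        funext j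
        by_cases hj : j = 0
        · rw [hj, h0, hv1]; simp
        · have := hcon j hj
          rw [hv1, Function.update_of_ne hj]; simpa using this
    obtain ⟨j, hj, hvj⟩ := this
    have : wt s v = 0 := by
      rw [wt]
      apply Finset.prod_eq_zero (Finset.mem_univ j)
      rw [hvj, hs j hj, sgn]
      norm_num
    rw [this, zero_mul]
  have hw : ∀ v : V, (∀ j : Fin 11, j ≠ 0 → v j = false) → wt s v = (1 + sgn (v 0) * s 0) / 2 := by
    intro v hv
    rw [wt, Finset.prod_eq_single (0 : Fin 11)]
    · intro j _ hj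
      rw [hv j hj, hs j hj, sgn]
      norm_num
    · intro h; exact absurd (Finset.mem_univ _) h
  have hc0 : code v0 = 0 := by rw [code_eq]; simp [hv0]
  have hc1 : code v1 = 1 := by rw [code_eq]; simp [hv1]
  have hB0 : BK 0 v0 = 791019 := by
    have : BK 0 v0 = ((tab (code v0) : ℤ) : ℝ) := rfl
    rw [this, hc0, tab_zero]; norm_num
  have hB1 : BK 0 v1 = 791019 := by
    have : BK 0 v1 = ((tab (code v1) : ℤ) : ℝ) := rfl
    rw [this, hc1, tab_one]; norm_num
  rw [h1, Finset.sum_pair hne, hB0, hB1, hw v0 (fun j _ => rfl), hw v1 (fun j hj => by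
    rw [hv1, Function.update_of_ne hj])]
  simp [hv0, hv1, sgn]
  ring

end Pool.Agent.H74.FAC.Cert
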