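import Pool.Agent.H74.FAC.Geo2
import Pool.Agent.H74.FAC.Rot

open MeasureTheory Set Filter Measure Manifold Bundle
open scoped ContDiff Topology ENNReal NNReal

noncomputable section

namespace Pool.Agent.H74.FAC

open Cert

/-- `G(u) = dist(0,u) - π/2` on the circle -/
def GG (u : ℝ) : ℝ := dist (0 : S1) (u : S1) - Real.pi / 2

lemma GG_of_abs {u : ℝ} (h : |u| ≤ Real.pi) : GG u = |u| - Real.pi / 2 := by
  have h1 : dist ((0 : ℝ) : S1) (u : S1) = |0 - u| := dist_circle (by simpa using h)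
  have h0 : ((0 : ℝ) : S1) = 0 := by simp
  rw [GG, ← h0, h1, zero_sub, abs_neg]

lemma GG_periodic (u : ℝ) : GG (u + 2 * Real.pi) = GG u := by
  rw [GG, GG, coe_add_period]

lemma GG_pi (u : ℝ) : GG (u + Real.pi) = - GG u := by
  obtain ⟨t, ht, hd⟩ := exists_lift (u : S1) 0
  have hpi := Real.pi_pos
  have ht' : |t| ≤ Real.pi := by
    rw [sub_zero] at hd
    rw [hd, dist_eq_norm]
    have h0 : ((0 : ℝ) : S1) = 0 := by simp
    rw [h0, sub_zero]
    have := AddCircle.norm_le_half_period (p := 2 * Real.pi) (x := (u : S1)) (by positivity)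
    rw [abs_of_pos (by positivity)] at this
    linarith
  have e1 : GG (u + Real.pi) = GG (t + Real.pi) := by
    rw [GG, GG, AddCircle.coe_add, AddCircle.coe_add, ht]
  have e2 : GG u = GG t := by rw [GG, GG, ht]
  rw [e1, e2, GG_of_abs ht']
  have habs := abs_le.mp ht'
  by_cases h : t ≤ 0
  · rw [GG_of_abs (by rw [abs_le]; constructor <;> linarith [habs.1]), abs_of_nonpos h,
      abs_of_nonneg (by linarith [habs.1])]
    ring
  · have : GG (t + Real.pi) = GG (t - Real.pi) := by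
      rw [← GG_periodic (t - Real.pi)]
      congr 1; ring
    rw [this, GG_of_abs (by rw [abs_le]; constructor <;> linarith [habs.2]),
      abs_of_nonneg (le_of_not_ge h), abs_of_nonpos (by linarith [habs.2])]
    ring

variable {M : Type} [MetricSpace M]

/-- the functions `y_k = (d(p_k,·) - d(p_{k+11},·))/2` -/
def ff (φ : S1 → M) (k : Fin 11) (x : M) : ℝ :=
  (dist (φ (((k : ℕ) * hh : ℝ) : S1)) x - dist (φ (((k : ℕ) * hh + Real.pi : ℝ) : S1)) x) / 2

lemma ff_lip (φ : S1 → M) (k : Fin 11) : LipschitzWith 1 (ff φ k) := by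
  apply LipschitzWith.of_dist_le_mul
  intro x y
  rw [NNReal.coe_one, one_mul, Real.dist_eq, ff, ff]
  have h1 : ∀ p : M, |dist p x - dist p y| ≤ dist x y := fun p => by
    have := abs_dist_sub_le x y p
    rwa [dist_comm x p, dist_comm y p] at this
  have h2 := abs_le.mp (h1 (φ (((k : ℕ) * hh : ℝ) : S1)))
  have h3 := abs_le.mp (h1 (φ (((k : ℕ) * hh + Real.pi : ℝ) : S1)))
  rw [abs_le]
  constructor <;> linarith [h2.1, h2.2, h3.1, h3.2]

lemma eleven_hh : (11 : ℝ) * hh = Real.pi := by rw [hh]; ring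

variable [ChartedSpace HP M]

lemma dist_diff_le {φ : S1 → M} (hφ : IsometricFilling φ) (a b : ℝ) (x : M) :
    |dist (φ (a : S1)) x - dist (φ (b : S1)) x| ≤ |a - b| := by
  refine (abs_dist_sub_le _ _ _).trans ?_
  rw [hφ.dist_eq]
  exact dist_circle_le a b

lemma SL_ff_le {φ : S1 → M} (hφ : IsometricFilling φ) (x : M) (j : Fin 11) :
    |SL (fun k => ff φ k x) j| ≤ 1 := by
  have hpos := hh_pos
  have key : |del (fun k => ff φ k x) j| ≤ hh := by
    by_cases h : j = 10
    · subst h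
      have e : del (fun k => ff φ k x) 10 = ((dist (φ ((10 * hh : ℝ) : S1)) x
          - dist (φ ((Real.pi : ℝ) : S1)) x) + (dist (φ ((2 * Real.pi : ℝ) : S1)) x
          - dist (φ ((10 * hh + Real.pi : ℝ) : S1)) x)) / 2 := by
        have h0 : ((2 * Real.pi : ℝ) : S1) = ((0 : ℝ) : S1) := by
          have := coe_add_period 0
          rwa [zero_add] at this
        rw [del, eps, if_pos rfl]
        have h10 : ((10 : Fin 11) + 1 : Fin 11) = 0 := rfl
        rw [h10, h0, ff, ff]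
        have v10 : (((10 : Fin 11) : ℕ) : ℝ) = 10 := by norm_num
        have v0 : (((0 : Fin 11) : ℕ) : ℝ) = 0 := by norm_num
        rw [v10, v0, zero_mul, zero_add]
        ring
      rw [e]
      have h1 := abs_le.mp (dist_diff_le hφ (10 * hh) Real.pi x)
      have h2 := abs_le.mp (dist_diff_le hφ (2 * Real.pi) (10 * hh + Real.pi) x)
      have e1 : |10 * hh - Real.pi| = hh := by
        rw [← eleven_hh, show 10 * hh - 11 * hh = -hh by ring, abs_neg, abs_of_pos hpos]
      have e2 : |2 * Real.pi - (10 * hh + Real.pi)| = hh := by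
        rw [show 2 * Real.pi - (10 * hh + Real.pi) = Real.pi - 10 * hh by ring, ← eleven_hh,
          show 11 * hh - 10 * hh = hh by ring, abs_of_pos hpos]
      rw [e1] at h1
      rw [e2] at h2
      rw [abs_le]
      constructor <;> linarith [h1.1, h1.2, h2.1, h2.2]
    · have hv : (((j + 1 : Fin 11) : ℕ) : ℝ) = (j : ℕ) + 1 := by
        have : ∀ j : Fin 11, j ≠ 10 → ((j + 1 : Fin 11) : ℕ) = (j : ℕ) + 1 := by decide
        rw [this j h]; push_cast; ring
      have e : del (fun k => ff φ k x) j = ((dist (φ (((j : ℕ) * hh : ℝ) : S1)) x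
          - dist (φ (((((j : ℕ) : ℝ) + 1) * hh : ℝ) : S1)) x)
          - (dist (φ (((j : ℕ) * hh + Real.pi : ℝ) : S1)) x
          - dist (φ (((((j : ℕ) : ℝ) + 1) * hh + Real.pi : ℝ) : S1)) x)) / 2 := by
        rw [del, eps, if_neg h, ff, ff, hv]
        ring
      rw [e]
      have h1 := abs_le.mp (dist_diff_le hφ ((j : ℕ) * hh) ((((j : ℕ) : ℝ) + 1) * hh) x)
      have h2 := abs_le.mp (dist_diff_le hφ ((j : ℕ) * hh + Real.pi)
        ((((j : ℕ) : ℝ) + 1) * hh + Real.pi) x)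
      have e1 : |(j : ℕ) * hh - (((j : ℕ) : ℝ) + 1) * hh| = hh := by
        rw [show (j : ℕ) * hh - (((j : ℕ) : ℝ) + 1) * hh = -hh by ring, abs_neg, abs_of_pos hpos]
      have e2 : |(j : ℕ) * hh + Real.pi - ((((j : ℕ) : ℝ) + 1) * hh + Real.pi)| = hh := by
        rw [show (j : ℕ) * hh + Real.pi - ((((j : ℕ) : ℝ) + 1) * hh + Real.pi) = -hh by ring,
          abs_neg, abs_of_pos hpos]
      rw [e1] at h1
      rw [e2] at h2
      rw [abs_le]
      constructor <;> linarith [h1.1, h1.2, h2.1, h2.2]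
  rw [SL_apply, abs_mul, abs_of_pos (inv_pos.mpr hpos)]
  calc hh⁻¹ * |del (fun k => ff φ k x) j| ≤ hh⁻¹ * hh :=
        mul_le_mul_of_nonneg_left key (inv_pos.mpr hpos).le
    _ = 1 := inv_mul_cancel₀ hpos.ne'

/-- boundary values -/
lemma ff_bdry {φ : S1 → M} (hφ : IsometricFilling φ) (k : Fin 11) (t : ℝ) :
    ff φ k (φ (t : S1)) = GG (t - (k : ℕ) * hh) := by
  have h : ∀ a : ℝ, dist (φ (a : S1)) (φ (t : S1)) = GG (t - a) + Real.pi / 2 := by
    intro a
    rw [hφ.dist_eq, GG, sub_add_cancel, dist_eq_norm, dist_eq_norm, ← AddCircle.coe_sub, zero_sub,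
      norm_neg, ← norm_neg, ← AddCircle.coe_neg, neg_sub]
  rw [ff, h, h]
  have h2 : GG (t - ((k : ℕ) * hh + Real.pi)) = - GG (t - (k : ℕ) * hh) := by
    have := GG_pi (t - ((k : ℕ) * hh + Real.pi))
    rw [show t - ((k : ℕ) * hh + Real.pi) + Real.pi = t - (k : ℕ) * hh by ring] at this
    rw [this, neg_neg]
  rw [h2]
  ring

/-- the boundary curve in `y`-space -/
def yb (t : ℝ) (k : Fin 11) : ℝ := GG (t - (k : ℕ) * hh)

/-- its derivative -/
def zb (t : ℝ) (k : Fin 11) : ℝ := deriv (fun t => yb t k) t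

lemma yb_shift (t : ℝ) (j : Fin 11) : yb (t + hh) (j + 1) = eps j * yb t j := by
  rw [yb, yb, eps]
  by_cases h : j = 10
  · subst h
    have h10 : ((10 : Fin 11) + 1 : Fin 11) = 0 := rfl
    rw [h10, if_pos rfl]
    have v10 : (((10 : Fin 11) : ℕ) : ℝ) = 10 := by norm_num
    have v0 : (((0 : Fin 11) : ℕ) : ℝ) = 0 := by norm_num
    rw [v10, v0, zero_mul, sub_zero, neg_one_mul, ← GG_pi, ← eleven_hh]
    congr 1; ring
  · have hv : (((j + 1 : Fin 11) : ℕ) : ℝ) = (j : ℕ) + 1 := by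
      have : ∀ j : Fin 11, j ≠ 10 → ((j + 1 : Fin 11) : ℕ) = (j : ℕ) + 1 := by decide
      rw [this j h]; push_cast; ring
    rw [if_neg h, hv, one_mul]
    congr 1; ring

lemma zb_shift (t : ℝ) (j : Fin 11) : zb (t + hh) (j + 1) = eps j * zb t j := by
  have h1 : deriv (fun t => yb (t + hh) (j + 1)) t = deriv (fun t => yb t (j + 1)) (t + hh) :=
    deriv_comp_add_const (f := fun t => yb t (j + 1)) hh t
  rw [zb, zb, ← h1]
  have : (fun t => yb (t + hh) (j + 1)) = fun t => eps j * yb t j := funext fun t => yb_shift t j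
  rw [this]
  exact deriv_const_mul_field _

/-- the boundary integrand -/
def Phi (t : ℝ) : ℝ := ∑ i : Fin 11, bb i (yb t) * zb t i

lemma Phi_eq (t : ℝ) : Phi t = 2 * hh / MM * FF (yb t) (zb t) := sum_bb _ _

lemma Phi_periodic : Function.Periodic Phi hh := by
  intro t
  rw [Phi_eq, Phi_eq, FF_rot (yb_shift t) (zb_shift t)]

/-- values on the first interval -/
lemma yb_zero {t : ℝ} (h0 : 0 < t) (h1 : t < hh) : yb t 0 = t - Real.pi / 2 := by
  have v0 : (((0 : Fin 11) : ℕ) : ℝ) = 0 := by norm_num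
  have := eleven_hh
  have := hh_pos
  rw [yb, v0, zero_mul, sub_zero, GG_of_abs (by rw [abs_of_pos h0]; linarith), abs_of_pos h0]

lemma yb_pos {t : ℝ} (h0 : 0 < t) (h1 : t < hh) {j : Fin 11} (hj : j ≠ 0) :
    yb t j = (j : ℕ) * hh - t - Real.pi / 2 := by
  have e := eleven_hh
  have hp := hh_pos
  have h1' : (1 : ℝ) ≤ ((j : ℕ) : ℝ) := by
    have : 1 ≤ (j : ℕ) := Nat.one_le_iff_ne_zero.mpr (fun h => hj (Fin.ext h))
    exact_mod_cast this
  have h2' : ((j : ℕ) : ℝ) ≤ 10 := by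
    have : (j : ℕ) ≤ 10 := Nat.lt_succ_iff.mp j.2
    exact_mod_cast this
  have a1 : hh ≤ ((j : ℕ) : ℝ) * hh := by nlinarith
  have a2 : ((j : ℕ) : ℝ) * hh ≤ 10 * hh := by nlinarith
  have hneg : t - (j : ℕ) * hh ≤ 0 := by linarith
  rw [yb, GG_of_abs (by rw [abs_of_nonpos hneg]; linarith), abs_of_nonpos hneg]
  ring

lemma zb_zero {t : ℝ} (h0 : 0 < t) (h1 : t < hh) : zb t 0 = 1 := by
  have h : (fun t => yb t 0) =ᶠ[𝓝 t] fun t => t - Real.pi / 2 := by
    filter_upwards [Ioo_mem_nhds h0 h1] with s hs using yb_zero hs.1 hs.2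
  rw [zb, h.deriv_eq, deriv_sub_const, deriv_id'']

lemma zb_pos {t : ℝ} (h0 : 0 < t) (h1 : t < hh) {j : Fin 11} (hj : j ≠ 0) : zb t j = -1 := by
  have h : (fun t => yb t j) =ᶠ[𝓝 t] fun t => (j : ℕ) * hh - t - Real.pi / 2 := by
    filter_upwards [Ioo_mem_nhds h0 h1] with s hs using yb_pos hs.1 hs.2 hj
  rw [zb, h.deriv_eq, deriv_sub_const, deriv_const_sub, deriv_id'']

lemma Phi_val {t : ℝ} (h0 : 0 < t) (h1 : t < hh) : Phi t = 2 * hh / MM * (2 * 791019) := by
  have hp := hh_pos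
  have e := eleven_hh
  have hs : ∀ j : Fin 11, j ≠ 0 → SL (yb t) j = -1 := by
    intro j hj
    rw [SL_apply, del]
    have hdel : yb t j - eps j * yb t (j + 1) = -hh := by
      by_cases h : j = 10
      · subst h
        have h10 : ((10 : Fin 11) + 1 : Fin 11) = 0 := rfl
        have v10 : (((10 : Fin 11) : ℕ) : ℝ) = 10 := by norm_num
        rw [h10, eps, if_pos rfl, yb_zero h0 h1, yb_pos h0 h1 hj, v10]
        linarith
      · have hv : (((j + 1 : Fin 11) : ℕ) : ℝ) = (j : ℕ) + 1 := by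
          have : ∀ j : Fin 11, j ≠ 10 → ((j + 1 : Fin 11) : ℕ) = (j : ℕ) + 1 := by decide
          rw [this j h]; push_cast; ring
        have hj1 : j + 1 ≠ 0 := by
          have : ∀ j : Fin 11, j ≠ 10 → j + 1 ≠ 0 := by decide
          exact this j h
        rw [eps, if_neg h, yb_pos h0 h1 hj, yb_pos h0 h1 hj1, hv]
        ring
    rw [hdel, mul_neg, inv_mul_cancel₀ hp.ne']
  have hd : ∀ j : Fin 11, j ≠ 0 → del (zb t) j = 0 := by
    intro j hj
    rw [del]
    by_cases h : j = 10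
    · subst h
      have h10 : ((10 : Fin 11) + 1 : Fin 11) = 0 := rfl
      rw [h10, eps, if_pos rfl, zb_zero h0 h1, zb_pos h0 h1 hj]
      norm_num
    · have hj1 : j + 1 ≠ 0 := by
        have : ∀ j : Fin 11, j ≠ 10 → j + 1 ≠ 0 := by decide
        exact this j h
      rw [eps, if_neg h, zb_pos h0 h1 hj, zb_pos h0 h1 hj1]
      norm_num
  have hd0 : del (zb t) 0 = 2 := by
    have h01 : (0 : Fin 11) ≠ 10 := by decide
    have h1' : (0 + 1 : Fin 11) ≠ 0 := by decide
    rw [del, eps, if_neg h01, zb_zero h0 h1, zb_pos h0 h1 h1']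
    norm_num
  rw [Phi_eq, FF, Finset.sum_eq_single (0 : Fin 11)]
  · rw [hd0]
    have : bt ((0 : Fin 11) : ℕ) (SL (yb t)) = 791019 := bt_edge hs
    rw [this]; ring
  · intro j _ hj
    rw [hd j hj, mul_zero]
  · intro h; exact absurd (Finset.mem_univ _) h

end Pool.Agent.H74.FAC
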