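import Mathlib

open MeasureTheory Set Filter Measure
open scoped ContDiff Topology ENNReal NNReal

noncomputable section

namespace Pool.Agent.H74.FAC

lemma null_image {τ : ℝ → ℝ} {K : ℝ≥0} (hτ : LipschitzWith K τ) {N : Set ℝ} (hN : volume N = 0) :
    volume (τ '' N) = 0 := by
  have h := hτ.hausdorffMeasure_image_le (d := 1) zero_le_one N
  rw [hausdorffMeasure_real, hN, mul_zero] at h
  exact nonpos_iff_eq_zero.1 h

lemma hasDerivAt_comp_zero {τ w : ℝ → ℝ} {L : ℝ≥0} (hw : LipschitzWith L w) {s : ℝ}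
    (hd : HasDerivAt τ 0 s) : HasDerivAt (fun s => w (τ s)) 0 s := by
  rw [hasDerivAt_iff_isLittleO] at hd ⊢
  simp only [smul_zero, sub_zero] at hd ⊢
  have h1 : (fun x' => w (τ x') - w (τ s)) =O[𝓝 s] (fun x' => τ x' - τ s) := by
    apply Asymptotics.IsBigO.of_bound L
    filter_upwards with x
    have := hw.dist_le_mul (τ x) (τ s)
    rwa [dist_eq_norm, dist_eq_norm] at this
  exact h1.trans_isLittleO hd

/-- one dimensional change of variables for Lipschitz functions -/
theorem cv {J : Set ℝ} (hJ : MeasurableSet J) {τ : ℝ → ℝ} {K : ℝ≥0} (hτ : LipschitzWith K τ)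
    (hinj : InjOn τ J) {w : ℝ → ℝ} {L : ℝ≥0} (hw : LipschitzWith L w) (u : ℝ → ℝ) {σ : ℝ}
    (hσ : ∀ s ∈ J, |deriv τ s| = σ * deriv τ s) :
    σ * ∫ s in J, u (τ s) * deriv (fun s => w (τ s)) s = ∫ t in τ '' J, u t * deriv w t := by
  set A : Set ℝ := J ∩ {s | DifferentiableAt ℝ τ s} with hA
  have mA : MeasurableSet A := hJ.inter (measurableSet_of_differentiableAt ℝ τ)
  have nA : volume (J \ A) = 0 := by
    have h := hτ.ae_differentiableAt_real
    rw [ae_iff] at h
    refine measure_mono_null ?_ h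
    rintro s ⟨hs, hs'⟩
    intro hd
    exact hs' ⟨hs, hd⟩
  have e1 : ∫ t in τ '' J, u t * deriv w t = ∫ t in τ '' A, u t * deriv w t := by
    apply setIntegral_congr_set
    have : τ '' J = τ '' A ∪ τ '' (J \ A) := by
      rw [← image_union, union_sdiff_cancel inter_subset_left]
    rw [this]
    exact union_ae_eq_left_of_ae_eq_empty (ae_eq_empty.2 (null_image hτ nA))
  have e2 : ∫ t in τ '' A, u t * deriv w t = ∫ s in A, |deriv τ s| • (u (τ s) * deriv w (τ s)) := by
    apply integral_image_eq_integral_abs_deriv_smul mA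
    · intro s hs
      exact hs.2.hasDerivAt.hasDerivWithinAt
    · exact hinj.mono inter_subset_left
  have e3 : ∫ s in J, u (τ s) * deriv (fun s => w (τ s)) s
      = ∫ s in A, u (τ s) * deriv (fun s => w (τ s)) s := by
    apply setIntegral_congr_set
    have : J = A ∪ (J \ A) := (union_sdiff_cancel inter_subset_left).symm
    conv_lhs => rw [this]
    exact union_ae_eq_left_of_ae_eq_empty (ae_eq_empty.2 nA)
  -- the bad set
  set N : Set ℝ := {t | DifferentiableAt ℝ w t}ᶜ with hN
  have mN : MeasurableSet N := (measurableSet_of_differentiableAt ℝ w).compl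
  have nN : volume N = 0 := by
    have h := hw.ae_differentiableAt_real
    rw [ae_iff] at h
    exact h
  set B : Set ℝ := A ∩ τ ⁻¹' N with hB
  have mB : MeasurableSet B := mA.inter (hτ.continuous.measurable mN)
  have hzero : ∀ᵐ s ∂(volume.restrict B), deriv τ s = 0 := by
    have h := lintegral_image_eq_lintegral_abs_deriv_mul mB (f := τ) (f' := deriv τ)
      (fun s hs => hs.1.2.hasDerivAt.hasDerivWithinAt)
      (hinj.mono (inter_subset_left.trans inter_subset_left)) (fun _ => 1)
    have h0 : ∫⁻ x in τ '' B, (1 : ℝ≥0∞) = 0 := by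
      rw [setLIntegral_one]
      apply measure_mono_null _ nN
      rintro t ⟨s, hs, rfl⟩
      exact hs.2
    rw [h0] at h
    have h2 := (lintegral_eq_zero_iff (by
      have := measurable_deriv τ
      fun_prop)).1 h.symm
    filter_upwards [h2] with s hs
    simp only [mul_one, Pi.zero_apply, ENNReal.ofReal_eq_zero] at hs
    exact abs_eq_zero.1 (le_antisymm hs (abs_nonneg _))
  rw [ae_restrict_iff' mB] at hzero
  rw [e1, e2, e3, ← integral_const_mul]
  apply setIntegral_congr_ae mA
  filter_upwards [hzero] with s hs hsA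
  rw [hσ s hsA.1, smul_eq_mul]
  by_cases hn : DifferentiableAt ℝ w (τ s)
  · have : deriv (fun s => w (τ s)) s = deriv w (τ s) * deriv τ s :=
      deriv_comp s hn hsA.2
    rw [this]
    ring
  · have h0 : deriv τ s = 0 := hs ⟨hsA, hn⟩
    have hd : HasDerivAt τ 0 s := by
      have := hsA.2.hasDerivAt
      rwa [h0] at this
    have : deriv (fun s => w (τ s)) s = 0 := (hasDerivAt_comp_zero hw hd).deriv
    rw [this, h0]
    ring

end Pool.Agent.H74.FAC
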