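import Pool.Agent.H74.FAC.Patch2
import Pool.Agent.H74.FAC.CV

open MeasureTheory Set Filter Measure Manifold Bundle
open scoped ContDiff Topology ENNReal NNReal

set_option linter.unusedSectionVars false
set_option linter.style.haveILetI false

noncomputable section

namespace Pool.Agent.H74.FAC

/-- the circle of length `2π` -/
abbrev S1 : Type := AddCircle (2 * Real.pi)

instance : Fact (0 < 2 * Real.pi) := ⟨by positivity⟩

variable {M : Type} [MetricSpace M] [ChartedSpace HP M]

/-- `φ` identifies the circle of length `2π`, isometrically, with the boundary of `M`. -/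
structure IsometricFilling (φ : S1 → M) : Prop where
  dist_eq : ∀ s t : S1, dist (φ s) (φ t) = dist s t
  range_eq : range φ = (𝓡∂ 2).boundary M

lemma dist_circle {a b : ℝ} (h : |a - b| ≤ Real.pi) : dist (a : S1) (b : S1) = |a - b| := by
  have hp : (2 * Real.pi) ≠ 0 := by positivity
  rw [dist_eq_norm, ← AddCircle.coe_sub, AddCircle.norm_coe_eq_abs_iff _ hp]
  have hp2 : |2 * Real.pi| = 2 * Real.pi := abs_of_pos (by positivity)
  rw [hp2]
  linarith

lemma dist_circle_le (a b : ℝ) : dist (a : S1) (b : S1) ≤ |a - b| := by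
  rw [dist_eq_norm, ← AddCircle.coe_sub]
  exact QuotientAddGroup.norm_mk_le_norm

/-- lift of a point of the circle near a given real number -/
lemma exists_lift (x : S1) (t0 : ℝ) : ∃ t : ℝ, (t : S1) = x ∧ |t - t0| = dist x (t0 : S1) := by
  obtain ⟨y, rfl⟩ := QuotientAddGroup.mk_surjective x
  refine ⟨y - round ((2 * Real.pi)⁻¹ * (y - t0)) * (2 * Real.pi), ?_, ?_⟩
  · show ((y - round ((2 * Real.pi)⁻¹ * (y - t0)) * (2 * Real.pi) : ℝ) : S1) = (y : S1)
    rw [AddCircle.coe_sub]
    have : (((round ((2 * Real.pi)⁻¹ * (y - t0)) : ℝ) * (2 * Real.pi) : ℝ) : S1) = 0 := by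
      rw [AddCircle.coe_eq_zero_iff]
      exact ⟨round ((2 * Real.pi)⁻¹ * (y - t0)), by simp⟩
    rw [this, sub_zero]
  · show _ = dist (y : S1) (t0 : S1)
    rw [dist_eq_norm, ← AddCircle.coe_sub, AddCircle.norm_eq]
    congr 1
    ring

end Pool.Agent.H74.FAC
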