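import Pool.Agent.H74.FAC.Bdry2

open MeasureTheory Set Filter Measure Manifold Bundle
open scoped ContDiff Topology ENNReal NNReal

set_option linter.unusedSectionVars false
set_option linter.style.haveILetI false

noncomputable section

namespace Pool.Agent.H74.FAC

variable {M : Type} [MetricSpace M] [ChartedSpace HP M] [IsManifold (𝓡∂ 2) ∞ M] [CompactSpace M]
  {φ : S1 → M}

/-- the boundary integral `∮ u dw` -/
def bint (φ : S1 → M) (u w : M → ℝ) : ℝ :=
  ∫ t in (0 : ℝ)..(2 * Real.pi), u (φ (t : S1)) * deriv (fun t : ℝ => w (φ (t : S1))) t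

lemma hat_lip (hφ : IsometricFilling φ) {w : M → ℝ} {L : ℝ≥0} (hw : LipschitzWith L w) :
    LipschitzWith L (fun t : ℝ => w (φ (t : S1))) := by
  apply LipschitzWith.of_dist_le_mul
  intro a b
  refine (hw.dist_le_mul _ _).trans ?_
  rw [hφ.dist_eq, Real.dist_eq]
  have := dist_circle_le a b
  gcongr

lemma coe_add_period (t : ℝ) : ((t + 2 * Real.pi : ℝ) : S1) = (t : S1) := by
  rw [AddCircle.coe_add, AddCircle.coe_period, add_zero]

lemma hat_periodic (u : M → ℝ) : Function.Periodic (fun t : ℝ => u (φ (t : S1))) (2 * Real.pi) := by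
  intro t
  show u (φ ((t + 2 * Real.pi : ℝ) : S1)) = _
  rw [coe_add_period]

lemma deriv_periodic {f : ℝ → ℝ} {T : ℝ} (hf : Function.Periodic f T) :
    Function.Periodic (deriv f) T := by
  intro t
  have h := deriv_comp_add_const (f := f) T t
  rw [← h]
  congr 1
  ext s
  exact hf s

lemma bint_eq (u w : M → ℝ) (a : ℝ) :
    bint φ u w = ∫ t in a..(a + 2 * Real.pi), u (φ (t : S1)) * deriv (fun t : ℝ => w (φ (t : S1))) t := by
  have hp : Function.Periodic (fun t : ℝ => u (φ (t : S1)) *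
      deriv (fun t : ℝ => w (φ (t : S1))) t) (2 * Real.pi) :=
    (hat_periodic u).mul (deriv_periodic (hat_periodic w))
  have := hp.intervalIntegral_add_eq 0 a
  rw [zero_add] at this
  exact this

namespace Patch

variable (P : Patch M) (hφ : IsometricFilling φ)

include hφ in
lemma bdry_formula {τ : ℝ → ℝ} {K' : ℝ≥0} {t0 σ : ℝ} (hτ : LipschitzWith K' τ)
    (hinj : InjOn τ P.J) (hτe : ∀ s ∈ P.J, φ (τ s : S1) = (P.e.extend (𝓡∂ 2)).symm (pt 0 s))
    (hτ1 : ∀ s ∈ P.J, |τ s - t0| ≤ 1) (hσ : σ = 1 ∨ σ = -1)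
    (hsign : ∀ s ∈ P.J, |deriv τ s| = σ * deriv τ s)
    {u w : M → ℝ} {L' : ℝ≥0} (hw : LipschitzWith L' w)
    (hsupp : tsupport u ⊆ P.V) (F : P.Cut u) (W : P.Cut w) :
    ∫ s, F.F (pt 0 s) * deriv (fun s => W.F (pt 0 s)) s = σ * bint φ u w := by
  set uh : ℝ → ℝ := fun t => u (φ (t : S1)) with huh
  set wh : ℝ → ℝ := fun t => w (φ (t : S1)) with hwh
  -- step a
  have ha : ∫ s, F.F (pt 0 s) * deriv (fun s => W.F (pt 0 s)) s
      = ∫ s in P.Jr, uh (τ s) * deriv (fun s => wh (τ s)) s := by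
    have h0 : ∀ s, s ∉ P.Jr → F.F (pt 0 s) * deriv (fun s => W.F (pt 0 s)) s = 0 := by
      intro s hs
      have : F.F (pt 0 s) = 0 := by
        by_cases hJ : s ∈ P.J
        · rw [F.eq _ (P.mem_D_J hJ)]
          have ht : pt 0 s ∈ (P.e.extend (𝓡∂ 2)).target := P.sub (P.mem_D_J hJ)
          have : u ((P.e.extend (𝓡∂ 2)).symm (pt 0 s)) = 0 := by
            by_contra hne
            apply hs
            have := (hsupp (subset_tsupport _ hne)).2
            rw [(P.e.extend (𝓡∂ 2)).right_inv ht] at this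
            exact this
          rw [this, mul_zero]
        · exact F.out _ hJ
      rw [this, zero_mul]
    rw [← setIntegral_eq_integral_of_forall_compl_eq_zero h0]
    apply setIntegral_congr_fun P.Jr_open.measurableSet
    intro s hs
    have hval : ∀ s ∈ P.Jr, ∀ {v : M → ℝ} (G : P.Cut v), G.F (pt 0 s) = v (φ (τ s : S1)) := by
      intro s hs v G
      rw [G.eq _ (P.mem_D_J (P.Jr_sub hs)), P.θ_one hs, one_mul, hτe s (P.Jr_sub hs)]
    simp only [huh, hwh]
    rw [hval s hs F]
    congr 1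
    apply Filter.EventuallyEq.deriv_eq
    filter_upwards [P.Jr_open.mem_nhds hs] with s' hs'
    exact hval s' hs' W
  -- step b
  have hb := cv P.Jr_open.measurableSet hτ (hinj.mono P.Jr_sub) (hat_lip hφ hw) uh
    (σ := σ) (fun s hs => hsign s (P.Jr_sub hs))
  have hσ2 : σ * σ = 1 := by rcases hσ with rfl | rfl <;> norm_num
  -- step c
  have hc : ∫ t in τ '' P.Jr, uh t * deriv wh t
      = ∫ t in Ioc (t0 - Real.pi) (t0 + Real.pi), uh t * deriv wh t := by
    symm
    apply setIntegral_eq_of_subset_of_forall_sdiff_eq_zero measurableSet_Ioc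
    · rintro t ⟨s, hs, rfl⟩
      have h1 := hτ1 s (P.Jr_sub hs)
      rw [abs_le] at h1
      have := Real.pi_gt_three
      constructor <;> linarith [h1.1, h1.2]
    · rintro t ⟨ht, htn⟩
      have : uh t = 0 := by
        by_contra hne
        apply htn
        have hV : φ (t : S1) ∈ P.V := hsupp (subset_tsupport _ hne)
        have hb : φ (t : S1) ∈ (𝓡∂ 2).boundary M := by
          rw [← hφ.range_eq]
          exact mem_range_self _
        rw [boundary_iff P.he hV.1] at hb
        set s := (P.e.extend (𝓡∂ 2) (φ (t : S1))) 1 with hs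
        have hpt : P.e.extend (𝓡∂ 2) (φ (t : S1)) = pt 0 s := by
          rw [← pt_self (P.e.extend (𝓡∂ 2) (φ (t : S1))), hb]
        have hsJ : s ∈ P.Jr := by
          show pt 0 s ∈ Metric.ball P.c P.r
          rw [← hpt]
          exact hV.2
        have h1 : φ (τ s : S1) = φ (t : S1) := by
          rw [hτe s (P.Jr_sub hsJ), ← hpt, ext_left_inv hV.1]
        have h2 : dist (τ s : S1) (t : S1) = 0 := by
          rw [← hφ.dist_eq, h1, dist_self]
        have h3 : (τ s : S1) = (t : S1) := eq_of_dist_eq_zero h2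
        have h4 : |t - t0| ≤ 1 := by
          have ht' : |t - t0| ≤ Real.pi := by
            rw [abs_le]
            constructor <;> linarith [ht.1, ht.2]
          rw [← dist_circle ht', ← h3]
          exact (dist_circle_le _ _).trans (hτ1 s (P.Jr_sub hsJ))
        have h5 : |τ s - t| ≤ Real.pi := by
          have h6 := hτ1 s (P.Jr_sub hsJ)
          rw [abs_le] at h6 h4 ⊢
          have := Real.pi_gt_three
          constructor <;> linarith [h6.1, h6.2, h4.1, h4.2]
        rw [dist_circle h5, abs_eq_zero] at h2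
        exact ⟨s, hsJ, by linarith⟩
      rw [this, zero_mul]
  -- step d
  have hd : ∫ t in Ioc (t0 - Real.pi) (t0 + Real.pi), uh t * deriv wh t = bint φ u w := by
    rw [bint_eq u w (t0 - Real.pi), intervalIntegral.integral_of_le (by linarith [Real.pi_pos])]
    congr 2
    ring_nf
  rw [ha, ← hd, ← hc, ← hb, ← mul_assoc, hσ2, one_mul]

include hφ in
/-- the local Stokes formula with the boundary term on the circle -/
theorem exists_sigma : ∃ σ : ℝ, ((σ = 1 ∨ σ = -1) ∨ (σ = 0 ∧ P.V ∩ range φ = ∅)) ∧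
    ∀ (u w : M → ℝ) (L L' : ℝ≥0), LipschitzWith L u → LipschitzWith L' w → tsupport u ⊆ P.V →
      ∫ z in P.e.extend (𝓡∂ 2) '' P.V, Jc P.e u w z = - (σ * bint φ u w) := by
  by_cases hne : P.J.Nonempty
  · obtain ⟨K', τ, t0, hτ, hinj, hτe, hτ1⟩ := P.exists_tau hφ hne
    obtain ⟨σ, hσ, hsign⟩ := P.exists_sign hτ hinj
    refine ⟨σ, Or.inl hσ, ?_⟩
    intro u w L L' hu hw hsupp
    rw [local_stokes hsupp (P.cut hu) (P.cut hw),
      P.bdry_formula hφ hτ hinj hτe hτ1 hσ hsign hw hsupp (P.cut hu) (P.cut hw)]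
  · rw [not_nonempty_iff_eq_empty] at hne
    refine ⟨0, Or.inr ⟨rfl, ?_⟩, ?_⟩
    · rw [eq_empty_iff_forall_notMem]
      rintro x ⟨hxV, hx⟩
      rw [hφ.range_eq, boundary_iff P.he hxV.1] at hx
      have hpt : P.e.extend (𝓡∂ 2) x = pt 0 ((P.e.extend (𝓡∂ 2) x) 1) := by
        conv_lhs => rw [← pt_self (P.e.extend (𝓡∂ 2) x), hx]
      have : (P.e.extend (𝓡∂ 2) x) 1 ∈ P.J := by
        apply P.Jr_sub
        show pt 0 _ ∈ Metric.ball P.c P.r
        rw [← hpt]
        exact hxV.2
      rw [hne] at this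
      exact this
    · intro u w L L' hu hw hsupp
      rw [local_stokes hsupp (P.cut hu) (P.cut hw)]
      have : ∀ s, (P.cut hu).F (pt 0 s) = 0 := by
        intro s
        apply (P.cut hu).out
        intro h
        have : s ∈ P.J := h
        rw [hne] at this
        exact this
      simp [this]

end Patch

end Pool.Agent.H74.FAC
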