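import Mathlib

open MeasureTheory Set Manifold Bundle Filter
open scoped ContDiff Topology ENNReal

noncomputable section

namespace Pool.Agent.H74.FAC

/-- The Euclidean plane in which the coordinate charts of a surface take their values. -/
abbrev E2 : Type := EuclideanSpace ℝ (Fin 2)

/-- The closed half plane `{x : x 0 ≥ 0}`, the local model of a surface with boundary. -/
abbrev HP : Type := EuclideanHalfSpace 2

/-- The image of the tangent vector `v`, at the point `z` of the model domain `range I`, under the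
derivative of a map `f` from the model vector space into the manifold. -/
def push {E H M : Type} [NormedAddCommGroup E] [NormedSpace ℝ E] [TopologicalSpace H]
    (I : ModelWithCorners ℝ E H) [TopologicalSpace M] [ChartedSpace H M] (f : E → M) (z v : E) :
    TangentSpace I (f z) :=
  mfderivWithin 𝓘(ℝ, E) I f (range I) z v

section

variable (M : Type) [TopologicalSpace M] [ChartedSpace HP M]

/-- A smooth surface with boundary is orientable if it can be covered by smooth charts
(elements of the maximal atlas) all of whose coordinate changes have positive Jacobian. -/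
def Orientable : Prop :=
  ∃ A : Set (OpenPartialHomeomorph M HP),
    A ⊆ IsManifold.maximalAtlas (𝓡∂ 2) ∞ M ∧
    (∀ x : M, ∃ e ∈ A, x ∈ e.source) ∧
    ∀ e ∈ A, ∀ e' ∈ A, ∀ x ∈ e.source ∩ e'.source,
      0 < (fderivWithin ℝ (e'.extend (𝓡∂ 2) ∘ (e.extend (𝓡∂ 2)).symm) (range (𝓡∂ 2))
        (e.extend (𝓡∂ 2) x)).det

variable {M}
variable [RiemannianBundle (fun x : M => TangentSpace (𝓡∂ 2) x)]

/-- The coordinate vector field `∂ᵢ` of the chart `e`, at the point with coordinates `z`. -/
def coordVec (e : OpenPartialHomeomorph M HP) (z : E2) (i : Fin 2) :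
    TangentSpace (𝓡∂ 2) ((e.extend (𝓡∂ 2)).symm z) :=
  push (𝓡∂ 2) (e.extend (𝓡∂ 2)).symm z (EuclideanSpace.single i (1 : ℝ))

/-- The matrix `gᵢⱼ = ⟨∂ᵢ, ∂ⱼ⟩` of the Riemannian metric in the chart `e`. -/
def gram (e : OpenPartialHomeomorph M HP) (z : E2) : Matrix (Fin 2) (Fin 2) ℝ :=
  Matrix.of fun i j => inner ℝ (coordVec e z i) (coordVec e z j)

variable (M) in
/-- The Riemannian area of a surface with boundary: the supremum, over all finite families of
smooth charts `eᵢ` and pairwise disjoint Borel sets `Sᵢ` contained in the domains of the `eᵢ`,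
of `∑ᵢ ∫_{eᵢ(Sᵢ)} √(det g)`. -/
def area : ℝ≥0∞ :=
  ⨆ (n : ℕ) (e : Fin n → OpenPartialHomeomorph M HP) (S : Fin n → Set M)
    (_ : (∀ i, e i ∈ IsManifold.maximalAtlas (𝓡∂ 2) ∞ M) ∧
      (∀ i, MeasurableSet[borel M] (S i)) ∧ (∀ i, S i ⊆ (e i).source) ∧
      Pairwise fun i j => Disjoint (S i) (S j)),
    ∑ i, ∫⁻ z in (e i).extend (𝓡∂ 2) '' (S i), ENNReal.ofReal (Real.sqrt (gram (e i) z).det)

end

end Pool.Agent.H74.FAC
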