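import Pool.Agent.H74.FAC.Global3

open MeasureTheory Set Filter Measure Manifold Bundle
open scoped ContDiff Topology ENNReal NNReal

set_option linter.unusedSectionVars false
set_option linter.style.haveILetI false

noncomputable section

namespace Pool.Agent.H74.FAC

/-- normal form of covectors of norm at most one for a (possibly degenerate) scalar product -/
lemma comass_algebra {ι : Type*} {E F G : ℝ} {p q : ι → ℝ}
    (hform : ∀ α β : ℝ, 0 ≤ α ^ 2 * E + 2 * (α * β) * F + β ^ 2 * G)
    (h : ∀ i, ∀ α β : ℝ, (α * p i + β * q i) ^ 2 ≤ α ^ 2 * E + 2 * (α * β) * F + β ^ 2 * G) :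
    ∃ X Y : ι → ℝ, (∀ i, X i ^ 2 + Y i ^ 2 ≤ 1) ∧
      ∀ i j, p j * q i - q j * p i = Real.sqrt (E * G - F * F) * (X j * Y i - Y j * X i) := by
  have hE0 : 0 ≤ E := by simpa using hform 1 0
  have hG0 : 0 ≤ G := by simpa using hform 0 1
  by_cases hE : E = 0
  · -- then `p = 0`
    have hp : ∀ i, p i = 0 := by
      intro i
      have := h i 1 0
      rw [hE] at this
      nlinarith [sq_nonneg (p i)]
    exact ⟨fun _ => 0, fun _ => 0, by simp, fun i j => by simp [hp]⟩
  · have hEp : 0 < E := lt_of_le_of_ne hE0 (Ne.symm hE)
    have hD0 : 0 ≤ E * G - F * F := by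
      have := hform (-F) E
      have e : (-F) ^ 2 * E + 2 * (-F * E) * F + E ^ 2 * G = E * (E * G - F * F) := by ring
      rw [e] at this
      exact nonneg_of_mul_nonneg_right this hEp
    by_cases hD : E * G - F * F = 0
    · refine ⟨fun _ => 0, fun _ => 0, by simp, fun i j => ?_⟩
      have hq : ∀ i, E * q i = F * p i := by
        intro i
        have := h i (-F) E
        have e : (-F) ^ 2 * E + 2 * (-F * E) * F + E ^ 2 * G = E * (E * G - F * F) := by ring
        rw [e, hD, mul_zero] at this
        have h2 : -F * p i + E * q i = 0 := by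
          have := le_antisymm this (sq_nonneg _)
          exact pow_eq_zero_iff (two_ne_zero) |>.1 this
        linarith
      have : E * (p j * q i - q j * p i) = 0 := by
        have e : E * (p j * q i - q j * p i) = p j * (E * q i) - p i * (E * q j) := by ring
        rw [e, hq, hq]
        ring
      have h3 : p j * q i - q j * p i = 0 := by
        rcases mul_eq_zero.1 this with h | h
        · exact absurd h hE
        · exact h
      rw [h3]
      simp
    · have hDp : 0 < E * G - F * F := lt_of_le_of_ne hD0 (Ne.symm hD)
      set D := E * G - F * F with hDdef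
      set a := Real.sqrt E with ha
      set d := Real.sqrt D with hd
      have ha0 : 0 < a := Real.sqrt_pos.2 hEp
      have hd0 : 0 < d := Real.sqrt_pos.2 hDp
      have ha2 : a ^ 2 = E := Real.sq_sqrt hE0
      have hd2 : d ^ 2 = D := Real.sq_sqrt hD0
      refine ⟨fun i => p i / a, fun i => (E * q i - F * p i) / (a * d), ?_, ?_⟩
      · intro i
        -- test vector
        set x := p i / a with hx
        set y := (E * q i - F * p i) / (a * d) with hy
        have h1 := h i (x / a - y * F / (a * d)) (y * E / (a * d))
        have e1 : (x / a - y * F / (a * d)) * p i + y * E / (a * d) * q i = x ^ 2 + y ^ 2 := by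
          rw [hx, hy]
          field_simp
          ring
        have e2 : (x / a - y * F / (a * d)) ^ 2 * E + 2 * ((x / a - y * F / (a * d)) * (y * E / (a * d))) * F
            + (y * E / (a * d)) ^ 2 * G = x ^ 2 * (E / a ^ 2) + y ^ 2 * (E / a ^ 2) * ((E * G - F * F) / d ^ 2) := by
          field_simp
          ring
        rw [e1, e2, ha2, ← hDdef, hd2, div_self hE, div_self hD, mul_one, mul_one, mul_one] at h1
        nlinarith [sq_nonneg x, sq_nonneg y]
      · intro i j
        have e : d * (p j / a * ((E * q i - F * p i) / (a * d)) - (E * q j - F * p j) / (a * d) * (p i / a))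
            = (E / a ^ 2) * (p j * q i - q j * p i) := by
          field_simp
          ring
        show _ = d * (p j / a * ((E * q i - F * p i) / (a * d)) - (E * q j - F * p j) / (a * d) * (p i / a))
        rw [e, ha2, div_self hE, one_mul]

end Pool.Agent.H74.FAC
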