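import Pool.Agent.H74.FAC.HP3

open MeasureTheory Set Filter Measure
open scoped ContDiff Topology ENNReal NNReal

set_option linter.unusedSectionVars false
set_option linter.style.haveILetI false

noncomputable section

namespace Pool.Agent.H74.FAC

variable {M : Type} [MetricSpace M] [CompactSpace M]

lemma exists_bump {F U : Set M} (hF : IsClosed F) (hU : IsOpen U) (h : F ⊆ U) :
    ∃ (ψ : M → ℝ) (C : ℝ≥0), LipschitzWith C ψ ∧ (∀ x, 0 ≤ ψ x) ∧ (∀ x, ψ x ≤ 1) ∧
      (∀ x ∈ F, ψ x = 1) ∧ tsupport ψ ⊆ U := by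
  obtain ⟨δ, hδ, hsub⟩ := hF.isCompact.exists_cthickening_subset_open hU h
  refine ⟨fun x => ((thickenedIndicator hδ F x : ℝ≥0) : ℝ), δ.toNNReal⁻¹, ?_, ?_, ?_, ?_, ?_⟩
  · have h1 := lipschitzWith_thickenedIndicator hδ F
    have h2 : LipschitzWith 1 (fun a : ℝ≥0 => (a : ℝ)) := by
      apply LipschitzWith.of_dist_le_mul
      intro a b
      simp [NNReal.dist_eq, Real.dist_eq]
    simpa [Function.comp_def] using h2.comp h1
  · intro x
    exact NNReal.coe_nonneg _
  · intro x
    exact_mod_cast thickenedIndicator_le_one hδ F x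
  · intro x hx
    have := thickenedIndicator_one hδ F hx
    simp only [this, NNReal.coe_one]
  · apply Subset.trans _ hsub
    apply closure_minimal _ Metric.isClosed_cthickening
    intro x hx
    by_contra hn
    apply hx
    have : x ∉ Metric.thickening δ F := fun h => hn (Metric.thickening_subset_cthickening _ _ h)
    simp [thickenedIndicator_zero hδ F this]

lemma lip_inv {S : M → ℝ} {C : ℝ≥0} (hS : LipschitzWith C S) (h1 : ∀ x, 1 ≤ S x) :
    LipschitzWith C (fun x => (S x)⁻¹) := by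
  apply LipschitzWith.of_dist_le_mul
  intro x y
  refine le_trans ?_ (hS.dist_le_mul x y)
  rw [Real.dist_eq, Real.dist_eq]
  have hx := h1 x
  have hy := h1 y
  have hx0 : 0 < S x := by linarith
  have hy0 : 0 < S y := by linarith
  have e : (S x)⁻¹ - (S y)⁻¹ = (S y - S x) / (S x * S y) := by
    field_simp
  rw [e, abs_div, abs_of_pos (by positivity : 0 < S x * S y), div_le_iff₀ (by positivity), abs_sub_comm]
  have : 1 ≤ S x * S y := by nlinarith
  nlinarith [abs_nonneg (S x - S y)]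

lemma lip_sum {ι : Type*} (s : Finset ι) {f : ι → M → ℝ} (hf : ∀ i ∈ s, ∃ C : ℝ≥0, LipschitzWith C (f i)) :
    ∃ C : ℝ≥0, LipschitzWith C (fun x => ∑ i ∈ s, f i x) := by
  classical
  induction s using Finset.induction_on with
  | empty => exact ⟨0, by simp⟩
  | insert a s ha ih =>
    obtain ⟨C, hC⟩ := ih (fun i hi => hf i (Finset.mem_insert_of_mem hi))
    obtain ⟨D, hD⟩ := hf a (Finset.mem_insert_self a s)
    refine ⟨D + C, ?_⟩
    simp_rw [Finset.sum_insert ha]
    exact hD.add hC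

/-- Lipschitz partition of unity -/
lemma exists_partition {n : ℕ} {U : Fin n → Set M} (hU : ∀ i, IsOpen (U i)) (hc : ∀ x, ∃ i, x ∈ U i) :
    ∃ χ : Fin n → M → ℝ, (∀ i, ∃ C : ℝ≥0, LipschitzWith C (χ i)) ∧ (∀ i, tsupport (χ i) ⊆ U i) ∧
      (∀ x, ∑ i, χ i x = 1) ∧ (∀ i x, |χ i x| ≤ 1) := by
  obtain ⟨F, hFU, hFc, hFs⟩ := exists_iUnion_eq_closed_subset hU (fun x => Set.toFinite _)
    (by ext x; simpa using hc x)
  choose ψ C hL h0 hle h1 hsupp using fun i => exists_bump (hFc i) (hU i) (hFs i)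
  have hS1 : ∀ x, 1 ≤ ∑ i, ψ i x := by
    intro x
    have : x ∈ iUnion F := by rw [hFU]; trivial
    obtain ⟨i, hi⟩ := mem_iUnion.1 this
    calc (1 : ℝ) = ψ i x := (h1 i x hi).symm
      _ ≤ ∑ j, ψ j x := Finset.single_le_sum (f := fun j => ψ j x) (fun j _ => h0 j x) (Finset.mem_univ i)
  obtain ⟨CS, hCS⟩ := lip_sum Finset.univ (f := ψ) (fun i _ => ⟨C i, hL i⟩)
  have hinv := lip_inv hCS hS1
  refine ⟨fun i x => ψ i x * (∑ j, ψ j x)⁻¹, ?_, ?_, ?_, ?_⟩
  · intro i
    apply lip_mul (hL i) hinv (A := 1) (B := 1)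
    · intro x
      rw [abs_of_nonneg (h0 i x)]
      exact hle i x
    · intro x
      have := hS1 x
      rw [abs_of_nonneg (by positivity)]
      exact inv_le_one_of_one_le₀ this
  · intro i
    refine Subset.trans ?_ (hsupp i)
    exact tsupport_mul_subset_left
  · intro x
    rw [← Finset.sum_mul]
    exact mul_inv_cancel₀ (by linarith [hS1 x])
  · intro i x
    have h2 := hS1 x
    have h3 : ψ i x ≤ ∑ j, ψ j x :=
      Finset.single_le_sum (f := fun j => ψ j x) (fun j _ => h0 j x) (Finset.mem_univ i)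
    have h4 : 0 < ∑ j, ψ j x := by linarith
    rw [abs_of_nonneg (mul_nonneg (h0 i x) (by positivity)), ← div_eq_mul_inv, div_le_one h4]
    exact h3

end Pool.Agent.H74.FAC
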