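import Pool.Agent.H74.FAC.Bdry3
import Pool.Agent.H74.FAC.PU

open MeasureTheory Set Filter Measure Manifold Bundle
open scoped ContDiff Topology ENNReal NNReal

set_option linter.unusedSectionVars false
set_option linter.style.haveILetI false

noncomputable section

namespace Pool.Agent.H74.FAC

section
variable {M : Type} [MetricSpace M] [ChartedSpace HP M] [IsManifold (𝓡∂ 2) ∞ M] [CompactSpace M]

variable (M) in
/-- a finite oriented cover by patches -/
structure Cov where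
  n : ℕ
  P : Fin n → Patch M
  cover : ∀ x, ∃ i, x ∈ (P i).V
  pos : ∀ i j, PosCC (P i).e (P j).e

namespace Cov

variable (A : Cov M)

def V (i : Fin A.n) : Set M := (A.P i).V

lemma V_open (i : Fin A.n) : IsOpen (A.V i) := (A.P i).V_open

/-- the disjointed cover -/
def S (i : Fin A.n) : Set M := A.V i \ ⋃ j : Fin A.n, ⋃ (_ : j < i), A.V j

lemma S_sub (i : Fin A.n) : A.S i ⊆ A.V i := sdiff_subset

lemma S_meas (i : Fin A.n) : MeasurableSet[borel M] (A.S i) := by
  letI : MeasurableSpace M := borel M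
  haveI : BorelSpace M := ⟨rfl⟩
  exact (A.V_open i).measurableSet.diff
    (MeasurableSet.iUnion fun j => MeasurableSet.iUnion fun _ => (A.V_open j).measurableSet)

lemma S_disj : Pairwise fun i j => Disjoint (A.S i) (A.S j) := by
  have key : ∀ i j, i < j → Disjoint (A.S i) (A.S j) := by
    intro i j hij
    rw [Set.disjoint_left]
    intro x hx hx'
    exact hx'.2 (mem_iUnion.2 ⟨i, mem_iUnion.2 ⟨hij, hx.1⟩⟩)
  intro i j hij
  rcases lt_or_gt_of_ne hij with h | h
  · exact key i j h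
  · exact (key j i h).symm

lemma S_cover (x : M) : ∃ i, x ∈ A.S i := by
  classical
  have hne : (Finset.univ.filter fun i => x ∈ A.V i).Nonempty := by
    obtain ⟨i, hi⟩ := A.cover x
    exact ⟨i, Finset.mem_filter.2 ⟨Finset.mem_univ _, hi⟩⟩
  refine ⟨(Finset.univ.filter fun i => x ∈ A.V i).min' hne, ?_, ?_⟩
  · have := Finset.min'_mem _ hne
    simpa using this
  · intro h
    obtain ⟨j, hj⟩ := mem_iUnion.1 h
    obtain ⟨hlt, hjV⟩ := mem_iUnion.1 hj
    have := Finset.min'_le (Finset.univ.filter fun i => x ∈ A.V i) j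
      (Finset.mem_filter.2 ⟨Finset.mem_univ _, hjV⟩)
    exact absurd hlt (not_lt.2 this)

/-- the integral of `du ∧ dw` over `M` -/
def B (u w : M → ℝ) : ℝ :=
  ∑ k, ∫ z in (A.P k).e.extend (𝓡∂ 2) '' (A.S k), Jc (A.P k).e u w z

lemma Jc_zero {e : OpenPartialHomeomorph M HP} {u : M → ℝ} (w : M → ℝ) {x : M} (hx : x ∈ e.source)
    (hu : x ∉ tsupport u) : Jc e u w (e.extend (𝓡∂ 2) x) = 0 := by
  have hc : ContinuousAt (e.extend (𝓡∂ 2)).symm (e.extend (𝓡∂ 2) x) :=
    e.continuousAt_extend_symm hx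
  have ho : (tsupport u)ᶜ ∈ 𝓝 ((e.extend (𝓡∂ 2)).symm (e.extend (𝓡∂ 2) x)) := by
    rw [ext_left_inv hx]
    exact (isClosed_tsupport u).isOpen_compl.mem_nhds hu
  have hev : (fun y => u ((e.extend (𝓡∂ 2)).symm y)) =ᶠ[𝓝 (e.extend (𝓡∂ 2) x)] fun _ => 0 := by
    filter_upwards [hc ho] with y hy
    exact image_eq_zero_of_notMem_tsupport hy
  have : fderiv ℝ (fun y => u ((e.extend (𝓡∂ 2)).symm y)) (e.extend (𝓡∂ 2) x) = 0 := by
    rw [hev.fderiv_eq]
    simp
  unfold Jc
  rw [this]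
  simp

/-- localisation of `B` -/
lemma B_loc {u w : M → ℝ} {L L' : ℝ≥0} (hu : LipschitzWith L u) (hw : LipschitzWith L' w)
    (l : Fin A.n) (hsupp : tsupport u ⊆ A.V l) :
    A.B u w = ∫ z in (A.P l).e.extend (𝓡∂ 2) '' (A.P l).V, Jc (A.P l).e u w z := by
  letI : MeasurableSpace M := borel M
  haveI : BorelSpace M := ⟨rfl⟩
  have hVm : MeasurableSet (A.V l) := (A.V_open l).measurableSet
  have h1 : ∀ k, ∫ z in (A.P k).e.extend (𝓡∂ 2) '' (A.S k), Jc (A.P k).e u w z
      = ∫ z in (A.P l).e.extend (𝓡∂ 2) '' (A.S k ∩ A.V l), Jc (A.P l).e u w z := by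
    intro k
    have hs1 : A.S k ⊆ (A.P k).e.source := (A.S_sub k).trans (A.P k).V_sub
    have e1 : ∫ z in (A.P k).e.extend (𝓡∂ 2) '' (A.S k), Jc (A.P k).e u w z
        = ∫ z in (A.P k).e.extend (𝓡∂ 2) '' (A.S k ∩ A.V l), Jc (A.P k).e u w z := by
      apply setIntegral_eq_of_subset_of_forall_sdiff_eq_zero (meas_image (A.S_meas k) hs1)
      · exact image_mono inter_subset_left
      · rintro z ⟨⟨x, hx, rfl⟩, hz⟩
        apply Jc_zero w (hs1 hx)
        intro hxt
        exact hz ⟨x, ⟨hx, hsupp hxt⟩, rfl⟩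
    rw [e1]
    exact int_transfer (A.P l).he (A.P k).he (A.pos l k) ((A.S_meas k).inter hVm)
      (inter_subset_right.trans (A.P l).V_sub) (inter_subset_left.trans hs1) u w
  unfold B
  simp_rw [h1]
  rw [← integral_iUnion_fintype]
  · congr 2
    rw [← image_iUnion, ← iUnion_inter]
    have : ⋃ k, A.S k = univ := by
      ext x
      simpa using A.S_cover x
    rw [this, univ_inter]
    rfl
  · intro k
    exact meas_image ((A.S_meas k).inter hVm) (inter_subset_right.trans (A.P l).V_sub)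
  · intro i j hij
    have hd := A.S_disj hij
    rw [Function.onFun, Set.disjoint_left]
    rintro z ⟨x, hx, rfl⟩ ⟨y, hy, hxy⟩
    have hinj := ((A.P l).e.extend (𝓡∂ 2)).injOn
    rw [OpenPartialHomeomorph.extend_source] at hinj
    have := hinj ((A.P l).V_sub hy.2) ((A.P l).V_sub hx.2) hxy
    rw [this] at hy
    exact Set.disjoint_left.1 hd hx.1 hy.1
  · intro k
    exact Patch.integrableOn_Jc hu hw ((A.S_meas k).inter hVm) inter_subset_right

end Cov

end

section

variable {M : Type} [MetricSpace M] [ChartedSpace HP M] [IsManifold (𝓡∂ 2) ∞ M] [CompactSpace M]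
  [RiemannianBundle (fun x : M => TangentSpace (𝓡∂ 2) x)]
  [IsContMDiffRiemannianBundle (𝓡∂ 2) ∞ E2 (fun x : M => TangentSpace (𝓡∂ 2) x)]
  [IsRiemannianManifold (𝓡∂ 2) M]

lemma exists_patch {e : OpenPartialHomeomorph M HP} (he : e ∈ IsManifold.maximalAtlas (𝓡∂ 2) ∞ M)
    {x : M} (hx : x ∈ e.source) : ∃ P : Patch M, P.e = e ∧ x ∈ P.V := by
  obtain ⟨r, hr, C, hsub, hlip⟩ := exists_good_ball he (ext_mem_target hx)
  set r' := min (r / 2) (1 / (4 * ((C : ℝ) + 1))) with hr'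
  have hr'0 : 0 < r' := by positivity
  have h2r : 2 * r' ≤ r := by
    have := min_le_left (r / 2) (1 / (4 * ((C : ℝ) + 1)))
    linarith
  have hss : Metric.ball (e.extend (𝓡∂ 2) x) (2 * r') ∩ {z : E2 | 0 ≤ z 0}
      ⊆ Metric.ball (e.extend (𝓡∂ 2) x) r ∩ {z : E2 | 0 ≤ z 0} :=
    inter_subset_inter_left _ (Metric.ball_subset_ball h2r)
  refine ⟨⟨e, he, e.extend (𝓡∂ 2) x, r', hr'0, C, hss.trans hsub, hlip.mono hss, ?_⟩, rfl, hx, ?_⟩
  · have h1 : r' ≤ 1 / (4 * ((C : ℝ) + 1)) := min_le_right _ _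
    have h3 : (0 : ℝ) ≤ C := C.2
    calc (C : ℝ) * (4 * r') ≤ C * (4 * (1 / (4 * ((C : ℝ) + 1)))) := by gcongr
      _ = C / (C + 1) := by field_simp
      _ ≤ 1 := by
        rw [div_le_one (by linarith)]
        linarith
  · exact Metric.mem_ball_self hr'0

lemma exists_cov (ho : Orientable M) : Nonempty (Cov M) := by
  obtain ⟨A, hA, hcov, hpos⟩ := ho
  have h1 : ∀ x : M, ∃ P : Patch M, P.e ∈ A ∧ x ∈ P.V := by
    intro x
    obtain ⟨e, he, hx⟩ := hcov x
    obtain ⟨P, hP, hxP⟩ := exists_patch (hA he) hx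
    exact ⟨P, hP ▸ he, hxP⟩
  choose P hPA hPV using h1
  obtain ⟨t, ht⟩ := isCompact_univ.elim_finite_subcover (fun x : M => (P x).V)
    (fun x => (P x).V_open) (fun x _ => mem_iUnion.2 ⟨x, hPV x⟩)
  refine ⟨⟨t.card, fun i => P (t.equivFin.symm i), ?_, ?_⟩⟩
  · intro x
    have := ht (mem_univ x)
    simp only [mem_iUnion] at this
    obtain ⟨y, hy, hxy⟩ := this
    refine ⟨t.equivFin ⟨y, hy⟩, ?_⟩
    simpa using hxy
  · intro i j x hx
    exact hpos _ (hPA _) _ (hPA _) x hx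

end

end Pool.Agent.H74.FAC
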