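import Pool.Agent.H74.FAC.Global1

open MeasureTheory Set Filter Measure Manifold Bundle
open scoped ContDiff Topology ENNReal NNReal

set_option linter.unusedSectionVars false
set_option linter.style.haveILetI false

noncomputable section

namespace Pool.Agent.H74.FAC

variable {M : Type} [MetricSpace M] [ChartedSpace HP M] [IsManifold (𝓡∂ 2) ∞ M] [CompactSpace M]

namespace Cov

variable (A : Cov M)

lemma bint_integrand_int {φ : S1 → M} (hφ : IsometricFilling φ) {u w : M → ℝ} {L L' : ℝ≥0}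
    (hu : LipschitzWith L u) (hw : LipschitzWith L' w) (a b : ℝ) :
    IntervalIntegrable (fun t : ℝ => u (φ (t : S1)) * deriv (fun t : ℝ => w (φ (t : S1))) t)
      volume a b := by
  rw [intervalIntegrable_iff]
  obtain ⟨B, hB⟩ := (isCompact_uIcc (a := a) (b := b)).exists_bound_of_continuousOn
    (hat_lip hφ hu).continuous.continuousOn
  apply Measure.integrableOn_of_bounded (M := B * L') (by simp [Real.volume_uIoc])
  · exact ((hat_lip hφ hu).continuous.aestronglyMeasurable).mul
      (measurable_deriv _).aestronglyMeasurable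
  · rw [ae_restrict_iff' measurableSet_uIoc]
    filter_upwards with t ht
    rw [norm_mul]
    have h1 := hB t (uIoc_subset_uIcc ht)
    have h2 : ‖deriv (fun t : ℝ => w (φ (t : S1))) t‖ ≤ L' := norm_deriv_le_of_lipschitz (hat_lip hφ hw)
    have h0 : 0 ≤ B := (norm_nonneg _).trans h1
    gcongr

/-- additivity of `B` in the first variable -/
lemma B_sum {m : ℕ} {u : Fin m → M → ℝ} {w : M → ℝ} {L' : ℝ≥0}
    (hu : ∀ i, ∃ L : ℝ≥0, LipschitzWith L (u i)) (hw : LipschitzWith L' w) :
    A.B (fun x => ∑ i, u i x) w = ∑ i, A.B (u i) w := by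
  choose L hL using hu
  unfold B
  rw [Finset.sum_comm]
  apply Finset.sum_congr rfl
  intro k _
  have hms := meas_image (A.S_meas k) ((A.S_sub k).trans (A.P k).V_sub)
  rw [← integral_finsetSum]
  · apply setIntegral_congr_ae hms
    have hae : ∀ᵐ z, ∀ i, z ∈ (A.P k).O →
        DifferentiableAt ℝ (fun y => u i (((A.P k).e.extend (𝓡∂ 2)).symm y)) z :=
      ae_all_iff.2 fun i => ((A.P k).cut (hL i)).diff
    filter_upwards [hae, Patch.image_ae (P := A.P k) (A.S_sub k)] with z h1 h2 h3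
    have hO := h2 h3
    have hd := fun i => h1 i hO
    have hfd : fderiv ℝ (fun y => ∑ i, u i (((A.P k).e.extend (𝓡∂ 2)).symm y)) z
        = ∑ i, fderiv ℝ (fun y => u i (((A.P k).e.extend (𝓡∂ 2)).symm y)) z := by
      rw [fderiv_fun_sum]
      intro i _
      exact hd i
    unfold Jc
    rw [hfd]
    simp only [_root_.sum_apply, Finset.sum_mul, Finset.sum_sub_distrib]
  · intro i _
    exact Patch.integrableOn_Jc (hL i) hw (A.S_meas k) (A.S_sub k)

/-- the formula for `B` with a subordinate partition of unity -/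
lemma B_formula {φ : S1 → M} (hφ : IsometricFilling φ) {σ : Fin A.n → ℝ}
    (hσ : ∀ l, ∀ (u w : M → ℝ) (L L' : ℝ≥0), LipschitzWith L u → LipschitzWith L' w →
      tsupport u ⊆ (A.P l).V →
      ∫ z in (A.P l).e.extend (𝓡∂ 2) '' (A.P l).V, Jc (A.P l).e u w z = - (σ l * bint φ u w))
    {χ : Fin A.n → M → ℝ} (hχ : ∀ i, ∃ C : ℝ≥0, LipschitzWith C (χ i))
    (hsupp : ∀ i, tsupport (χ i) ⊆ A.V i) (hsum : ∀ x, ∑ i, χ i x = 1) (hb : ∀ i x, |χ i x| ≤ 1)
    {u w : M → ℝ} {L L' : ℝ≥0} (hu : LipschitzWith L u) (hw : LipschitzWith L' w) :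
    A.B u w = - ∫ t in (0 : ℝ)..(2 * Real.pi), (∑ l, σ l * χ l (φ (t : S1))) *
      (u (φ (t : S1)) * deriv (fun t : ℝ => w (φ (t : S1))) t) := by
  have hub : ∃ K, ∀ x, |u x| ≤ K := by
    obtain ⟨K, hK⟩ := isCompact_univ.exists_bound_of_continuousOn hu.continuous.continuousOn
    exact ⟨K, fun x => hK x (mem_univ x)⟩
  obtain ⟨K, hK⟩ := hub
  have hprod : ∀ i, ∃ C : ℝ≥0, LipschitzWith C (fun x => χ i x * u x) := by
    intro i
    obtain ⟨C, hC⟩ := hχ i
    exact lip_mul hC hu (hb i) hK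
  have e1 : A.B u w = ∑ i, A.B (fun x => χ i x * u x) w := by
    rw [← A.B_sum hprod hw]
    congr 1
    ext x
    rw [← Finset.sum_mul, hsum, one_mul]
  rw [e1]
  have e2 : ∀ i, A.B (fun x => χ i x * u x) w = - (σ i * bint φ (fun x => χ i x * u x) w) := by
    intro i
    obtain ⟨C, hC⟩ := hprod i
    have hs : tsupport (fun x => χ i x * u x) ⊆ A.V i := tsupport_mul_subset_left.trans (hsupp i)
    rw [A.B_loc hC hw i hs]
    exact hσ i _ _ C L' hC hw hs
  simp_rw [e2]
  rw [Finset.sum_neg_distrib]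
  congr 1
  have e3 : ∀ t : ℝ, (∑ l, σ l * χ l (φ (t : S1))) *
      (u (φ (t : S1)) * deriv (fun t : ℝ => w (φ (t : S1))) t)
      = ∑ l, σ l * ((χ l (φ (t : S1)) * u (φ (t : S1))) * deriv (fun t : ℝ => w (φ (t : S1))) t) := by
    intro t
    rw [Finset.sum_mul]
    apply Finset.sum_congr rfl
    intro l _
    ring
  simp_rw [e3]
  rw [intervalIntegral.integral_finsetSum]
  · apply Finset.sum_congr rfl
    intro l _
    rw [intervalIntegral.integral_const_mul]
    rfl
  · intro l _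
    obtain ⟨C, hC⟩ := hprod l
    exact (bint_integrand_int hφ hC hw 0 (2 * Real.pi)).const_mul (σ l)

end Cov

end Pool.Agent.H74.FAC
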