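import Pool.Agent.H74.FAC.Global2

open MeasureTheory Set Filter Measure Manifold Bundle
open scoped ContDiff Topology ENNReal NNReal

set_option linter.unusedSectionVars false
set_option linter.style.haveILetI false

noncomputable section

namespace Pool.Agent.H74.FAC

variable {M : Type} [MetricSpace M] [ChartedSpace HP M] [IsManifold (𝓡∂ 2) ∞ M] [CompactSpace M]

lemma phi_inj {φ : S1 → M} (hφ : IsometricFilling φ) : Function.Injective φ := by
  intro a b h
  have := hφ.dist_eq a b
  rw [h, dist_self] at this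
  exact eq_of_dist_eq_zero this.symm

/-- extension of a Lipschitz function from the boundary circle to the surface -/
lemma circle_ext {φ : S1 → M} (hφ : IsometricFilling φ) {g : ℝ → ℝ} {C : ℝ≥0}
    (hg : LipschitzWith C g) (hp : Function.Periodic g (2 * Real.pi)) :
    ∃ w : M → ℝ, LipschitzWith C w ∧ ∀ t : ℝ, w (φ (t : S1)) = g t := by
  set gt : S1 → ℝ := hp.lift with hgt
  have hgt1 : ∀ t : ℝ, gt (t : S1) = g t := fun t => Function.Periodic.lift_coe hp t
  have hgl : ∀ x y : S1, dist (gt x) (gt y) ≤ C * dist x y := by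
    intro x y
    obtain ⟨s, rfl⟩ := QuotientAddGroup.mk_surjective y
    obtain ⟨t, rfl, ht⟩ := exists_lift x s
    have h1 := hg.dist_le_mul t s
    rw [Real.dist_eq t s, ht] at h1
    have h2 : gt (t : S1) = g t := hgt1 t
    have h3 : gt (QuotientAddGroup.mk s : S1) = g s := hgt1 s
    rw [h2, h3]
    exact h1
  have hinv : ∀ x : S1, Function.invFun φ (φ x) = x := Function.leftInverse_invFun (phi_inj hφ)
  have hL : LipschitzOnWith C (fun x => gt (Function.invFun φ x)) (range φ) := by
    apply LipschitzOnWith.of_dist_le_mul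
    rintro _ ⟨x, rfl⟩ _ ⟨y, rfl⟩
    rw [hinv, hinv, hφ.dist_eq]
    exact hgl x y
  obtain ⟨w, hw, hw'⟩ := hL.extend_real
  refine ⟨w, hw, fun t => ?_⟩
  rw [← hw' (mem_range_self _)]
  simp only [hinv]
  exact hgt1 t

namespace Cov

variable (A : Cov M)

lemma B_one (w : M → ℝ) : A.B (fun _ => 1) w = 0 := by
  unfold B Jc
  simp

/-- a weight which kills all exact forms is constant -/
lemma weight_const {φ : S1 → M} (hφ : IsometricFilling φ) {Sgh : ℝ → ℝ} (hc : Continuous Sgh)
    (hper : Function.Periodic Sgh (2 * Real.pi))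
    (h0 : ∀ (w : M → ℝ) (L : ℝ≥0), LipschitzWith L w →
      ∫ t in (0 : ℝ)..(2 * Real.pi), Sgh t * deriv (fun t : ℝ => w (φ (t : S1))) t = 0) :
    ∃ m : ℝ, ∀ t, Sgh t = m := by
  have hpi : (0 : ℝ) < 2 * Real.pi := by positivity
  set m : ℝ := (2 * Real.pi)⁻¹ * ∫ t in (0 : ℝ)..(2 * Real.pi), Sgh t with hm
  set f : ℝ → ℝ := fun t => Sgh t - m with hf
  have hfc : Continuous f := hc.sub continuous_const
  have hfp : Function.Periodic f (2 * Real.pi) := fun t => by simp [hf, hper t]
  have hf0 : ∫ t in (0 : ℝ)..(2 * Real.pi), f t = 0 := by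
    simp only [hf]
    rw [intervalIntegral.integral_sub (hc.intervalIntegrable _ _) (by simp),
      intervalIntegral.integral_const]
    simp only [sub_zero, smul_eq_mul, hm]
    field_simp
    ring
  set g : ℝ → ℝ := fun t => ∫ s in (0 : ℝ)..t, f s with hg
  have hgd : ∀ t, HasDerivAt g (f t) t := fun t =>
    intervalIntegral.integral_hasDerivAt_right (hfc.intervalIntegrable _ _)
      (hfc.stronglyMeasurableAtFilter _ _) hfc.continuousAt
  have hgp : Function.Periodic g (2 * Real.pi) := by
    intro t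
    have h1 : g (t + 2 * Real.pi) = g t + ∫ s in t..(t + 2 * Real.pi), f s := by
      simp only [hg]
      rw [intervalIntegral.integral_add_adjacent_intervals] <;> exact hfc.intervalIntegrable _ _
    have h2 := hfp.intervalIntegral_add_eq t 0
    rw [zero_add] at h2
    rw [h1, h2, hf0, add_zero]
  -- f is bounded
  obtain ⟨C, hC⟩ : ∃ C : ℝ, ∀ t, |f t| ≤ C := by
    obtain ⟨C, hC⟩ := (isCompact_Icc (a := (0 : ℝ)) (b := 2 * Real.pi)).exists_bound_of_continuousOn
      hfc.continuousOn
    refine ⟨C, fun t => ?_⟩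
    obtain ⟨y, hy, hty⟩ := hfp.exists_mem_Ico₀ hpi t
    rw [hty]
    exact hC y ⟨hy.1, hy.2.le⟩
  have hC0 : 0 ≤ C := (abs_nonneg _).trans (hC 0)
  have hgL : LipschitzWith ⟨C, hC0⟩ g := by
    apply lipschitzWith_of_nnnorm_deriv_le (fun t => (hgd t).differentiableAt)
    intro t
    rw [(hgd t).deriv]
    exact hC t
  obtain ⟨w, hw, hw'⟩ := circle_ext hφ hgL hgp
  have h1 := h0 w _ hw
  have h2 : ∀ t, deriv (fun t : ℝ => w (φ (t : S1))) t = f t := by
    intro t
    have : (fun t : ℝ => w (φ (t : S1))) = g := by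
      ext t
      exact hw' t
    rw [this, (hgd t).deriv]
  simp_rw [h2] at h1
  have h3 : ∫ t in (0 : ℝ)..(2 * Real.pi), f t * f t = 0 := by
    have e : ∀ t, f t * f t = Sgh t * f t - m * f t := by
      intro t
      simp only [hf]
      ring
    simp_rw [e]
    rw [intervalIntegral.integral_sub, h1, intervalIntegral.integral_const_mul, hf0]
    · ring
    · exact (hc.mul hfc).intervalIntegrable _ _
    · exact (continuous_const.mul hfc).intervalIntegrable _ _
  refine ⟨m, fun t => ?_⟩
  by_contra hne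
  obtain ⟨y, hy, hty⟩ := hfp.exists_mem_Ico₀ hpi t
  have hfy : f y ≠ 0 := by
    rw [← hty]
    simp only [hf]
    exact sub_ne_zero.2 hne
  have hpos : 0 < ∫ t in (0 : ℝ)..(2 * Real.pi), f t * f t := by
    apply intervalIntegral.integral_pos hpi (hfc.mul hfc).continuousOn
    · intro x _
      exact mul_self_nonneg _
    · exact ⟨y, ⟨hy.1, hy.2.le⟩, mul_self_pos.2 hfy⟩
  linarith

/-- **Stokes formula** on an oriented isometric filling of the circle. -/
theorem stokes {φ : S1 → M} (hφ : IsometricFilling φ) :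
    ∃ m : ℝ, (m = 1 ∨ m = -1) ∧ ∀ (u w : M → ℝ) (L L' : ℝ≥0), LipschitzWith L u →
      LipschitzWith L' w → A.B u w = m * bint φ u w := by
  choose σ hσ1 hσ2 using fun l => (A.P l).exists_sigma hφ
  -- a base point on the boundary
  set x0 : M := φ ((0 : ℝ) : S1) with hx0
  obtain ⟨l0, hl0⟩ := A.cover x0
  classical
  set U : Fin A.n → Set M := fun l => if l = l0 then A.V l else A.V l \ {x0} with hU
  have hUo : ∀ l, IsOpen (U l) := by
    intro l
    simp only [hU]
    split_ifs
    · exact A.V_open l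
    · exact (A.V_open l).sdiff isClosed_singleton
  have hUsub : ∀ l, U l ⊆ A.V l := by
    intro l
    simp only [hU]
    split_ifs
    · exact Subset.rfl
    · exact sdiff_subset
  have hUc : ∀ x, ∃ l, x ∈ U l := by
    intro x
    by_cases hx : x = x0
    · refine ⟨l0, ?_⟩
      simp only [hU, if_true]
      rw [hx]
      exact hl0
    · obtain ⟨l, hl⟩ := A.cover x
      refine ⟨l, ?_⟩
      simp only [hU]
      split_ifs
      · exact hl
      · exact ⟨hl, hx⟩
  obtain ⟨χ, hχL, hχs, hχ1, hχb⟩ := exists_partition hUo hUc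
  have hform : ∀ (u w : M → ℝ) (L L' : ℝ≥0), LipschitzWith L u → LipschitzWith L' w →
      A.B u w = - ∫ t in (0 : ℝ)..(2 * Real.pi), (∑ l, σ l * χ l (φ (t : S1))) *
      (u (φ (t : S1)) * deriv (fun t : ℝ => w (φ (t : S1))) t) := fun u w L L' hu hw =>
    A.B_formula hφ hσ2 hχL (fun i => (hχs i).trans (hUsub i)) hχ1 hχb hu hw
  set Sgh : ℝ → ℝ := fun t => ∑ l, σ l * χ l (φ (t : S1)) with hSg
  have hSgc : Continuous Sgh := by
    apply continuous_finsetSum
    intro l _
    obtain ⟨C, hC⟩ := hχL l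
    exact continuous_const.mul (hat_lip hφ hC).continuous
  have hSgp : Function.Periodic Sgh (2 * Real.pi) := by
    intro t
    simp only [hSg]
    apply Finset.sum_congr rfl
    intro l _
    rw [coe_add_period]
  have h0 : ∀ (w : M → ℝ) (L : ℝ≥0), LipschitzWith L w →
      ∫ t in (0 : ℝ)..(2 * Real.pi), Sgh t * deriv (fun t : ℝ => w (φ (t : S1))) t = 0 := by
    intro w L hw
    have h1 := hform (fun _ => 1) w 0 L (LipschitzWith.const 1) hw
    rw [A.B_one] at h1
    simp only [one_mul] at h1
    linarith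
  obtain ⟨m, hm⟩ := weight_const hφ hSgc hSgp h0
  have hx0l : ∀ l, l ≠ l0 → χ l x0 = 0 := by
    intro l hl
    apply image_eq_zero_of_notMem_tsupport
    intro h
    have := hχs l h
    simp only [hU, if_neg hl] at this
    exact this.2 rfl
  have hm0 : m = σ l0 := by
    rw [← hm 0]
    simp only [hSg]
    rw [Finset.sum_eq_single l0]
    · have h2 := hχ1 x0
      rw [Finset.sum_eq_single l0] at h2
      · rw [h2, mul_one]
      · intro l _ hl
        exact hx0l l hl
      · intro h
        exact absurd (Finset.mem_univ _) h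
    · intro l _ hl
      rw [hx0l l hl, mul_zero]
    · intro h
      exact absurd (Finset.mem_univ _) h
  have hσ0 : σ l0 = 1 ∨ σ l0 = -1 := by
    rcases hσ1 l0 with h | ⟨_, h⟩
    · exact h
    · exfalso
      have : x0 ∈ (A.P l0).V ∩ range φ := ⟨hl0, mem_range_self _⟩
      rw [h] at this
      exact this
  refine ⟨-m, ?_, ?_⟩
  · rw [hm0]
    rcases hσ0 with h | h <;> rw [h]
    · right; rfl
    · left; norm_num
  · intro u w L L' hu hw
    rw [hform u w L L' hu hw]
    have e : ∀ t : ℝ, (∑ l, σ l * χ l (φ (t : S1))) = m := hm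
    simp_rw [e]
    rw [intervalIntegral.integral_const_mul]
    unfold bint
    ring

end Cov

end Pool.Agent.H74.FAC
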