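import Mathlib

open MeasureTheory Set Filter Measure
open scoped ContDiff Topology ENNReal NNReal

noncomputable section

namespace Pool.Agent.H74.FAC

section general

variable {E : Type*} [NormedAddCommGroup E] [NormedSpace ℝ E] [MeasurableSpace E] [BorelSpace E]
  {C D : ℝ≥0} {f g : E → ℝ}
  [FiniteDimensional ℝ E] {μ : Measure E} [IsAddHaarMeasure μ]

lemma lineDeriv_eq_zero_of_notMem_tsupport (x v : E) (hx : x ∉ tsupport g) :
    lineDeriv ℝ g x v = 0 := by
  have h : g =ᶠ[𝓝 x] fun _ => 0 := notMem_tsupport_iff_eventuallyEq.mp hx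
  have : lineDeriv ℝ g x v = lineDeriv ℝ (fun _ => (0 : ℝ)) x v := h.lineDeriv_eq
  rw [this]
  simp [lineDeriv]

lemma integrable_lineDeriv (hg : LipschitzWith D g) (h'g : HasCompactSupport g) (v : E) :
    Integrable (fun x => lineDeriv ℝ g x v) μ := by
  have h1 : IntegrableOn (fun x => lineDeriv ℝ g x v) (tsupport g) μ :=
    (hg.locallyIntegrable_lineDeriv v).integrableOn_isCompact h'g
  rwa [integrableOn_iff_integrable_of_support_subset] at h1
  intro x hx
  by_contra h
  exact hx (lineDeriv_eq_zero_of_notMem_tsupport x v h)

lemma integral_lineDeriv_swap (hf : LipschitzWith C f) (h'f : HasCompactSupport f)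
    (hg : LipschitzWith D g) (h'g : HasCompactSupport g) (v w : E) :
    ∫ x, lineDeriv ℝ f x v * lineDeriv ℝ g x w ∂μ
      = ∫ x, lineDeriv ℝ f x w * lineDeriv ℝ g x v ∂μ := by
  have A := hg.integral_inv_smul_sub_mul_tendsto_integral_lineDeriv_mul (μ := μ)
    (integrable_lineDeriv hf h'f v) w
  have B := hf.integral_inv_smul_sub_mul_tendsto_integral_lineDeriv_mul (μ := μ)
    (integrable_lineDeriv hg h'g (-v)) (-w)
  have key : ∀ t : ℝ, ∫ x, (t⁻¹ • (g (x + t • w) - g x)) * lineDeriv ℝ f x v ∂μ
      = ∫ x, (t⁻¹ • (f (x + t • (-w)) - f x)) * lineDeriv ℝ g x (-v) ∂μ := by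
    intro t
    set G : E → ℝ := fun x => g (x + t • w) - g x with hG
    have hGL : LipschitzWith (D + D) G := by
      have h1 : LipschitzWith D (fun x => g (x + t • w)) := by
        have := hg.comp (LipschitzWith.id.add (LipschitzWith.const (t • w)) :
          LipschitzWith (1 + 0) (fun x : E => x + t • w))
        simpa [Function.comp_def] using this
      exact h1.sub hg
    have h2 := LipschitzWith.integral_lineDeriv_mul_eq (μ := μ) hGL hf h'f (-v)
    rw [neg_neg] at h2
    have h3 : ∀ᵐ x ∂μ, lineDeriv ℝ G x (-v)
        = lineDeriv ℝ g (x + t • w) (-v) - lineDeriv ℝ g x (-v) := by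
      have a1 := hg.ae_lineDifferentiableAt (μ := μ) (-v)
      have a2 : ∀ᵐ x ∂μ, LineDifferentiableAt ℝ g (x + t • w) (-v) :=
        (measurePreserving_add_right μ (t • w)).quasiMeasurePreserving.ae a1
      filter_upwards [a1, a2] with x h1 h2
      have e1 : HasLineDerivAt ℝ (fun y => g (y + t • w)) (lineDeriv ℝ g (x + t • w) (-v)) x (-v) := by
        have := h2.hasLineDerivAt
        simp only [HasLineDerivAt] at this ⊢
        convert this using 3 with s
        abel
      have e2 : HasDerivAt (fun s : ℝ => g (x + s • (-v))) (lineDeriv ℝ g x (-v)) 0 :=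
        h1.hasLineDerivAt
      have e3 : HasDerivAt (fun s : ℝ => g (x + s • (-v) + t • w))
        (lineDeriv ℝ g (x + t • w) (-v)) 0 := e1
      exact (e3.sub e2).deriv
    have h4 : ∫ x, G x * lineDeriv ℝ f x v ∂μ
        = ∫ x, (f (x + t • (-w)) - f x) * lineDeriv ℝ g x (-v) ∂μ := by
      calc ∫ x, G x * lineDeriv ℝ f x v ∂μ = ∫ x, lineDeriv ℝ f x v * G x ∂μ := by
            simp_rw [mul_comm]
        _ = ∫ x, lineDeriv ℝ G x (-v) * f x ∂μ := h2.symm
        _ = ∫ x, (lineDeriv ℝ g (x + t • w) (-v) - lineDeriv ℝ g x (-v)) * f x ∂μ := by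
            apply integral_congr_ae
            filter_upwards [h3] with x hx
            rw [hx]
        _ = ∫ x, (f (x + t • (-w)) - f x) * lineDeriv ℝ g x (-v) ∂μ := by
            have i0 : Integrable (fun x => lineDeriv ℝ g x (-v)) μ := integrable_lineDeriv hg h'g _
            have i1 : Integrable (fun x => lineDeriv ℝ g x (-v) * f x) μ := by
              obtain ⟨K, hK⟩ := (hf.continuous.bounded_above_of_compact_support h'f)
              exact i0.mul_bdd (c := K) hf.continuous.aestronglyMeasurable
                (Eventually.of_forall hK)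
            have i2 : Integrable (fun x => lineDeriv ℝ g (x + t • w) (-v) * f x) μ := by
              obtain ⟨K, hK⟩ := (hf.continuous.bounded_above_of_compact_support h'f)
              exact (i0.comp_add_right (t • w)).mul_bdd (c := K) hf.continuous.aestronglyMeasurable
                (Eventually.of_forall hK)
            have i3 : Integrable (fun x => f (x + t • (-w)) * lineDeriv ℝ g x (-v)) μ := by
              obtain ⟨K, hK⟩ := (hf.continuous.bounded_above_of_compact_support h'f)
              refine i0.bdd_mul (c := K) ?_ (Eventually.of_forall fun x => hK _)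
              exact (hf.continuous.comp (continuous_add_const _)).aestronglyMeasurable
            simp_rw [sub_mul]
            rw [integral_sub i2 i1, integral_sub i3]
            · congr 1
              · rw [← integral_add_right_eq_self _ (t • (-w))]
                apply integral_congr_ae
                filter_upwards with x
                rw [mul_comm]
                congr 2
                simp
              · simp_rw [mul_comm]
            · simpa [mul_comm] using i1
    simp only [smul_eq_mul, mul_assoc]
    rw [integral_const_mul, integral_const_mul, h4]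
  have C1 : ∫ x, lineDeriv ℝ g x w * lineDeriv ℝ f x v ∂μ
      = ∫ x, lineDeriv ℝ f x (-w) * lineDeriv ℝ g x (-v) ∂μ :=
    tendsto_nhds_unique A (by simpa only [key] using B)
  simp_rw [lineDeriv_neg, neg_mul_neg] at C1
  rw [← C1]
  simp_rw [mul_comm]

end general

end Pool.Agent.H74.FAC
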