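import Pool.Agent.H74.FAC.Defs
import Pool.Agent.H74.FAC.HalfPlane

open MeasureTheory Set Filter Measure
open scoped ContDiff Topology ENNReal NNReal

noncomputable section

namespace Pool.Agent.H74.FAC

/-- basis vectors -/
def bv (i : Fin 2) : E2 := EuclideanSpace.single i (1 : ℝ)

def pt (a s : ℝ) : E2 := !₂[a, s]

@[simp] lemma pt_zero (a s : ℝ) : pt a s 0 = a := rfl
@[simp] lemma pt_one (a s : ℝ) : pt a s 1 = s := rfl

lemma pt_eq (a s : ℝ) : pt a s = a • bv 0 + s • bv 1 := by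
  ext i
  fin_cases i <;> simp [pt, bv]

lemma norm_bv (i : Fin 2) : ‖bv i‖ = 1 := by simp [bv]

lemma pt_self (x : E2) : pt (x 0) (x 1) = x := by
  ext i
  fin_cases i <;> simp [pt]

lemma dist_pt_fst (a a' s : ℝ) : dist (pt a s) (pt a' s) = |a - a'| := by
  rw [dist_eq_norm]
  have : pt a s - pt a' s = (a - a') • bv 0 := by rw [pt_eq, pt_eq]; module
  rw [this, norm_smul, norm_bv, mul_one, Real.norm_eq_abs]

lemma dist_pt_snd (a s s' : ℝ) : dist (pt a s) (pt a s') = |s - s'| := by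
  rw [dist_eq_norm]
  have : pt a s - pt a s' = (s - s') • bv 1 := by rw [pt_eq, pt_eq]; module
  rw [this, norm_smul, norm_bv, mul_one, Real.norm_eq_abs]

def ptE : ℝ × ℝ ≃ᵐ E2 :=
  (MeasurableEquiv.finTwoArrow (α := ℝ)).symm.trans (MeasurableEquiv.toLp 2 (Fin 2 → ℝ))

lemma ptE_apply (p : ℝ × ℝ) : ptE p = pt p.1 p.2 := by
  ext i
  fin_cases i <;> simp [ptE, pt, MeasurableEquiv.finTwoArrow]

lemma ptE_mp : MeasurePreserving (ptE) (volume : Measure (ℝ × ℝ)) (volume : Measure E2) :=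
  ((MeasureTheory.volume_preserving_finTwoArrow ℝ).symm _).trans (PiLp.volume_preserving_toLp (Fin 2))

/-- Fubini for the plane. -/
lemma integral_E2 (F : E2 → ℝ) (hF : Integrable F) :
    ∫ x, F x = ∫ a : ℝ, ∫ s : ℝ, F (pt a s) := by
  rw [← ptE_mp.integral_comp ptE.measurableEmbedding F]
  have hI : Integrable (fun p : ℝ × ℝ => F (ptE p)) :=
    (ptE_mp.integrable_comp_emb ptE.measurableEmbedding).2 hF
  have := MeasureTheory.integral_prod (f := fun p : ℝ × ℝ => F (ptE p)) (μ := volume) (ν := volume) hI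
  rw [Measure.volume_eq_prod, this]
  simp_rw [ptE_apply]

/-- one dimensional integration by parts -/
lemma ibp_one {u v : ℝ → ℝ} {C D : ℝ≥0} (hu : LipschitzWith C u) (hv : LipschitzWith D v)
    (h'v : HasCompactSupport v) : ∫ s, deriv u s * v s = - ∫ s, deriv v s * u s := by
  have h := LipschitzWith.integral_lineDeriv_mul_eq (μ := (volume : Measure ℝ)) hu hv h'v 1
  have e : ∀ (w : ℝ → ℝ) (x : ℝ), lineDeriv ℝ w x 1 = deriv w x := by
    intro w x
    simp only [lineDeriv, smul_eq_mul, mul_one]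
    have := deriv_comp_const_add (f := w) x 0
    simpa using this
  simp_rw [lineDeriv_neg, e] at h
  rw [h, ← integral_neg]
  simp

lemma lineDeriv_pt (g : E2 → ℝ) (a s : ℝ) :
    lineDeriv ℝ g (pt a s) (bv 1) = deriv (fun s => g (pt a s)) s := by
  simp only [lineDeriv]
  have := deriv_comp_const_add (f := fun s => g (pt a s)) s 0
  simp only [add_zero] at this
  rw [← this]
  congr 1
  ext t
  congr 1
  rw [pt_eq, pt_eq]
  module

end Pool.Agent.H74.FAC
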