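import Pool.Agent.H74.FAC.HP3

open MeasureTheory Set Filter Measure
open scoped ContDiff Topology ENNReal NNReal

noncomputable section

namespace Pool.Agent.H74.FAC

lemma abs_coord_sub_le (x y : E2) (i : Fin 2) : |x i - y i| ≤ dist x y := by
  rw [EuclideanSpace.dist_eq]
  apply Real.abs_le_sqrt
  have : (x i - y i) ^ 2 = dist (x i) (y i) ^ 2 := by rw [Real.dist_eq, sq_abs]
  rw [this]
  exact Finset.single_le_sum (f := fun j => dist (x j) (y j) ^ 2) (fun j _ => sq_nonneg _)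
    (Finset.mem_univ i)

lemma continuous_coord (i : Fin 2) : Continuous (fun x : E2 => x i) := by fun_prop

def ramp (ε : ℝ) (x : E2) : ℝ := max 0 (min 1 (x 0 / ε))

lemma ramp_nonneg (ε : ℝ) (x : E2) : 0 ≤ ramp ε x := le_max_left _ _
lemma ramp_le_one (ε : ℝ) (x : E2) : ramp ε x ≤ 1 := max_le zero_le_one (min_le_left _ _)
lemma ramp_abs (ε : ℝ) (x : E2) : |ramp ε x| ≤ 1 := by
  rw [abs_of_nonneg (ramp_nonneg _ _)]; exact ramp_le_one _ _

lemma ramp_lip {ε : ℝ} (hε : 0 < ε) : LipschitzWith ⟨1 / ε, by positivity⟩ (ramp ε) := by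
  apply lip_of_abs
  intro x y
  have h1 : |ramp ε x - ramp ε y| ≤ |x 0 / ε - y 0 / ε| := by
    unfold ramp
    calc |max 0 (min 1 (x 0 / ε)) - max 0 (min 1 (y 0 / ε))|
        ≤ |min 1 (x 0 / ε) - min 1 (y 0 / ε)| := by
          have := abs_max_sub_max_le_max 0 (min 1 (x 0 / ε)) 0 (min 1 (y 0 / ε))
          simpa using this
      _ ≤ |x 0 / ε - y 0 / ε| := by
          have := abs_min_sub_min_le_max 1 (x 0 / ε) 1 (y 0 / ε)
          simpa using this
  refine h1.trans ?_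
  rw [← sub_div, abs_div, abs_of_pos hε, div_le_iff₀ hε]
  have := abs_coord_sub_le x y 0
  calc |x 0 - y 0| ≤ dist x y := this
    _ = 1 / ε * dist x y * ε := by field_simp

lemma ramp_line1 (ε : ℝ) (x : E2) : lineDeriv ℝ (ramp ε) x (bv 1) = 0 := by
  have : (fun t : ℝ => ramp ε (x + t • bv 1)) = fun _ => ramp ε x := by
    ext t
    simp [ramp, bv]
  simp [lineDeriv, this]

lemma ramp_line0_mid {ε : ℝ} (hε : 0 < ε) (x : E2) (h0 : 0 < x 0) (h1 : x 0 < ε) :
    lineDeriv ℝ (ramp ε) x (bv 0) = 1 / ε := by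
  have hev : ramp ε =ᶠ[𝓝 x] fun y => y 0 / ε := by
    have o : {y : E2 | 0 < y 0 ∧ y 0 < ε} ∈ 𝓝 x := by
      refine IsOpen.mem_nhds ((isOpen_lt continuous_const (continuous_coord 0)).inter
        (isOpen_lt (continuous_coord 0) continuous_const)) ⟨h0, h1⟩
    filter_upwards [o] with y hy
    have : y 0 / ε ≤ 1 := by rw [div_le_one hε]; exact hy.2.le
    have h3 : 0 ≤ y 0 / ε := by have := hy.1; positivity
    simp [ramp, this, h3]
  rw [hev.lineDeriv_eq]
  have : (fun t : ℝ => (x + t • bv 0) 0 / ε) = fun t => (x 0 + t) / ε := by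
    ext t; simp [bv]
  simp only [lineDeriv, this]
  simp

lemma ramp_line0_neg {ε : ℝ} (hε : 0 < ε) (x : E2) (h0 : x 0 < 0) :
    lineDeriv ℝ (ramp ε) x (bv 0) = 0 := by
  have hev : ramp ε =ᶠ[𝓝 x] fun y => 0 := by
    have o : {y : E2 | y 0 < 0} ∈ 𝓝 x := (isOpen_lt (continuous_coord 0) continuous_const).mem_nhds h0
    filter_upwards [o] with y hy
    have : y 0 / ε ≤ 0 := div_nonpos_of_nonpos_of_nonneg (le_of_lt hy) hε.le
    have h2 : min 1 (y 0 / ε) ≤ 0 := (min_le_right _ _).trans this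
    simp [ramp, h2]
  rw [hev.lineDeriv_eq]
  simp [lineDeriv]

lemma ramp_line0_pos {ε : ℝ} (hε : 0 < ε) (x : E2) (h0 : ε < x 0) :
    lineDeriv ℝ (ramp ε) x (bv 0) = 0 := by
  have hev : ramp ε =ᶠ[𝓝 x] fun y => 1 := by
    have o : {y : E2 | ε < y 0} ∈ 𝓝 x := (isOpen_lt continuous_const (continuous_coord 0)).mem_nhds h0
    filter_upwards [o] with y hy
    have : 1 ≤ y 0 / ε := by rw [one_le_div hε]; exact le_of_lt hy
    simp [ramp, this]
  rw [hev.lineDeriv_eq]
  simp [lineDeriv]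

lemma null_line (c : ℝ) : ∀ᵐ x : E2, x 0 ≠ c := by
  rw [← ptE_mp.map_eq]
  rw [ae_map_iff ptE.measurable.aemeasurable]
  · have : ∀ᵐ p : ℝ × ℝ, p.1 ≠ c := by
      have h : ∀ᵐ a : ℝ, a ≠ c := by simp [ae_iff]
      exact (Measure.quasiMeasurePreserving_fst (μ := (volume : Measure ℝ)) (ν := (volume : Measure ℝ))).ae h
    filter_upwards [this] with p hp
    rw [ptE_apply]
    exact hp
  · exact ((continuous_coord 0).measurable (measurableSet_singleton c)).compl

lemma ae_lineDeriv_mul {f g : E2 → ℝ} {C D : ℝ≥0} (hf : LipschitzWith C f) (hg : LipschitzWith D g)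
    (v : E2) : ∀ᵐ x, lineDeriv ℝ (fun y => f y * g y) x v
      = f x * lineDeriv ℝ g x v + g x * lineDeriv ℝ f x v := by
  filter_upwards [hf.ae_lineDifferentiableAt (μ := volume) v,
    hg.ae_lineDifferentiableAt (μ := volume) v] with x h1 h2
  have e1 : HasDerivAt (fun t : ℝ => f (x + t • v)) (lineDeriv ℝ f x v) 0 := h1.hasLineDerivAt
  have e2 : HasDerivAt (fun t : ℝ => g (x + t • v)) (lineDeriv ℝ g x v) 0 := h2.hasLineDerivAt
  have := (e1.mul e2).deriv
  simp only [lineDeriv] at this ⊢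
  rw [show (fun t : ℝ => f (x + t • v) * g (x + t • v)) = (fun t : ℝ => f (x + t • v)) * (fun t : ℝ => g (x + t • v)) from rfl, this]
  simp only [zero_smul, add_zero]
  ring

/-- Jacobian with line derivatives -/
def JL (f g : E2 → ℝ) (x : E2) : ℝ :=
  lineDeriv ℝ f x (bv 0) * lineDeriv ℝ g x (bv 1) - lineDeriv ℝ f x (bv 1) * lineDeriv ℝ g x (bv 0)

end Pool.Agent.H74.FAC
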