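import Pool.Agent.H74.FAC.HP4

open MeasureTheory Set Filter Measure
open scoped ContDiff Topology ENNReal NNReal

noncomputable section

namespace Pool.Agent.H74.FAC

variable {f g : E2 → ℝ} {C D : ℝ≥0}

lemma integrable_prod_lineDeriv (hf : LipschitzWith C f) (h'f : HasCompactSupport f)
    (hg : LipschitzWith D g) (v w : E2) :
    Integrable (fun x => lineDeriv ℝ f x v * lineDeriv ℝ g x w) := by
  refine (integrable_lineDeriv hf h'f v).mul_bdd (c := D * ‖w‖) ?_ ?_
  · exact aestronglyMeasurable_lineDeriv hg.continuous _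
  · filter_upwards with x
    exact norm_lineDeriv_le_of_lipschitz ℝ hg

lemma integrable_JL (hf : LipschitzWith C f) (h'f : HasCompactSupport f)
    (hg : LipschitzWith D g) : Integrable (JL f g) :=
  (integrable_prod_lineDeriv hf h'f hg _ _).sub (integrable_prod_lineDeriv hf h'f hg _ _)

lemma integrable_mul_lineDeriv (hf : LipschitzWith C f) (h'f : HasCompactSupport f)
    (hg : LipschitzWith D g) (w : E2) :
    Integrable (fun x => f x * lineDeriv ℝ g x w) := by
  refine (hf.continuous.integrable_of_hasCompactSupport h'f).mul_bdd (c := D * ‖w‖) ?_ ?_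
  · exact aestronglyMeasurable_lineDeriv hg.continuous _
  · filter_upwards with x
    exact norm_lineDeriv_le_of_lipschitz ℝ hg

/-- the strip indicator identity -/
lemma ramp_identity (hf : LipschitzWith C f) (h'f : HasCompactSupport f)
    (hg : LipschitzWith D g) (h'g : HasCompactSupport g) {ε : ℝ} (hε : 0 < ε) :
    ∫ x, ramp ε x * JL f g x
      = - ∫ x, ({x : E2 | 0 < x 0 ∧ x 0 < ε}.indicator
          (fun x => (1 / ε) * (f x * lineDeriv ℝ g x (bv 1)))) x := by
  obtain ⟨B, hB⟩ := bdd_of_compact hf.continuous h'f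
  obtain ⟨K, hK⟩ := lip_mul (ramp_lip hε) hf (ramp_abs ε) hB
  have cs : HasCompactSupport (fun x => ramp ε x * f x) := h'f.mul_left
  have sw := integral_lineDeriv_swap (μ := (volume : Measure E2)) hK cs hg h'g (bv 0) (bv 1)
  have i1 := integrable_prod_lineDeriv hK cs hg (bv 0) (bv 1)
  have i2 := integrable_prod_lineDeriv hK cs hg (bv 1) (bv 0)
  have z : ∫ x, JL (fun x => ramp ε x * f x) g x = 0 := by
    simp only [JL]
    rw [integral_sub i1 i2, sw, sub_self]
  set S : Set E2 := {x : E2 | 0 < x 0 ∧ x 0 < ε} with hS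
  have mS : MeasurableSet S :=
    (((continuous_coord 0).measurable measurableSet_Ioi).inter
      ((continuous_coord 0).measurable measurableSet_Iio) : MeasurableSet _)
  set F : E2 → ℝ := S.indicator (fun x => (1 / ε) * (f x * lineDeriv ℝ g x (bv 1))) with hF
  have iF : Integrable F := ((integrable_mul_lineDeriv hf h'f hg (bv 1)).const_mul (1 / ε)).indicator mS
  have iR : Integrable (fun x => ramp ε x * JL f g x) := by
    refine (integrable_JL hf h'f hg).bdd_mul (c := 1) ?_ ?_
    · exact (ramp_lip hε).continuous.aestronglyMeasurable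
    · filter_upwards with x using ramp_abs ε x
  have key : ∀ᵐ x, JL (fun x => ramp ε x * f x) g x = ramp ε x * JL f g x + F x := by
    filter_upwards [ae_lineDeriv_mul (ramp_lip hε) hf (bv 0), ae_lineDeriv_mul (ramp_lip hε) hf (bv 1),
      null_line 0, null_line ε] with x h0 h1 n0 nε
    simp only [JL]
    rw [h0, h1, ramp_line1]
    rcases lt_or_gt_of_ne n0 with hx | hx
    · rw [ramp_line0_neg hε x hx]
      have : x ∉ S := fun h => absurd h.1 (not_lt.mpr hx.le)
      rw [hF, indicator_of_notMem this]
      ring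
    · rcases lt_or_gt_of_ne nε with hy | hy
      · rw [ramp_line0_mid hε x hx hy]
        have : x ∈ S := ⟨hx, hy⟩
        rw [hF, indicator_of_mem this]
        ring
      · rw [ramp_line0_pos hε x hy]
        have : x ∉ S := fun h => absurd h.2 (not_lt.mpr hy.le)
        rw [hF, indicator_of_notMem this]
        ring
  rw [integral_congr_ae key, integral_add iR iF] at z
  linarith

lemma strip_integral (hf : LipschitzWith C f) (h'f : HasCompactSupport f)
    (hg : LipschitzWith D g) {ε : ℝ} :
    ∫ x, ({x : E2 | 0 < x 0 ∧ x 0 < ε}.indicator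
          (fun x => (1 / ε) * (f x * lineDeriv ℝ g x (bv 1)))) x
      = ∫ a in Ioo 0 ε, (1 / ε) * G f g a := by
  set S : Set E2 := {x : E2 | 0 < x 0 ∧ x 0 < ε} with hS
  have mS : MeasurableSet S :=
    (((continuous_coord 0).measurable measurableSet_Ioi).inter
      ((continuous_coord 0).measurable measurableSet_Iio) : MeasurableSet _)
  rw [integral_E2 _ (((integrable_mul_lineDeriv hf h'f hg (bv 1)).const_mul (1 / ε)).indicator mS)]
  rw [← integral_indicator measurableSet_Ioo]
  congr 1
  ext a
  by_cases ha : a ∈ Ioo 0 ε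
  · rw [indicator_of_mem ha]
    have : ∀ s, pt a s ∈ S := fun s => ha
    simp only [indicator_of_mem (this _)]
    rw [integral_const_mul]
    simp only [G, lineDeriv_pt]
  · rw [indicator_of_notMem ha]
    have : ∀ s, pt a s ∉ S := fun s => ha
    simp only [indicator_of_notMem (this _)]
    simp

lemma strip_bound (hf : LipschitzWith C f) (h'f : HasCompactSupport f)
    (hg : LipschitzWith D g) : ∃ K : ℝ, 0 ≤ K ∧ ∀ ε : ℝ, 0 < ε →
      |(∫ a in Ioo 0 ε, (1 / ε) * G f g a) - G f g 0| ≤ K * ε := by
  obtain ⟨K, hK0, hK⟩ := G_sub hf h'f hg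
  refine ⟨K, hK0, fun ε hε => ?_⟩
  -- integrability of G on the interval
  have iG : IntegrableOn (fun a => (1 / ε) * G f g a) (Ioo 0 ε) := by
    have h1 : Integrable (fun p : ℝ × ℝ => (fun x => f x * lineDeriv ℝ g x (bv 1)) (ptE p)) :=
      (ptE_mp.integrable_comp_emb ptE.measurableEmbedding).2 (integrable_mul_lineDeriv hf h'f hg (bv 1))
    rw [Measure.volume_eq_prod] at h1
    have h2 := h1.integral_prod_left
    simp only [ptE_apply, lineDeriv_pt] at h2
    exact (h2.const_mul (1 / ε)).integrableOn
  have e : (∫ a in Ioo 0 ε, (1 / ε) * G f g a) - G f g 0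
      = ∫ a in Ioo 0 ε, (1 / ε) * (G f g a - G f g 0) := by
    simp_rw [mul_sub]
    rw [integral_sub iG (integrableOn_const (by simp))]
    congr 1
    rw [setIntegral_const, Measure.real, Real.volume_Ioo, ENNReal.toReal_ofReal (by linarith)]
    simp only [sub_zero, smul_eq_mul]
    field_simp
  rw [e]
  have := norm_setIntegral_le_of_norm_le_const (μ := volume) (s := Ioo 0 ε)
    (f := fun a => (1 / ε) * (G f g a - G f g 0)) (C := K) (by simp) (fun a ha => by
      rw [norm_mul, Real.norm_eq_abs, Real.norm_eq_abs, abs_of_pos (by positivity)]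
      have h1 := hK a
      rw [abs_of_pos ha.1] at h1
      calc 1 / ε * |G f g a - G f g 0| ≤ 1 / ε * (K * a) := by gcongr
        _ ≤ 1 / ε * (K * ε) := by
            have := ha.2.le
            gcongr
        _ = K := by field_simp)
  rw [Real.norm_eq_abs] at this
  refine this.trans (le_of_eq ?_)
  rw [Measure.real, Real.volume_Ioo, ENNReal.toReal_ofReal (by linarith), sub_zero]

/-- **Stokes on the half plane** for compactly supported Lipschitz functions. -/
theorem stokes_half (hf : LipschitzWith C f) (h'f : HasCompactSupport f)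
    (hg : LipschitzWith D g) (h'g : HasCompactSupport g) :
    ∫ x in {x : E2 | 0 < x 0}, JL f g x
      = - ∫ s, f (pt 0 s) * deriv (fun s => g (pt 0 s)) s := by
  have mH : MeasurableSet {x : E2 | 0 < x 0} := (continuous_coord 0).measurable measurableSet_Ioi
  have hε : ∀ n : ℕ, (0 : ℝ) < 1 / ((n : ℝ) + 1) := fun n => Nat.one_div_pos_of_nat
  have L1 : Tendsto (fun n : ℕ => ∫ x, ramp (1 / ((n : ℝ) + 1)) x * JL f g x) atTop
      (𝓝 (∫ x in {x : E2 | 0 < x 0}, JL f g x)) := by
    rw [← integral_indicator mH]
    apply tendsto_integral_of_dominated_convergence (fun x => ‖JL f g x‖)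
    · intro n
      exact ((ramp_lip (hε n)).continuous.aestronglyMeasurable).mul
        (integrable_JL hf h'f hg).aestronglyMeasurable
    · exact (integrable_JL hf h'f hg).norm
    · intro n
      filter_upwards with x
      rw [norm_mul]
      calc ‖ramp (1 / ((n : ℝ) + 1)) x‖ * ‖JL f g x‖ ≤ 1 * ‖JL f g x‖ := by
            gcongr
            exact ramp_abs _ x
        _ = _ := one_mul _
    · filter_upwards with x
      by_cases hx : 0 < x 0
      · rw [indicator_of_mem (by exact hx)]
        have t0 := (tendsto_one_div_add_atTop_nhds_zero_nat (𝕜 := ℝ)).eventually_lt_const hx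
        apply tendsto_const_nhds.congr'
        filter_upwards [t0] with n hn
        have : 1 ≤ x 0 / (1 / ((n : ℝ) + 1)) := by
          rw [one_le_div (hε n)]; exact hn.le
        rw [ramp, min_eq_left this, max_eq_right zero_le_one, one_mul]
      · rw [indicator_of_notMem (by exact hx)]
        apply tendsto_const_nhds.congr'
        filter_upwards with n
        have h1 : x 0 / (1 / ((n : ℝ) + 1)) ≤ 0 :=
          div_nonpos_of_nonpos_of_nonneg (not_lt.mp hx) (hε n).le
        have h2 : min 1 (x 0 / (1 / ((n : ℝ) + 1))) ≤ 0 := (min_le_right _ _).trans h1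
        rw [ramp, max_eq_left h2, zero_mul]
  have L2 : Tendsto (fun n : ℕ => ∫ x, ramp (1 / ((n : ℝ) + 1)) x * JL f g x) atTop
      (𝓝 (- G f g 0)) := by
    obtain ⟨K, hK0, hK⟩ := strip_bound hf h'f hg
    have e : ∀ n : ℕ, ∫ x, ramp (1 / ((n : ℝ) + 1)) x * JL f g x
        = - ∫ a in Ioo 0 (1 / ((n : ℝ) + 1)), (1 / (1 / ((n : ℝ) + 1))) * G f g a := by
      intro n
      rw [ramp_identity hf h'f hg h'g (hε n), strip_integral hf h'f hg]
    simp_rw [e]
    apply Tendsto.neg
    rw [tendsto_iff_dist_tendsto_zero]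
    have lim : Tendsto (fun n : ℕ => K * (1 / ((n : ℝ) + 1))) atTop (𝓝 0) := by
      simpa using (tendsto_one_div_add_atTop_nhds_zero_nat (𝕜 := ℝ)).const_mul K
    apply squeeze_zero (fun _ => dist_nonneg) _ lim
    intro n
    rw [Real.dist_eq]
    exact hK _ (hε n)
  exact tendsto_nhds_unique L1 L2

end Pool.Agent.H74.FAC
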