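import Pool.Agent.H74.FAC.BInt

open MeasureTheory Set Filter Measure Manifold Bundle
open scoped ContDiff Topology ENNReal NNReal

noncomputable section

namespace Pool.Agent.H74.FAC

open Cert

lemma Phi_int_first : ∫ t in (0 : ℝ)..hh, Phi t = hh * (2 * hh / MM * (2 * 791019)) := by
  have h : ∫ t in (0 : ℝ)..hh, Phi t = ∫ _t in (0 : ℝ)..hh, (2 * hh / MM * (2 * 791019) : ℝ) := by
    rw [intervalIntegral.integral_of_le hh_pos.le, intervalIntegral.integral_of_le hh_pos.le,
      integral_Ioc_eq_integral_Ioo, integral_Ioc_eq_integral_Ioo]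
    exact setIntegral_congr_fun measurableSet_Ioo fun t ht => Phi_val ht.1 ht.2
  rw [h, intervalIntegral.integral_const, sub_zero, smul_eq_mul]

lemma Phi_int (hint : ∀ a b : ℝ, IntervalIntegrable Phi volume a b) :
    ∫ t in (0 : ℝ)..(2 * Real.pi), Phi t = 88 * hh ^ 2 * 791019 / MM := by
  have h := Phi_periodic.intervalIntegral_add_zsmul_eq 22 0 hint
  have e : (0 : ℝ) + (22 : ℤ) • hh = 2 * Real.pi := by
    rw [zsmul_eq_mul, ← eleven_hh]; push_cast; ring
  rw [e, zero_add, Phi_int_first] at h
  rw [h, zsmul_eq_mul]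
  push_cast
  ring

variable {M : Type} [MetricSpace M] [ChartedSpace HP M] [IsManifold (𝓡∂ 2) ∞ M] [CompactSpace M]
  [RiemannianBundle (fun x : M => TangentSpace (𝓡∂ 2) x)]
  [IsContMDiffRiemannianBundle (𝓡∂ 2) ∞ E2 (fun x : M => TangentSpace (𝓡∂ 2) x)]
  [IsRiemannianManifold (𝓡∂ 2) M]

/-- **Lower bound for the area of oriented isometric fillings of the circle of length `2π`.** -/
theorem filling_area (ho : Orientable M) {φ : S1 → M} (hφ : IsometricFilling φ) :
    ENNReal.ofReal (1.8065 * Real.pi) ≤ area M := by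
  have hge := area_ge ho hφ (N := 11) (f := ff φ) (ff_lip φ) (b := bb) contDiff_bb
    (fun x X Y hXY => comass_bb (SL_ff_le hφ x) X Y hXY)
  refine le_trans (ENNReal.ofReal_le_ofReal ?_) hge
  have hL : ∀ i : Fin 11, ∃ C : ℝ≥0, LipschitzWith C (fun x => bb i (fun k => ff φ k x)) :=
    fun i => lip_comp (ff_lip φ) (contDiff_bb i)
  have hterm : ∀ (i : Fin 11) (t : ℝ), bb i (fun k => ff φ k (φ (t : S1)))
      * deriv (fun t : ℝ => ff φ i (φ (t : S1))) t = bb i (yb t) * zb t i := by
    intro i t
    have h1 : (fun k => ff φ k (φ (t : S1))) = yb t := funext fun k => ff_bdry hφ k t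
    have h2 : (fun t : ℝ => ff φ i (φ (t : S1))) = fun t => yb t i := funext fun t => ff_bdry hφ i t
    rw [h1, h2, zb]
  have hi : ∀ (i : Fin 11) (a b : ℝ), IntervalIntegrable (fun t => bb i (yb t) * zb t i) volume a b := by
    intro i a b
    obtain ⟨C, hC⟩ := hL i
    have := Cov.bint_integrand_int hφ hC (ff_lip φ i) a b
    exact this.congr (fun t _ => hterm i t)
  have hsum : ∑ i, bint φ (fun x => bb i (fun k => ff φ k x)) (ff φ i)
      = ∫ t in (0 : ℝ)..(2 * Real.pi), Phi t := by
    have e1 : ∀ i : Fin 11, bint φ (fun x => bb i (fun k => ff φ k x)) (ff φ i)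
        = ∫ t in (0 : ℝ)..(2 * Real.pi), bb i (yb t) * zb t i := by
      intro i
      rw [bint]
      exact intervalIntegral.integral_congr fun t _ => hterm i t
    rw [Finset.sum_congr rfl fun i _ => e1 i,
      ← intervalIntegral.integral_finsetSum fun i _ => hi i _ _]
    rfl
  have hPhi : ∀ a b : ℝ, IntervalIntegrable Phi volume a b := by
    intro a b
    have := IntervalIntegrable.sum (μ := volume) (a := a) (b := b) Finset.univ
      (f := fun (i : Fin 11) t => bb i (yb t) * zb t i) fun i _ => hi i a b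
    refine this.congr fun t _ => ?_
    simp [Phi]
  rw [hsum, Phi_int hPhi]
  have hMM : (MM : ℝ) = 1000410 := by
    have : MM = 1000410 := rfl
    rw [this]; norm_num
  have hpi := Real.pi_gt_d4
  rw [hMM, hh, abs_of_nonneg (by positivity)]
  have h0 := Real.pi_pos
  have : 88 * (Real.pi / 11) ^ 2 * 791019 / 1000410 = (88 * 791019 / (121 * 1000410) * Real.pi) * Real.pi := by
    ring
  rw [this]
  refine mul_le_mul_of_nonneg_right ?_ h0.le
  have : (1.8065 : ℝ) ≤ 88 * 791019 / (121 * 1000410) * 3.1415 := by norm_num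
  refine this.trans ?_
  exact mul_le_mul_of_nonneg_left hpi.le (by norm_num)

end Pool.Agent.H74.FAC

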