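import Pool.Agent.H74.FAC.Chg2

open MeasureTheory Set Filter Measure Manifold Bundle
open scoped ContDiff Topology ENNReal NNReal

set_option linter.unusedSectionVars false
set_option linter.style.haveILetI false

noncomputable section

namespace Pool.Agent.H74.FAC

/-- A chart with a controlled half ball. -/
structure Patch (M : Type) [MetricSpace M] [ChartedSpace HP M] where
  e : OpenPartialHomeomorph M HP
  he : e ∈ IsManifold.maximalAtlas (𝓡∂ 2) ∞ M
  c : E2
  r : ℝ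
  hr : 0 < r
  K : ℝ≥0
  sub : Metric.ball c (2 * r) ∩ {z : E2 | 0 ≤ z 0} ⊆ (e.extend (𝓡∂ 2)).target
  lip : LipschitzOnWith K (e.extend (𝓡∂ 2)).symm (Metric.ball c (2 * r) ∩ {z : E2 | 0 ≤ z 0})
  small : (K : ℝ) * (4 * r) ≤ 1

namespace Patch

variable {M : Type} [MetricSpace M] [ChartedSpace HP M] [IsManifold (𝓡∂ 2) ∞ M] [CompactSpace M]
  (P : Patch M)

def D : Set E2 := Metric.ball P.c (2 * P.r) ∩ {z : E2 | 0 ≤ z 0}

def V : Set M := {x ∈ P.e.source | P.e.extend (𝓡∂ 2) x ∈ Metric.ball P.c P.r}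

lemma V_sub : P.V ⊆ P.e.source := fun _ hx => hx.1

lemma V_open : IsOpen P.V := by
  have h := P.e.isOpen_extend_preimage' (I := 𝓡∂ 2) (Metric.isOpen_ball (x := P.c) (ε := P.r))
  have : P.V = (P.e.extend (𝓡∂ 2)).source ∩ (P.e.extend (𝓡∂ 2)) ⁻¹' (Metric.ball P.c P.r) := by
    rw [OpenPartialHomeomorph.extend_source]
    rfl
  rw [this]
  exact h

lemma mem_D_of_V {x : M} (hx : x ∈ P.V) : P.e.extend (𝓡∂ 2) x ∈ P.D := by
  refine ⟨?_, ext_nonneg _ _⟩
  have h1 := hx.2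
  rw [Metric.mem_ball] at h1 ⊢
  linarith [P.hr]

lemma mem_D_of_ball {z : E2} (hz : z ∈ Metric.ball P.c P.r) (h0 : 0 ≤ z 0) : z ∈ P.D := by
  refine ⟨?_, h0⟩
  rw [Metric.mem_ball] at hz ⊢
  linarith [P.hr]

lemma image_V : P.e.extend (𝓡∂ 2) '' P.V = Metric.ball P.c P.r ∩ {z : E2 | 0 ≤ z 0} := by
  ext z
  constructor
  · rintro ⟨x, hx, rfl⟩
    exact ⟨hx.2, ext_nonneg _ _⟩
  · intro hz
    have hz' : z ∈ (P.e.extend (𝓡∂ 2)).target := P.sub (P.mem_D_of_ball hz.1 hz.2)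
    refine ⟨(P.e.extend (𝓡∂ 2)).symm z, ⟨symm_mem_source hz', ?_⟩, ?_⟩
    · rw [(P.e.extend (𝓡∂ 2)).right_inv hz']
      exact hz.1
    · exact (P.e.extend (𝓡∂ 2)).right_inv hz'

lemma exists_ext {u : M → ℝ} {L : ℝ≥0} (hu : LipschitzWith L u) :
    ∃ (C : ℝ≥0) (U : E2 → ℝ), LipschitzWith C U ∧
      ∀ z ∈ P.D, U z = u ((P.e.extend (𝓡∂ 2)).symm z) := by
  have h : LipschitzOnWith (L * P.K) (fun z => u ((P.e.extend (𝓡∂ 2)).symm z)) P.D :=
    hu.comp_lipschitzOnWith P.lip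
  obtain ⟨g, hg, hg'⟩ := h.extend_real
  exact ⟨L * P.K, g, hg, fun z hz => (hg' hz).symm⟩

/-- cutoff -/
def θ (z : E2) : ℝ := max 0 (min 1 (3 - 2 * dist z P.c / P.r))

lemma θ_abs (z : E2) : |P.θ z| ≤ 1 := by
  rw [abs_of_nonneg (le_max_left _ _)]
  exact max_le zero_le_one (min_le_left _ _)

lemma θ_one {z : E2} (hz : z ∈ Metric.ball P.c P.r) : P.θ z = 1 := by
  have h := P.hr
  rw [Metric.mem_ball] at hz
  have h1 : 2 * dist z P.c / P.r ≤ 2 := by
    rw [div_le_iff₀ h]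
    linarith
  have h2 : 1 ≤ 3 - 2 * dist z P.c / P.r := by linarith
  unfold θ
  rw [min_eq_left h2, max_eq_right zero_le_one]

lemma θ_zero {z : E2} (hz : 3 / 2 * P.r ≤ dist z P.c) : P.θ z = 0 := by
  have h := P.hr
  have h1 : 3 ≤ 2 * dist z P.c / P.r := by
    rw [le_div_iff₀ h]
    linarith
  have h2 : min 1 (3 - 2 * dist z P.c / P.r) ≤ 0 := (min_le_right _ _).trans (by linarith)
  unfold θ
  rw [max_eq_left h2]

lemma θ_lip : ∃ C : ℝ≥0, LipschitzWith C P.θ := by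
  have h := P.hr
  refine ⟨⟨2 / P.r, by positivity⟩, lip_of_abs _ ?_⟩
  intro x y
  have h1 : |P.θ x - P.θ y| ≤ |2 * dist x P.c / P.r - 2 * dist y P.c / P.r| := by
    unfold θ
    have a1 : |max 0 (min 1 (3 - 2 * dist x P.c / P.r)) - max 0
        (min 1 (3 - 2 * dist y P.c / P.r))| ≤ |min 1 (3 - 2 * dist x P.c / P.r) -
        min 1 (3 - 2 * dist y P.c / P.r)| := by
      refine (abs_max_sub_max_le_max 0 _ 0 _).trans (max_le (by simp) le_rfl)
    have a2 : |min 1 (3 - 2 * dist x P.c / P.r) -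
        min 1 (3 - 2 * dist y P.c / P.r)| ≤ |(3 - 2 * dist x P.c / P.r) - (3 - 2 * dist y P.c / P.r)| := by
      refine (abs_min_sub_min_le_max 1 _ 1 _).trans (max_le (by simp) le_rfl)
    refine a1.trans (a2.trans (le_of_eq ?_))
    rw [abs_sub_comm]
    congr 1
    ring
  refine h1.trans ?_
  have : 2 * dist x P.c / P.r - 2 * dist y P.c / P.r = 2 / P.r * (dist x P.c - dist y P.c) := by
    ring
  rw [this, abs_mul, abs_of_pos (by positivity)]
  have := abs_dist_sub_le x y P.c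
  gcongr

lemma θ_compact : HasCompactSupport P.θ := by
  apply HasCompactSupport.of_support_subset_isCompact (isCompact_closedBall P.c (3 / 2 * P.r))
  intro z hz
  by_contra h
  apply hz
  apply P.θ_zero
  rw [Metric.mem_closedBall, not_le] at h
  exact h.le

/-- cut off Lipschitz extension -/
lemma exists_cut {u : M → ℝ} {L : ℝ≥0} (hu : LipschitzWith L u) :
    ∃ (C : ℝ≥0) (F : E2 → ℝ), LipschitzWith C F ∧ HasCompactSupport F ∧
      (∀ z ∈ P.D, F z = P.θ z * u ((P.e.extend (𝓡∂ 2)).symm z)) ∧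
      (∀ z, z ∉ Metric.ball P.c (2 * P.r) → F z = 0) := by
  obtain ⟨C, U, hU, hU'⟩ := P.exists_ext hu
  obtain ⟨Cθ, hθ⟩ := P.θ_lip
  -- bounded modification of U
  obtain ⟨B, hB⟩ := (isCompact_closedBall P.c (2 * P.r)).exists_bound_of_continuousOn
    hU.continuous.continuousOn
  set B' := max B 0
  set U' : E2 → ℝ := fun z => max (-B') (min B' (U z)) with hU'def
  have hB0 : 0 ≤ B' := le_max_right _ _
  have hL : LipschitzWith C U' := by
    have h1 : LipschitzWith C (fun z => min B' (U z)) := by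
      have := hU.const_min B'
      exact this
    exact h1.const_max (-B')
  have hbd : ∀ z, |U' z| ≤ B' := by
    intro z
    rw [abs_le]
    exact ⟨le_max_left _ _, max_le (by linarith) (min_le_left _ _)⟩
  have heq : ∀ z ∈ P.D, U' z = u ((P.e.extend (𝓡∂ 2)).symm z) := by
    intro z hz
    rw [← hU' z hz]
    have h1 : |U z| ≤ B' := by
      have := hB z (Metric.ball_subset_closedBall hz.1)
      rw [Real.norm_eq_abs] at this
      exact this.trans (le_max_left _ _)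
    rw [abs_le] at h1
    simp only [hU'def]
    rw [min_eq_right h1.2, max_eq_right h1.1]
  obtain ⟨C', hC'⟩ := lip_mul hθ hL P.θ_abs hbd
  refine ⟨C', _, hC', P.θ_compact.mul_right, ?_, ?_⟩
  · intro z hz
    rw [heq z hz]
  · intro z hz
    rw [P.θ_zero, zero_mul]
    rw [Metric.mem_ball, not_lt] at hz
    linarith [P.hr]

end Patch

end Pool.Agent.H74.FAC
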