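import Pool.Agent.H74.FAC.Patch

open MeasureTheory Set Filter Measure Manifold Bundle
open scoped ContDiff Topology ENNReal NNReal

set_option linter.unusedSectionVars false
set_option linter.style.haveILetI false

noncomputable section

namespace Pool.Agent.H74.FAC

namespace Patch

variable {M : Type} [MetricSpace M] [ChartedSpace HP M] [IsManifold (𝓡∂ 2) ∞ M] [CompactSpace M]
  (P : Patch M)

/-- `F` is a cut off coordinate expression of `u`. -/
structure Cut (u : M → ℝ) where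
  C : ℝ≥0
  F : E2 → ℝ
  lip : LipschitzWith C F
  cs : HasCompactSupport F
  eq : ∀ z ∈ P.D, F z = P.θ z * u ((P.e.extend (𝓡∂ 2)).symm z)
  out : ∀ z, z ∉ Metric.ball P.c (2 * P.r) → F z = 0

def cut {u : M → ℝ} {L : ℝ≥0} (hu : LipschitzWith L u) : P.Cut u :=
  have h := P.exists_cut hu
  { C := h.choose
    F := h.choose_spec.choose
    lip := h.choose_spec.choose_spec.1
    cs := h.choose_spec.choose_spec.2.1
    eq := h.choose_spec.choose_spec.2.2.1
    out := h.choose_spec.choose_spec.2.2.2 }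

/-- open half ball -/
def O : Set E2 := Metric.ball P.c P.r ∩ {z : E2 | 0 < z 0}

lemma O_open : IsOpen P.O := Metric.isOpen_ball.inter (isOpen_lt continuous_const (continuous_coord 0))

lemma O_meas : MeasurableSet P.O := P.O_open.measurableSet

lemma O_sub_D : P.O ⊆ P.D := fun _ hz => P.mem_D_of_ball hz.1 (le_of_lt hz.2)

variable {P}

lemma Cut.eqO {u : M → ℝ} (F : P.Cut u) {z : E2} (hz : z ∈ P.O) :
    F.F z = u ((P.e.extend (𝓡∂ 2)).symm z) := by
  rw [F.eq z (P.O_sub_D hz), P.θ_one hz.1, one_mul]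

lemma Cut.ev {u : M → ℝ} (F : P.Cut u) {z : E2} (hz : z ∈ P.O) :
    (fun y => u ((P.e.extend (𝓡∂ 2)).symm y)) =ᶠ[𝓝 z] F.F := by
  filter_upwards [P.O_open.mem_nhds hz] with y hy
  rw [F.eqO hy]

lemma Cut.diff {u : M → ℝ} (F : P.Cut u) : ∀ᵐ z, z ∈ P.O →
    DifferentiableAt ℝ (fun y => u ((P.e.extend (𝓡∂ 2)).symm y)) z := by
  filter_upwards [F.lip.ae_differentiableAt (μ := volume)] with z hz hO
  rw [(F.ev hO).differentiableAt_iff]
  exact hz

lemma Cut.Jc_eq {u w : M → ℝ} (F : P.Cut u) (W : P.Cut w) :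
    ∀ᵐ z, z ∈ P.O → Jc P.e u w z = JL F.F W.F z := by
  filter_upwards [F.lip.ae_differentiableAt (μ := volume),
    W.lip.ae_differentiableAt (μ := volume)] with z h1 h2 hO
  unfold Jc JL
  rw [(F.ev hO).fderiv_eq, (W.ev hO).fderiv_eq, h1.lineDeriv_eq_fderiv, h1.lineDeriv_eq_fderiv,
    h2.lineDeriv_eq_fderiv, h2.lineDeriv_eq_fderiv]

lemma image_ae {S : Set M} (hS : S ⊆ P.V) : ∀ᵐ z, z ∈ P.e.extend (𝓡∂ 2) '' S → z ∈ P.O := by
  filter_upwards [null_line 0] with z hz
  rintro ⟨x, hx, rfl⟩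
  exact ⟨(hS hx).2, lt_of_le_of_ne (ext_nonneg _ _) (Ne.symm hz)⟩

lemma integrableOn_Jc {u w : M → ℝ} {L L' : ℝ≥0} (hu : LipschitzWith L u) (hw : LipschitzWith L' w)
    {S : Set M} (hm : MeasurableSet[borel M] S) (hS : S ⊆ P.V) :
    IntegrableOn (Jc P.e u w) (P.e.extend (𝓡∂ 2) '' S) := by
  have F := P.cut hu
  have W := P.cut hw
  have h1 : IntegrableOn (JL F.F W.F) (P.e.extend (𝓡∂ 2) '' S) :=
    (integrable_JL F.lip F.cs W.lip).integrableOn
  refine h1.congr_fun_ae ?_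
  have hms := meas_image hm (hS.trans P.V_sub)
  rw [Filter.EventuallyEq, ae_restrict_iff' hms]
  filter_upwards [F.Jc_eq W, image_ae hS] with z h1 h2 h3
  exact (h1 (h2 h3)).symm

lemma O_ae : (P.e.extend (𝓡∂ 2) '' P.V : Set E2) =ᵐ[volume] P.O := by
  filter_upwards [null_line 0] with z hz
  apply propext
  show z ∈ P.e.extend (𝓡∂ 2) '' P.V ↔ z ∈ P.O
  rw [P.image_V]
  constructor
  · intro h
    exact ⟨h.1, lt_of_le_of_ne h.2 (Ne.symm hz)⟩
  · intro h
    have h2 : 0 < z 0 := h.2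
    exact ⟨h.1, h2.le⟩

/-- **local Stokes formula** -/
theorem local_stokes {u w : M → ℝ} (hsupp : tsupport u ⊆ P.V) (F : P.Cut u) (W : P.Cut w) :
    ∫ z in P.e.extend (𝓡∂ 2) '' P.V, Jc P.e u w z
      = - ∫ s, F.F (pt 0 s) * deriv (fun s => W.F (pt 0 s)) s := by
  rw [setIntegral_congr_set O_ae, ← stokes_half F.lip F.cs W.lip W.cs]
  have h1 : ∫ z in P.O, Jc P.e u w z = ∫ z in P.O, JL F.F W.F z := by
    apply setIntegral_congr_ae P.O_meas
    exact F.Jc_eq W
  rw [h1]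
  -- vanishing outside the ball
  have hcomp : IsCompact (P.e.extend (𝓡∂ 2) '' (tsupport u)) := by
    apply (isClosed_tsupport u).isCompact.image_of_continuousOn
    apply P.e.continuousOn_extend.mono
    rw [OpenPartialHomeomorph.extend_source]
    exact hsupp.trans P.V_sub
  have hball : P.e.extend (𝓡∂ 2) '' (tsupport u) ⊆ Metric.ball P.c P.r := by
    rintro z ⟨x, hx, rfl⟩
    exact (hsupp hx).2
  have hzero : ∀ z : E2, 0 < z 0 → z ∉ Metric.ball P.c P.r → JL F.F W.F z = 0 := by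
    intro z hz0 hz
    have hzK : z ∉ P.e.extend (𝓡∂ 2) '' (tsupport u) := fun h => hz (hball h)
    have hF : F.F =ᶠ[𝓝 z] fun _ => 0 := by
      have o1 : (P.e.extend (𝓡∂ 2) '' (tsupport u))ᶜ ∈ 𝓝 z := hcomp.isClosed.isOpen_compl.mem_nhds hzK
      have o2 : {y : E2 | 0 < y 0} ∈ 𝓝 z :=
        (isOpen_lt continuous_const (continuous_coord 0)).mem_nhds hz0
      filter_upwards [o1, o2] with y h1 h2
      by_cases hyD : y ∈ P.D
      · rw [F.eq y hyD]
        have ht : y ∈ (P.e.extend (𝓡∂ 2)).target := P.sub hyD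
        have : u ((P.e.extend (𝓡∂ 2)).symm y) = 0 := by
          by_contra hne
          apply h1
          exact ⟨(P.e.extend (𝓡∂ 2)).symm y, subset_tsupport _ hne, (P.e.extend (𝓡∂ 2)).right_inv ht⟩
        rw [this, mul_zero]
      · apply F.out
        intro hb
        exact hyD ⟨hb, le_of_lt h2⟩
    have hl : ∀ v, lineDeriv ℝ F.F z v = 0 := by
      intro v
      rw [hF.lineDeriv_eq]
      simp [lineDeriv]
    unfold JL
    rw [hl, hl]
    ring
  have mH : MeasurableSet {x : E2 | 0 < x 0} := (continuous_coord 0).measurable measurableSet_Ioi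
  symm
  apply setIntegral_eq_of_subset_of_forall_sdiff_eq_zero mH (fun z hz => hz.2)
  rintro z ⟨hz1, hz2⟩
  apply hzero z hz1
  intro hb
  exact hz2 ⟨hb, hz1⟩

end Patch

end Pool.Agent.H74.FAC
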